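import Mathlib

set_option autoImplicit false

namespace Pool.Agent.Helper318.L1S

/-- The dual of a normed space is the dual of its completion. -/
theorem dual_completion (𝕜 : Type*) [RCLike 𝕜] (X : Type*) [NormedAddCommGroup X]
    [NormedSpace 𝕜 X] :
    Nonempty (StrongDual 𝕜 X ≃L[𝕜] StrongDual 𝕜 (UniformSpace.Completion X)) := by
  let j : X →L[𝕜] UniformSpace.Completion X := UniformSpace.Completion.toComplL
  let Φ : StrongDual 𝕜 (UniformSpace.Completion X) →ₗ[𝕜] StrongDual 𝕜 X :=
    { toFun := fun F => F.comp j
      map_add' := fun F G => by ext x; rfl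
      map_smul' := fun c F => by ext x; rfl }
  have hdense : DenseRange j := UniformSpace.Completion.denseRange_coe
  have hui : IsUniformInducing j := UniformSpace.Completion.isUniformInducing_coe X
  have hnorm : ∀ F, ‖Φ F‖ = ‖F‖ := by
    intro F
    apply le_antisymm
    · refine ContinuousLinearMap.opNorm_le_bound _ (norm_nonneg _) fun x => ?_
      have := F.le_opNorm (j x)
      rwa [show ‖j x‖ = ‖x‖ from UniformSpace.Completion.norm_coe x] at this
    · refine ContinuousLinearMap.opNorm_le_bound _ (norm_nonneg _) fun y => ?_
      refine UniformSpace.Completion.induction_on y ?_ fun x => ?_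
      · exact isClosed_le (F.continuous.norm) (continuous_const.mul continuous_norm)
      · have := (Φ F).le_opNorm x
        rwa [← UniformSpace.Completion.norm_coe x] at this
  let e : StrongDual 𝕜 (UniformSpace.Completion X) →ₗᵢ[𝕜] StrongDual 𝕜 X := ⟨Φ, hnorm⟩
  have hsurj : Function.Surjective e := by
    intro f
    refine ⟨f.extend j, ?_⟩
    ext x
    exact f.extend_eq hdense hui x
  exact ⟨(LinearIsometryEquiv.ofSurjective e hsurj).symm.toContinuousLinearEquiv⟩

end Pool.Agent.Helper318.L1S
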