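import Pool.Agent.Helper318.L1S.Defs

set_option autoImplicit false

open MeasureTheory Set Filter Topology

namespace Pool.Agent.Helper318.L1S


theorem real_const {Ω : Type*} [MeasurableSpace Ω] {ν : Measure Ω} [IsFiniteMeasure ν] (hν : ν univ ≠ 0)
    (hd : ∀ B : Set Ω, MeasurableSet B → ν B = 0 ∨ ν Bᶜ = 0) {f : Ω → ℝ} (hf : Integrable f ν) :
    ∃ c : ℝ, f =ᵐ[ν] fun _ => c := by
  have hpos : 0 < ν.real univ := by
    rw [Measure.real]; exact ENNReal.toReal_pos hν (measure_ne_top _ _)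
  set c : ℝ := (∫ x, f x ∂ν) / ν.real univ with hc
  have hint : ∫ x, (f x - c) ∂ν = 0 := by
    rw [integral_sub hf (integrable_const c), integral_const, smul_eq_mul, hc]
    field_simp
    ring
  refine ⟨c, ?_⟩
  -- a measurable version
  obtain ⟨g, hg, hfg⟩ := hf.aestronglyMeasurable
  have hB : MeasurableSet {x | c ≤ g x} := measurableSet_le measurable_const hg.measurable
  rcases hd _ hB with h0 | h0
  · have h1 : ∀ᵐ x ∂ν, 0 ≤ -(f x - c) := by
      have h2 : ∀ᵐ x ∂ν, x ∉ {x | c ≤ g x} := measure_eq_zero_iff_ae_notMem.mp h0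
      filter_upwards [h2, hfg] with x hx hx'
      simp only [mem_setOf_eq, not_le] at hx
      rw [hx']; linarith
    have h3 : ∫ x, -(f x - c) ∂ν = 0 := by rw [integral_neg, hint, neg_zero]
    have h4 := (integral_eq_zero_iff_of_nonneg_ae h1 (hf.sub (integrable_const c)).neg).mp h3
    filter_upwards [h4] with x hx
    simp only [Pi.zero_apply] at hx
    linarith
  · have h1 : ∀ᵐ x ∂ν, 0 ≤ (f x - c) := by
      have h2 : ∀ᵐ x ∂ν, x ∉ {x | c ≤ g x}ᶜ := measure_eq_zero_iff_ae_notMem.mp h0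
      filter_upwards [h2, hfg] with x hx hx'
      simp only [mem_compl_iff, mem_setOf_eq, not_not] at hx
      rw [hx']; linarith
    have h4 := (integral_eq_zero_iff_of_nonneg_ae h1 (hf.sub (integrable_const c))).mp hint
    filter_upwards [h4] with x hx
    simp only [Pi.zero_apply] at hx
    linarith

theorem rclike_const {𝕜 : Type*} [RCLike 𝕜] {Ω : Type*} [MeasurableSpace Ω] {ν : Measure Ω}
    [IsFiniteMeasure ν] (hν : ν univ ≠ 0)
    (hd : ∀ B : Set Ω, MeasurableSet B → ν B = 0 ∨ ν Bᶜ = 0) {f : Ω → 𝕜} (hf : Integrable f ν) :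
    ∃ c : 𝕜, f =ᵐ[ν] fun _ => c := by
  obtain ⟨a, ha⟩ := real_const hν hd hf.re
  obtain ⟨b, hb⟩ := real_const hν hd hf.im
  refine ⟨(a : 𝕜) + (b : 𝕜) * RCLike.I, ?_⟩
  filter_upwards [ha, hb] with x hx hx'
  rw [← hx, ← hx', RCLike.re_add_im]

theorem atom_iso {𝕜 : Type*} [RCLike 𝕜] {Ω : Type*} [MeasurableSpace Ω] {μ : Measure Ω}
    {A : Set Ω} (hA : IsAtomSet μ A) (hfin : μ A < ⊤) :
    Nonempty (Lp 𝕜 1 (μ.restrict A) ≃ₗᵢ[𝕜] StrongDual 𝕜 𝕜) := by
  obtain ⟨hAm, hApos, hAt⟩ := hA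
  haveI : IsFiniteMeasure (μ.restrict A) := ⟨by rwa [Measure.restrict_apply_univ]⟩
  set ν := μ.restrict A with hνdef
  have hν : ν univ ≠ 0 := by rw [hνdef, Measure.restrict_apply_univ]; exact hApos.ne'
  have hd : ∀ B : Set Ω, MeasurableSet B → ν B = 0 ∨ ν Bᶜ = 0 := by
    intro B hB
    rcases hAt (B ∩ A) inter_subset_right (hB.inter hAm) with h | h
    · left; rw [hνdef, Measure.restrict_apply hB]; exact h
    · right; rw [hνdef, Measure.restrict_apply hB.compl]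
      have : Bᶜ ∩ A = A \ (B ∩ A) := by
        ext x; simp only [mem_inter_iff, mem_compl_iff, mem_diff]; tauto
      rw [this]; exact h
  have hpos : 0 < ν.real univ := by
    rw [Measure.real]; exact ENNReal.toReal_pos hν (measure_ne_top _ _)
  haveI : NeZero ν := ⟨fun h => hν (by rw [h]; simp)⟩
  let L : 𝕜 →ₗ[𝕜] Lp 𝕜 1 ν := ((ν.real univ)⁻¹ : ℝ) • (Lp.constₗ 1 ν 𝕜 : 𝕜 →ₗ[𝕜] Lp 𝕜 1 ν)
  have hL : ∀ c, ‖L c‖ = ‖c‖ := by
    intro c
    have : L c = ((ν.real univ)⁻¹ : ℝ) • Lp.const 1 ν c := rfl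
    have h5 : ‖Lp.const 1 ν c‖ = ‖c‖ * ν.real univ := by
      have h6 := Lp.norm_const' (μ := ν) (c := c) (p := 1) one_ne_zero ENNReal.one_ne_top
      simp only [ENNReal.toReal_one, div_one, Real.rpow_one] at h6
      exact h6
    rw [this, norm_smul, h5, norm_inv, Real.norm_eq_abs, abs_of_pos hpos]
    field_simp
  let I : 𝕜 →ₗᵢ[𝕜] Lp 𝕜 1 ν := ⟨L, hL⟩
  have hs : Function.Surjective I := by
    intro f
    obtain ⟨c, hc⟩ := rclike_const hν hd (L1.integrable_coeFn f)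
    refine ⟨(ν.real univ : ℝ) • c, ?_⟩
    have h1 : I ((ν.real univ : ℝ) • c) = ((ν.real univ)⁻¹ : ℝ) • Lp.const 1 ν ((ν.real univ : ℝ) • c) := rfl
    have h2 : Lp.const 1 ν ((ν.real univ : ℝ) • c) = (ν.real univ : ℝ) • Lp.const 1 ν c :=
      (Lp.constₗ (p := 1) (μ := ν) (E := 𝕜) ℝ).map_smul (ν.real univ) c
    rw [h1, h2, smul_smul, inv_mul_cancel₀ hpos.ne', one_smul]
    apply Lp.ext
    filter_upwards [hc, Lp.coeFn_const (p := 1) (μ := ν) (c := c)] with x hx hx'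
    rw [hx, hx']; rfl
  exact ⟨(LinearIsometryEquiv.ofSurjective I hs).symm.trans (ContinuousLinearMap.toSpanSingletonLIE 𝕜 𝕜)⟩

end Pool.Agent.Helper318.L1S
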