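import Pool.Agent.Helper318.L1S.Defs

set_option autoImplicit false

open MeasureTheory Set Filter Topology

namespace Pool.Agent.Helper318.L1S



open scoped ENNReal

section dc
variable {𝕜 : Type*} [RCLike 𝕜] {ι : Type*} {Y : ι → Type*}
    [∀ i, NormedAddCommGroup (Y i)] [∀ i, NormedSpace 𝕜 (Y i)]

/-- finitely supported families with the sup norm -/
def dcX (𝕜 : Type*) [RCLike 𝕜] {ι : Type*} (Y : ι → Type*)
    [∀ i, NormedAddCommGroup (Y i)] [∀ i, NormedSpace 𝕜 (Y i)] : Submodule 𝕜 (lp Y ∞) where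
  carrier := {f | {i | f i ≠ 0}.Finite}
  zero_mem' := by
    have : {i | (0 : lp Y ∞) i ≠ 0} = ∅ := by
      ext i; simp
    show {i | (0 : lp Y ∞) i ≠ 0}.Finite
    rw [this]
    exact Set.finite_empty
  add_mem' := by
    intro f g hf hg
    refine Set.Finite.subset (Set.Finite.union hf hg) ?_
    intro i hi
    by_contra hcon
    have h1 : f i = 0 := by
      by_contra h
      exact hcon (Or.inl h)
    have h2 : g i = 0 := by
      by_contra h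
      exact hcon (Or.inr h)
    apply hi
    rw [lp.coeFn_add, Pi.add_apply, h1, h2, add_zero]
  smul_mem' := by
    intro c f hf
    refine Set.Finite.subset hf ?_
    intro i hi h
    apply hi
    rw [lp.coeFn_smul, Pi.smul_apply, h, smul_zero]

open Classical in
/-- inclusion of a coordinate -/
noncomputable def dcS (𝕜 : Type*) [RCLike 𝕜] {ι : Type*} (Y : ι → Type*)
    [∀ i, NormedAddCommGroup (Y i)] [∀ i, NormedSpace 𝕜 (Y i)] (i : ι) : Y i →L[𝕜] dcX 𝕜 Y :=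
  LinearMap.mkContinuous
    { toFun := fun v => ⟨lp.single ∞ i v, by
        refine Set.Finite.subset (Set.finite_singleton i) ?_
        intro j hj
        by_contra hji
        exact hj (lp.single_apply_ne ∞ i v hji)⟩
      map_add' := fun a b => Subtype.ext (lp.single_add ∞ i a b)
      map_smul' := fun c a => Subtype.ext (lp.single_smul ∞ i c a) } 1 (by
      intro v
      rw [one_mul]
      exact (lp.norm_single (E := Y) (p := ∞) ENNReal.zero_lt_top i v).le)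

theorem dcS_same (i : ι) (v : Y i) : ((dcS 𝕜 Y i v : dcX 𝕜 Y) : lp Y ∞) i = v := by
  classical
  exact lp.single_apply_self ∞ i v

theorem dcS_ne {i j : ι} (h : j ≠ i) (v : Y i) : ((dcS 𝕜 Y i v : dcX 𝕜 Y) : lp Y ∞) j = 0 := by
  classical
  exact lp.single_apply_ne ∞ i v h

theorem dc_sum_apply (s : Finset ι) (v : ∀ i, Y i) (j : ι) :
    ((∑ i ∈ s, dcS 𝕜 Y i (v i) : dcX 𝕜 Y) : lp Y ∞) j = (by classical exact if j ∈ s then v j else 0) := by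
  classical
  rw [Submodule.coe_sum, lp.coeFn_sum, Finset.sum_apply]
  split_ifs with hj
  · rw [Finset.sum_eq_single j]
    · exact dcS_same j (v j)
    · intro i _ hij
      exact dcS_ne (Ne.symm hij) (v i)
    · intro h; exact absurd hj h
  · refine Finset.sum_eq_zero fun i hi => ?_
    refine dcS_ne ?_ (v i)
    intro e
    exact hj (e ▸ hi)

theorem dc_sum_norm (s : Finset ι) (v : ∀ i, Y i) (hv : ∀ i, ‖v i‖ ≤ 1) :
    ‖(∑ i ∈ s, dcS 𝕜 Y i (v i) : dcX 𝕜 Y)‖ ≤ 1 := by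
  classical
  show ‖((∑ i ∈ s, dcS 𝕜 Y i (v i) : dcX 𝕜 Y) : lp Y ∞)‖ ≤ 1
  refine lp.norm_le_of_forall_le zero_le_one fun j => ?_
  rw [dc_sum_apply]
  split_ifs
  · exact hv j
  · simp

theorem dcfin (f : dcX 𝕜 Y) : {i | (f : lp Y ∞) i ≠ 0}.Finite := f.2

/-- a finitely supported family is the sum of its coordinates -/
theorem dc_decomp (f : dcX 𝕜 Y) : f = ∑ i ∈ (dcfin f).toFinset, dcS 𝕜 Y i ((f : lp Y ∞) i) := by
  classical
  apply Subtype.ext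
  apply lp.ext
  funext j
  rw [dc_sum_apply]
  split_ifs with hj
  · rfl
  · rw [Set.Finite.mem_toFinset] at hj
    by_contra h
    exact hj h

theorem dc_phase (F : StrongDual 𝕜 (dcX 𝕜 Y)) (i : ι) (ε : ℝ) (hε : 0 < ε) :
    ∃ v : Y i, ‖v‖ ≤ 1 ∧ ∃ r : ℝ, ‖F.comp (dcS 𝕜 Y i)‖ - ε ≤ r ∧ F (dcS 𝕜 Y i v) = (r : 𝕜) := by
  obtain ⟨v, hv1, hv2⟩ := (F.comp (dcS 𝕜 Y i)).exists_lt_apply_of_lt_opNorm
    (r := ‖F.comp (dcS 𝕜 Y i)‖ - ε) (by linarith)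
  obtain ⟨c, hc1, hc2⟩ := RCLike.exists_norm_eq_mul_self ((F.comp (dcS 𝕜 Y i)) v)
  refine ⟨c • v, ?_, ‖(F.comp (dcS 𝕜 Y i)) v‖, hv2.le, ?_⟩
  · rw [norm_smul, hc1, one_mul]
    exact hv1.le
  · rw [hc2, map_smul, map_smul, smul_eq_mul]
    rfl

theorem dc_bound (F : StrongDual 𝕜 (dcX 𝕜 Y)) (s : Finset ι) :
    ∑ i ∈ s, ‖F.comp (dcS 𝕜 Y i)‖ ≤ ‖F‖ := by
  classical
  refine le_of_forall_pos_le_add fun ε hε => ?_
  have hc : (0 : ℝ) < s.card + 1 := by positivity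
  have hε' : 0 < ε / (s.card + 1) := by positivity
  choose v hv r hr hF using fun i => dc_phase F i (ε / (s.card + 1)) hε'
  have h1 : F (∑ i ∈ s, dcS 𝕜 Y i (v i)) = ((∑ i ∈ s, r i : ℝ) : 𝕜) := by
    rw [map_sum]
    push_cast
    exact Finset.sum_congr rfl fun i _ => hF i
  have h2 : ‖F (∑ i ∈ s, dcS 𝕜 Y i (v i))‖ ≤ ‖F‖ := by
    refine (F.le_opNorm _).trans ?_
    calc ‖F‖ * ‖(∑ i ∈ s, dcS 𝕜 Y i (v i) : dcX 𝕜 Y)‖ ≤ ‖F‖ * 1 :=
          mul_le_mul_of_nonneg_left (dc_sum_norm s v hv) (norm_nonneg F)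
      _ = ‖F‖ := mul_one _
  rw [h1, RCLike.norm_ofReal] at h2
  have h3 : ∑ i ∈ s, r i ≤ ‖F‖ := (le_abs_self _).trans h2
  have h4 : ∑ i ∈ s, (‖F.comp (dcS 𝕜 Y i)‖ - ε / (s.card + 1)) ≤ ∑ i ∈ s, r i :=
    Finset.sum_le_sum fun i _ => hr i
  rw [Finset.sum_sub_distrib, Finset.sum_const, nsmul_eq_mul] at h4
  have h5 : (s.card : ℝ) * (ε / (s.card + 1)) ≤ ε := by
    rw [mul_div_assoc', div_le_iff₀ hc]
    nlinarith
  linarith

theorem dc_summable (y : lp (fun i => StrongDual 𝕜 (Y i)) 1) : Summable fun i => ‖y i‖ := by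
  have := (lp.memℓp y).summable (by simp)
  simpa using this

theorem dc_norm (y : lp (fun i => StrongDual 𝕜 (Y i)) 1) : ‖y‖ = ∑' i, ‖y i‖ := by
  have := lp.norm_eq_tsum_rpow (p := 1) (by simp) y
  simpa using this

theorem dc_term (y : lp (fun i => StrongDual 𝕜 (Y i)) 1) (f : dcX 𝕜 Y) (i : ι) :
    ‖y i ((f : lp Y ∞) i)‖ ≤ ‖y i‖ * ‖f‖ := by
  refine ((y i).le_opNorm _).trans ?_
  exact mul_le_mul_of_nonneg_left (lp.norm_apply_le_norm (by simp) (f : lp Y ∞) i) (norm_nonneg _)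

theorem dc_sm (y : lp (fun i => StrongDual 𝕜 (Y i)) 1) (f : dcX 𝕜 Y) :
    Summable fun i => y i ((f : lp Y ∞) i) :=
  Summable.of_norm_bounded ((dc_summable y).mul_right ‖f‖) (dc_term y f)

/-- the functional given by a summable family -/
noncomputable def dcf (𝕜 : Type*) [RCLike 𝕜] {ι : Type*} (Y : ι → Type*)
    [∀ i, NormedAddCommGroup (Y i)] [∀ i, NormedSpace 𝕜 (Y i)]
    (y : lp (fun i => StrongDual 𝕜 (Y i)) 1) : StrongDual 𝕜 (dcX 𝕜 Y) :=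
  LinearMap.mkContinuous
        ({ toFun := fun f : dcX 𝕜 Y => ∑' i, y i ((f : lp Y ∞) i)
           map_add' := by
            intro f g
            rw [← (dc_sm y f).tsum_add (dc_sm y g)]
            refine tsum_congr fun i => ?_
            rw [Submodule.coe_add, lp.coeFn_add, Pi.add_apply, map_add]
           map_smul' := by
            intro c f
            rw [RingHom.id_apply, smul_eq_mul, ← tsum_mul_left]
            refine tsum_congr fun i => ?_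
            rw [Submodule.coe_smul, lp.coeFn_smul, Pi.smul_apply, map_smul, smul_eq_mul] } :
          dcX 𝕜 Y →ₗ[𝕜] 𝕜) ‖y‖ (by
          intro f
          show ‖∑' i, y i ((f : lp Y ∞) i)‖ ≤ _
          rw [dc_norm, ← tsum_mul_right]
          exact tsum_of_norm_bounded ((dc_summable y).mul_right ‖f‖).hasSum (dc_term y f))

theorem dcf_apply (y : lp (fun i => StrongDual 𝕜 (Y i)) 1) (f : dcX 𝕜 Y) :
    dcf 𝕜 Y y f = ∑' i, y i ((f : lp Y ∞) i) := rfl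

theorem dcf_norm (y : lp (fun i => StrongDual 𝕜 (Y i)) 1) : ‖dcf 𝕜 Y y‖ ≤ ‖y‖ :=
  LinearMap.mkContinuous_norm_le _ (norm_nonneg _) _

theorem dcf_add (y z : lp (fun i => StrongDual 𝕜 (Y i)) 1) : dcf 𝕜 Y (y + z) = dcf 𝕜 Y y + dcf 𝕜 Y z := by
  ext f
  show ∑' i, (y + z) i ((f : lp Y ∞) i) =
          ∑' i, y i ((f : lp Y ∞) i) + ∑' i, z i ((f : lp Y ∞) i)
  rw [← (dc_sm y f).tsum_add (dc_sm z f)]
  refine tsum_congr fun i => ?_
  rw [lp.coeFn_add, Pi.add_apply]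
  rfl

theorem dcf_smul (c : 𝕜) (y : lp (fun i => StrongDual 𝕜 (Y i)) 1) : dcf 𝕜 Y (c • y) = c • dcf 𝕜 Y y := by
  ext f
  show ∑' i, (c • y) i ((f : lp Y ∞) i) = c • ∑' i, y i ((f : lp Y ∞) i)
  rw [smul_eq_mul, ← tsum_mul_left]
  refine tsum_congr fun i => ?_
  rw [lp.coeFn_smul, Pi.smul_apply]
  rfl

/-- the pairing as a linear map -/
noncomputable def dcL (𝕜 : Type*) [RCLike 𝕜] {ι : Type*} (Y : ι → Type*)
    [∀ i, NormedAddCommGroup (Y i)] [∀ i, NormedSpace 𝕜 (Y i)] :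
    lp (fun i => StrongDual 𝕜 (Y i)) 1 →ₗ[𝕜] StrongDual 𝕜 (dcX 𝕜 Y) where
  toFun := fun y => dcf 𝕜 Y y
  map_add' := dcf_add
  map_smul' := dcf_smul

theorem dcL_bd (y : lp (fun i => StrongDual 𝕜 (Y i)) 1) : ‖dcL 𝕜 Y y‖ ≤ 1 * ‖y‖ :=
  (dcf_norm y).trans (one_mul ‖y‖).ge

/-- generic constructor -/
noncomputable def dcMk {Z : Type*} [NormedAddCommGroup Z] [NormedSpace 𝕜 Z] (X : Submodule 𝕜 Z)
    (f : lp (fun i => StrongDual 𝕜 (Y i)) 1 →ₗ[𝕜] StrongDual 𝕜 X) (h : ∀ y, ‖f y‖ ≤ 1 * ‖y‖) :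
    lp (fun i => StrongDual 𝕜 (Y i)) 1 →L[𝕜] StrongDual 𝕜 X := f.mkContinuous 1 h

/-- the pairing -/
noncomputable def dcPhi (𝕜 : Type*) [RCLike 𝕜] {ι : Type*} (Y : ι → Type*)
    [∀ i, NormedAddCommGroup (Y i)] [∀ i, NormedSpace 𝕜 (Y i)] :
    lp (fun i => StrongDual 𝕜 (Y i)) 1 →L[𝕜] StrongDual 𝕜 (dcX 𝕜 Y) :=
  dcMk (dcX 𝕜 Y) (dcL 𝕜 Y) dcL_bd

theorem dcEq {V : Type*} [NormedAddCommGroup V] [NormedSpace 𝕜 V] [CompleteSpace V]
    {W : Type*} [NormedAddCommGroup W] [NormedSpace 𝕜 W]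
    (Φ : V →L[𝕜] StrongDual 𝕜 W) (h1 : ∀ y, Φ y = 0 → y = 0) (h2 : ∀ F, ∃ y, Φ y = F) :
    Nonempty (V ≃L[𝕜] StrongDual 𝕜 W) :=
  ⟨ContinuousLinearEquiv.ofBijective Φ (LinearMap.ker_eq_bot'.2 h1) (LinearMap.range_eq_top.2 h2)⟩

theorem dcEq2 {Z : Type*} [NormedAddCommGroup Z] [NormedSpace 𝕜 Z] (X : Submodule 𝕜 Z)
    (Φ : lp (fun i => StrongDual 𝕜 (Y i)) 1 →L[𝕜] StrongDual 𝕜 X)
    (h1 : ∀ y, Φ y = 0 → y = 0) (h2 : ∀ F, ∃ y, Φ y = F) :
    Nonempty (lp (fun i => StrongDual 𝕜 (Y i)) 1 ≃L[𝕜] StrongDual 𝕜 X) :=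
  dcEq Φ h1 h2

theorem dcPhi_apply (y : lp (fun i => StrongDual 𝕜 (Y i)) 1) (f : dcX 𝕜 Y) :
    dcPhi 𝕜 Y y f = ∑' i, y i ((f : lp Y ∞) i) := rfl

theorem dcPhi_single (y : lp (fun i => StrongDual 𝕜 (Y i)) 1) (i : ι) (v : Y i) :
    dcPhi 𝕜 Y y (dcS 𝕜 Y i v) = y i v := by
  rw [dcPhi_apply, tsum_eq_single i]
  · rw [dcS_same]
  · intro j hj
    rw [dcS_ne hj, map_zero]

end dc

theorem dual_c0.{u, v} (𝕜 : Type v) [RCLike 𝕜] {ι : Type u} (Y : ι → Type v)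
    [∀ i, NormedAddCommGroup (Y i)] [∀ i, NormedSpace 𝕜 (Y i)] :
    ∃ (X : Type (max u v)) (_ : NormedAddCommGroup X) (_ : NormedSpace 𝕜 X),
      Nonempty (lp (fun i => StrongDual 𝕜 (Y i)) 1 ≃L[𝕜] StrongDual 𝕜 X) := by
  refine ⟨dcX 𝕜 Y, inferInstance, inferInstance, ?_⟩
  refine dcEq2 (dcX 𝕜 Y) (dcPhi 𝕜 Y) ?_ ?_
  · intro y hy
    apply lp.ext
    funext i
    ext v
    have h1 := congrArg (fun T : StrongDual 𝕜 (dcX 𝕜 Y) => T (dcS 𝕜 Y i v)) hy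
    have h2 : dcPhi 𝕜 Y y (dcS 𝕜 Y i v) = 0 := h1
    rw [dcPhi_single] at h2
    rw [h2]
    rfl
  · intro F
    have hmem : Memℓp (fun i => (F.comp (dcS 𝕜 Y i) : StrongDual 𝕜 (Y i))) 1 := by
      refine memℓp_gen' (C := ‖F‖) fun s => ?_
      simpa using dc_bound F s
    refine ⟨⟨_, hmem⟩, ?_⟩
    ext f
    show ∑' i, (F.comp (dcS 𝕜 Y i)) ((f : lp Y ∞) i) = F f
    rw [tsum_eq_sum (s := (dcfin f).toFinset)]
    · conv_rhs => rw [dc_decomp f]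
      rw [map_sum]
      rfl
    · intro i hi
      rw [Set.Finite.mem_toFinset] at hi
      have : (f : lp Y ∞) i = 0 := by
        by_contra h
        exact hi h
      rw [this, map_zero]

end Pool.Agent.Helper318.L1S
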