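import Pool.Agent.Helper318.L1S.Defs

set_option autoImplicit false

open MeasureTheory Set Filter Topology

namespace Pool.Agent.Helper318.L1S



theorem exists_families_maxfam {Ω : Type*} [MeasurableSpace Ω] (μ : Measure Ω)
    (P : Set Ω → Prop) (S : Set (Set Ω)) (h1 : ∀ E ∈ S, P E)
    (h2 : ∀ E ∈ S, ∀ E' ∈ S, E ≠ E' → μ (E ∩ E') = 0) :
    ∃ F : Set (Set Ω), S ⊆ F ∧ (∀ E ∈ F, P E) ∧
      (∀ E ∈ F, ∀ E' ∈ F, E ≠ E' → μ (E ∩ E') = 0) ∧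
      ∀ D, P D → 0 < μ D → ∃ E ∈ F, 0 < μ (D ∩ E) := by
  obtain ⟨F, hSF, hF⟩ := zorn_subset_nonempty
    {F : Set (Set Ω) | (∀ E ∈ F, P E) ∧ ∀ E ∈ F, ∀ E' ∈ F, E ≠ E' → μ (E ∩ E') = 0}
    (by
      intro c hc hchain _
      refine ⟨⋃₀ c, ⟨?_, ?_⟩, fun s hs => Set.subset_sUnion_of_mem hs⟩
      · rintro E ⟨s, hs, hE⟩
        exact (hc hs).1 E hE
      · rintro E ⟨s, hs, hE⟩ E' ⟨s', hs', hE'⟩ hne
        rcases hchain.total hs hs' with h | h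
        · exact (hc hs').2 E (h hE) E' hE' hne
        · exact (hc hs).2 E hE E' (h hE') hne)
    S ⟨h1, h2⟩
  refine ⟨F, hSF, hF.prop.1, hF.prop.2, ?_⟩
  intro D hD hpos
  by_contra hcon
  push Not at hcon
  have hz : ∀ E ∈ F, μ (D ∩ E) = 0 := fun E hE => le_antisymm (hcon E hE) zero_le
  have hins : insert D F ∈ {F : Set (Set Ω) | (∀ E ∈ F, P E) ∧
      ∀ E ∈ F, ∀ E' ∈ F, E ≠ E' → μ (E ∩ E') = 0} := by
    refine ⟨?_, ?_⟩
    · rintro E (rfl | hE)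
      · exact hD
      · exact hF.prop.1 E hE
    · rintro E (rfl | hE) E' (rfl | hE') hne
      · exact absurd rfl hne
      · exact hz E' hE'
      · rw [Set.inter_comm]; exact hz E hE
      · exact hF.prop.2 E hE E' hE' hne
  have hsub : insert D F ⊆ F := hF.le_of_ge hins (Set.subset_insert D F)
  have hDF : D ∈ F := hsub (Set.mem_insert D F)
  have := hz D hDF
  rw [Set.inter_self] at this
  exact absurd this hpos.ne'

theorem exists_families_core {Ω : Type*} [MeasurableSpace Ω] (μ : Measure Ω)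
    (E𝓔 : Set (Set Ω)) (hE : ∀ E ∈ E𝓔, AtomlessPiece μ E)
    (hEd : ∀ E ∈ E𝓔, ∀ E' ∈ E𝓔, E ≠ E' → μ (E ∩ E') = 0)
    (hEm : ∀ D, AtomlessPiece μ D → ∃ E ∈ E𝓔, 0 < μ (D ∩ E)) :
    ∃ 𝓐 : Set (Set Ω), (∀ A ∈ 𝓐, IsAtomSet μ A ∧ μ A < ⊤) ∧
      FullFamily μ (E𝓔 ∪ 𝓐) ∧ Disjoint E𝓔 𝓐 := by
  obtain ⟨𝓐, _, hA, hAd, hAm⟩ := exists_families_maxfam μ
    (fun A => IsAtomSet μ A ∧ μ A < ⊤) ∅ (by simp) (by simp)
  have hcross : ∀ E ∈ E𝓔, ∀ A ∈ 𝓐, μ (E ∩ A) = 0 := by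
    intro E hEE A hAA
    by_contra hne
    have hpos : 0 < μ (E ∩ A) := pos_iff_ne_zero.mpr hne
    refine (hE E hEE).2.2.2 (E ∩ A) Set.inter_subset_left
      ⟨(hE E hEE).1.inter (hA A hAA).1.1, hpos, ?_⟩
    intro B hB hBm
    rcases (hA A hAA).1.2.2 B (hB.trans Set.inter_subset_right) hBm with h | h
    · exact Or.inl h
    · refine Or.inr (measure_mono_null ?_ h)
      exact Set.diff_subset_diff_left Set.inter_subset_right
  refine ⟨𝓐, hA, ⟨?_, ?_, ?_⟩, ?_⟩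
  · rintro X (hX | hX)
    · exact ⟨(hE X hX).1, (hE X hX).2.1, (hE X hX).2.2.1⟩
    · exact ⟨(hA X hX).1.1, (hA X hX).1.2.1, (hA X hX).2⟩
  · rintro X (hX | hX) Y (hY | hY) hne
    · exact hEd X hX Y hY hne
    · exact hcross X hX Y hY
    · rw [Set.inter_comm]; exact hcross Y hY X hX
    · exact hAd X hX Y hY hne
  · intro D hDm hDpos hDfin
    by_cases hat : ∃ A₀ ⊆ D, IsAtomSet μ A₀
    · obtain ⟨A₀, hA₀D, hA₀⟩ := hat
      obtain ⟨A, hAA, hpos⟩ := hAm A₀ ⟨hA₀, (measure_mono hA₀D).trans_lt hDfin⟩ hA₀.2.1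
      exact ⟨A, Or.inr hAA, hpos.trans_le (measure_mono (Set.inter_subset_inter_left A hA₀D))⟩
    · push Not at hat
      obtain ⟨E, hEE, hpos⟩ := hEm D ⟨hDm, hDpos, hDfin, hat⟩
      exact ⟨E, Or.inl hEE, hpos⟩
  · rw [Set.disjoint_left]
    intro X hX hX'
    exact (hE X hX).2.2.2 X (le_refl _) (hA X hX').1

theorem exists_families.{u} {Ω : Type u} [MeasurableSpace Ω] (μ : Measure Ω)
    (h : (∀ E, ¬ AtomlessPiece μ E) ∨ ∃ A : ℝ → Set Ω, (∀ r, AtomlessPiece μ (A r)) ∧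
      Pairwise fun r r' => μ (A r ∩ A r') = 0) :
    ∃ 𝓔 𝓐 : Set (Set Ω), (∀ E ∈ 𝓔, AtomlessPiece μ E) ∧
      (∀ A ∈ 𝓐, IsAtomSet μ A ∧ μ A < ⊤) ∧ FullFamily μ (𝓔 ∪ 𝓐) ∧ Disjoint 𝓔 𝓐 ∧
      (𝓔 = ∅ ∨ Cardinal.continuum.{u} ≤ Cardinal.mk 𝓔) := by

  rcases h with h | ⟨A, hA, hAd⟩
  · obtain ⟨𝓐, h1, h2, h3⟩ := exists_families_core μ ∅ (by simp) (by simp)
      (fun D hD => absurd hD (h D))
    exact ⟨∅, 𝓐, by simp, h1, h2, h3, Or.inl rfl⟩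
  · have hinj : Function.Injective A := by
      intro r r' he
      by_contra hne
      have h0 := hAd hne
      simp only [he, Set.inter_self] at h0
      exact absurd h0 (hA r').2.1.ne'
    obtain ⟨𝓔, hS, hE, hEd, hEm⟩ := exists_families_maxfam μ (AtomlessPiece μ) (Set.range A)
      (by rintro E ⟨r, rfl⟩; exact hA r)
      (by
        rintro E ⟨r, rfl⟩ E' ⟨r', rfl⟩ hne
        exact hAd (fun he => hne (by rw [he])))
    obtain ⟨𝓐, h1, h2, h3⟩ := exists_families_core μ 𝓔 hE hEd (fun D hD => hEm D hD hD.2.1)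
    refine ⟨𝓔, 𝓐, hE, h1, h2, h3, Or.inr ?_⟩
    have hinj' : Function.Injective (fun r : ℝ => (⟨A r, hS ⟨r, rfl⟩⟩ : 𝓔)) := by
      intro r r' he
      exact hinj (Subtype.ext_iff.mp he)
    have hc := Cardinal.lift_mk_le_lift_mk_of_injective hinj'
    rw [Cardinal.mk_real, Cardinal.lift_continuum, Cardinal.lift_uzero] at hc
    exact hc

end Pool.Agent.Helper318.L1S
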