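import Pool.Agent.Helper318.L1S.Defs

set_option autoImplicit false

open MeasureTheory Set Filter Topology

namespace Pool.Agent.Helper318.L1S



theorem full_sum {Ω : Type*} [MeasurableSpace Ω] {μ : Measure Ω}
    {𝓕 : Set (Set Ω)} (h𝓕 : FullFamily μ 𝓕) {V : Type*} [NormedAddCommGroup V] (f : Ω → V)
    (hf : Integrable f μ) :
    HasSum (fun E : 𝓕 => ∫ ω in E.1, ‖f ω‖ ∂μ) (∫ ω, ‖f ω‖ ∂μ) := by
  classical
  obtain ⟨hE, hdis, hmax⟩ := h𝓕
  set F : 𝓕 → ℝ := fun E => ∫ ω in E.1, ‖f ω‖ ∂μ with hF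
  have hF0 : ∀ E, 0 ≤ F E := fun E => integral_nonneg fun ω => norm_nonneg _
  have hbound : ∀ s : Finset 𝓕, ∑ E ∈ s, F E ≤ ∫ ω, ‖f ω‖ ∂μ := by
    intro s
    have h1 : HasSum (fun E : s => ∫ ω in (E.1.1 : Set Ω), ‖f ω‖ ∂μ)
        (∫ ω in ⋃ E : s, (E.1.1 : Set Ω), ‖f ω‖ ∂μ) := by
      apply hasSum_integral_iUnion_ae
      · intro E
        exact (hE E.1.1 E.1.2).1.nullMeasurableSet
      · intro E E' hne
        apply hdis E.1.1 E.1.2 E'.1.1 E'.1.2
        intro h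
        exact hne (Subtype.ext (Subtype.ext h))
      · exact hf.norm.integrableOn
    have h2 : ∑ E ∈ s, F E = ∫ ω in ⋃ E : s, (E.1.1 : Set Ω), ‖f ω‖ ∂μ := by
      rw [← h1.tsum_eq, tsum_fintype, ← Finset.sum_coe_sort]
    rw [h2]
    exact setIntegral_le_integral hf.norm (Filter.Eventually.of_forall fun ω => norm_nonneg _)
  have hsum : Summable F := summable_of_sum_le hF0 hbound
  have hcount : (Function.support F).Countable := hsum.countable_support
  have : Countable (Function.support F) := hcount.to_subtype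
  set U : Set Ω := ⋃ E : Function.support F, (E.1.1 : Set Ω) with hU
  have hUm : MeasurableSet U := MeasurableSet.iUnion fun E => (hE E.1.1 E.1.2).1
  set g := hf.1.mk f with hg
  have hgm : StronglyMeasurable g := hf.1.stronglyMeasurable_mk
  have hfg : f =ᵐ[μ] g := hf.1.ae_eq_mk
  have hgi : Integrable g μ := hf.congr hfg
  have hD : ∀ n : ℕ, μ ({ω | 1 / ((n : ℝ) + 1) < ‖g ω‖} \ U) = 0 := by
    intro n
    by_contra hne
    have hpos : 0 < μ ({ω | 1 / ((n : ℝ) + 1) < ‖g ω‖} \ U) := pos_iff_ne_zero.mpr hne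
    have hm : MeasurableSet {ω | 1 / ((n : ℝ) + 1) < ‖g ω‖} :=
      measurableSet_lt measurable_const hgm.norm.measurable
    have hfin : μ ({ω | 1 / ((n : ℝ) + 1) < ‖g ω‖} \ U) < ⊤ := by
      refine (measure_mono diff_subset).trans_lt ?_
      exact hgi.measure_norm_gt_lt_top (by positivity)
    obtain ⟨E, hEF, hpE⟩ := hmax _ (hm.diff hUm) hpos hfin
    by_cases h0 : F ⟨E, hEF⟩ = 0
    · have h1 : (fun ω => ‖f ω‖) =ᵐ[μ.restrict E] 0 := by
        rw [← integral_eq_zero_iff_of_nonneg (fun ω => norm_nonneg _) hf.norm.integrableOn]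
        exact h0
      have h2 : ∀ᵐ ω ∂(μ.restrict E), g ω = 0 := by
        filter_upwards [h1, ae_restrict_of_ae hfg] with ω h3 h4
        rw [← h4]
        exact norm_eq_zero.mp h3
      rw [ae_restrict_iff' (hE E hEF).1] at h2
      have h5 : μ (({ω | 1 / ((n : ℝ) + 1) < ‖g ω‖} \ U) ∩ E) = 0 := by
        refine measure_mono_null ?_ h2
        intro ω hω
        simp only [mem_compl_iff, mem_setOf_eq]
        intro hcon
        have h6 := hcon hω.2
        have h7 : 1 / ((n : ℝ) + 1) < ‖g ω‖ := hω.1.1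
        rw [h6, norm_zero] at h7
        have h8 : (0 : ℝ) < 1 / ((n : ℝ) + 1) := by positivity
        linarith
      exact hpE.ne' h5
    · have h1 : E ⊆ U := by
        intro ω hω
        rw [hU, mem_iUnion]
        exact ⟨⟨⟨E, hEF⟩, h0⟩, hω⟩
      have h2 : ({ω | 1 / ((n : ℝ) + 1) < ‖g ω‖} \ U) ∩ E = ∅ := by
        ext ω
        simp only [mem_inter_iff, mem_diff, mem_empty_iff_false, iff_false, not_and]
        intro h3 h4
        exact h3.2 (h1 h4)
      rw [h2, measure_empty] at hpE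
      exact lt_irrefl _ hpE
  have hzero : ∀ᵐ ω ∂μ, ω ∉ U → ‖f ω‖ = 0 := by
    have h1 : ∀ᵐ ω ∂μ, ∀ n : ℕ, ω ∉ ({ω | 1 / ((n : ℝ) + 1) < ‖g ω‖} \ U) := by
      rw [ae_all_iff]
      intro n
      exact measure_eq_zero_iff_ae_notMem.mp (hD n)
    filter_upwards [h1, hfg] with ω h2 h3 h4
    rw [h3]
    by_contra h5
    have h6 : 0 < ‖g ω‖ := lt_of_le_of_ne (norm_nonneg _) (Ne.symm h5)
    obtain ⟨n, hn⟩ := exists_nat_one_div_lt h6
    exact h2 n ⟨hn, h4⟩
  have hU2 : ∫ ω in U, ‖f ω‖ ∂μ = ∫ ω, ‖f ω‖ ∂μ :=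
    setIntegral_eq_integral_of_ae_compl_eq_zero hzero
  have hfinal : HasSum (fun E : Function.support F => ∫ ω in (E.1.1 : Set Ω), ‖f ω‖ ∂μ)
      (∫ ω in U, ‖f ω‖ ∂μ) := by
    apply hasSum_integral_iUnion_ae
    · intro E
      exact (hE E.1.1 E.1.2).1.nullMeasurableSet
    · intro E E' hne
      apply hdis E.1.1 E.1.2 E'.1.1 E'.1.2
      intro h
      exact hne (Subtype.ext (Subtype.ext h))
    · exact hf.norm.integrableOn
  rw [hU2] at hfinal
  exact hasSum_subtype_support.mp hfinal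

end Pool.Agent.Helper318.L1S
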