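import Pool.Agent.Helper318.L1S.Defs
import Pool.Agent.Helper318.L1S.P_full_sum

set_option autoImplicit false

open MeasureTheory Set Filter Topology

namespace Pool.Agent.Helper318.L1S



theorem norm_restr {𝕜 : Type*} [RCLike 𝕜] {Ω : Type*} [MeasurableSpace Ω] {μ : Measure Ω}
    (E : Set Ω) (f : Lp 𝕜 1 μ) :
    ‖LpToLpRestrictCLM Ω 𝕜 𝕜 μ 1 E f‖ = ∫ ω in E, ‖f ω‖ ∂μ := by
  rw [L1.norm_eq_integral_norm]
  refine integral_congr_ae ?_
  filter_upwards [LpToLpRestrictCLM_coeFn 𝕜 E f] with ω hω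
  rw [hω]

theorem iso_decomp {𝕜 : Type*} [RCLike 𝕜] {Ω : Type*} [MeasurableSpace Ω] {μ : Measure Ω}
    {𝓕 : Set (Set Ω)} (h𝓕 : FullFamily μ 𝓕) :
    Nonempty (Lp 𝕜 1 μ ≃ₗᵢ[𝕜] lp (fun E : 𝓕 => Lp 𝕜 1 (μ.restrict E.1)) 1) := by
  classical
  have hsum : ∀ f : Lp 𝕜 1 μ, HasSum (fun E : 𝓕 => ‖LpToLpRestrictCLM Ω 𝕜 𝕜 μ 1 E.1 f‖) ‖f‖ := by
    intro f
    have h := full_sum h𝓕 f (L1.integrable_coeFn f)
    rw [L1.norm_eq_integral_norm]
    simpa only [norm_restr] using h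
  have hmem : ∀ f : Lp 𝕜 1 μ, Memℓp (E := fun E : 𝓕 => Lp 𝕜 1 (μ.restrict E.1))
      (fun E : 𝓕 => LpToLpRestrictCLM Ω 𝕜 𝕜 μ 1 E.1 f) 1 := by
    intro f
    apply memℓp_gen
    simpa using (hsum f).summable
  let Φ : Lp 𝕜 1 μ →ₗᵢ[𝕜] lp (fun E : 𝓕 => Lp 𝕜 1 (μ.restrict E.1)) 1 :=
    { toFun := fun f => ⟨fun E : 𝓕 => LpToLpRestrictCLM Ω 𝕜 𝕜 μ 1 E.1 f, hmem f⟩
      map_add' := by
        intro f g
        apply Subtype.ext
        funext E
        exact map_add (LpToLpRestrictCLM Ω 𝕜 𝕜 μ 1 E.1) f g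
      map_smul' := by
        intro c f
        apply Subtype.ext
        funext E
        exact map_smul (LpToLpRestrictCLM Ω 𝕜 𝕜 μ 1 E.1) c f
      norm_map' := by
        intro f
        have h1 : (0:ℝ) < (1 : ENNReal).toReal := by simp
        have h2 := lp.norm_eq_tsum_rpow h1
          (⟨fun E : 𝓕 => LpToLpRestrictCLM Ω 𝕜 𝕜 μ 1 E.1 f, hmem f⟩ :
            lp (fun E : 𝓕 => Lp 𝕜 1 (μ.restrict E.1)) 1)
        simp only [ENNReal.toReal_one, Real.rpow_one, div_one] at h2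
        refine h2.trans ?_
        exact (hsum f).tsum_eq }
  have hΦ : ∀ f E, (Φ f : ∀ E : 𝓕, Lp 𝕜 1 (μ.restrict E.1)) E =
      LpToLpRestrictCLM Ω 𝕜 𝕜 μ 1 E.1 f := fun f E => rfl
  have hext : ∀ (E : 𝓕) (g : Lp 𝕜 1 (μ.restrict E.1)), ∃ f : Lp 𝕜 1 μ,
      Φ f = lp.single (E := fun E : 𝓕 => Lp 𝕜 1 (μ.restrict E.1)) 1 E g := by
    intro E g
    have hE : MeasurableSet E.1 := (h𝓕.1 E.1 E.2).1
    have hm : MemLp (indicator E.1 g) 1 μ :=
      (memLp_indicator_iff_restrict hE).mpr (Lp.memLp g)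
    refine ⟨hm.toLp _, ?_⟩
    apply Subtype.ext
    funext E'
    rw [hΦ, lp.single_apply]
    have hc : (hm.toLp _ : Ω → 𝕜) =ᵐ[μ] indicator E.1 g := hm.coeFn_toLp
    by_cases hEE : E' = E
    · subst hEE
      rw [Pi.single_eq_same]
      apply Lp.ext
      refine (LpToLpRestrictCLM_coeFn 𝕜 E'.1 _).trans ?_
      refine EventuallyEq.trans (ae_restrict_of_ae hc) ?_
      exact indicator_ae_eq_restrict hE
    · rw [Pi.single_eq_of_ne hEE]
      apply Lp.ext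
      refine (LpToLpRestrictCLM_coeFn 𝕜 E'.1 _).trans ?_
      refine EventuallyEq.trans (ae_restrict_of_ae hc) ?_
      refine EventuallyEq.trans ?_ (Lp.coeFn_zero _ _ _).symm
      have hne : E'.1 ≠ E.1 := fun h => hEE (Subtype.ext h)
      have h0 : μ (E'.1 ∩ E.1) = 0 := h𝓕.2.1 E'.1 E'.2 E.1 E.2 hne
      have h1 : (μ.restrict E'.1) E.1 = 0 := by
        rw [Measure.restrict_apply hE, inter_comm]; exact h0
      have h2 : ∀ᵐ ω ∂(μ.restrict E'.1), ω ∉ E.1 := by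
        rw [ae_iff]; simpa using h1
      filter_upwards [h2] with ω hω
      simp [hω]
  have hsurj : Function.Surjective Φ := by
    intro g
    have hcl : IsClosed (Set.range Φ) := Φ.isometry.isClosedEmbedding.isClosed_range
    have hsg := lp.hasSum_single (E := fun E : 𝓕 => Lp 𝕜 1 (μ.restrict E.1))
      (p := 1) (by simp) g
    have hmem2 : g ∈ Set.range Φ := by
      refine hcl.mem_of_tendsto hsg (Eventually.of_forall fun s => ?_)
      choose F hF using hext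
      refine ⟨∑ i ∈ s, F i (g i), ?_⟩
      rw [map_sum]
      exact Finset.sum_congr rfl fun i _ => hF i (g i)
    exact hmem2
  exact ⟨LinearIsometryEquiv.ofSurjective Φ hsurj⟩

end Pool.Agent.Helper318.L1S
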