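import Pool.Agent.Helper318.L1S.Defs

set_option autoImplicit false

open MeasureTheory Set Filter Topology

namespace Pool.Agent.Helper318.L1S



theorem iso_mem (𝕜 : Type*) [RCLike 𝕜] {ι : Type*} {V W : ι → Type*}
    [∀ i, NormedAddCommGroup (V i)] [∀ i, NormedSpace 𝕜 (V i)]
    [∀ i, NormedAddCommGroup (W i)] [∀ i, NormedSpace 𝕜 (W i)]
    (e : ∀ i, V i ≃ₗᵢ[𝕜] W i) (x : lp V 1) : Memℓp (fun i => e i (x i)) 1 := by
  refine memℓp_gen ?_
  have h := (lp.memℓp x).summable (by norm_num)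
  refine h.congr (fun i => ?_)
  rw [(e i).norm_map]

/-- coordinatewise linear isometry. -/
noncomputable def isoMap (𝕜 : Type*) [RCLike 𝕜] {ι : Type*} {V W : ι → Type*}
    [∀ i, NormedAddCommGroup (V i)] [∀ i, NormedSpace 𝕜 (V i)]
    [∀ i, NormedAddCommGroup (W i)] [∀ i, NormedSpace 𝕜 (W i)]
    (e : ∀ i, V i ≃ₗᵢ[𝕜] W i) : lp V 1 →ₗ[𝕜] lp W 1 where
  toFun x := ⟨fun i => e i (x i), iso_mem 𝕜 e x⟩
  map_add' x y := by
    apply lp.ext
    funext i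
    show e i ((x + y : lp V 1) i) = e i (x i) + e i (y i)
    rw [lp.coeFn_add, Pi.add_apply, map_add]
  map_smul' c x := by
    apply lp.ext
    funext i
    show e i ((c • x : lp V 1) i) = c • e i (x i)
    rw [lp.coeFn_smul, Pi.smul_apply, map_smul]

theorem isoMap_norm (𝕜 : Type*) [RCLike 𝕜] {ι : Type*} {V W : ι → Type*}
    [∀ i, NormedAddCommGroup (V i)] [∀ i, NormedSpace 𝕜 (V i)]
    [∀ i, NormedAddCommGroup (W i)] [∀ i, NormedSpace 𝕜 (W i)]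
    (e : ∀ i, V i ≃ₗᵢ[𝕜] W i) (x : lp V 1) : ‖isoMap 𝕜 e x‖ = ‖x‖ := by
  rw [lp.norm_eq_tsum_rpow (by norm_num), lp.norm_eq_tsum_rpow (by norm_num)]
  congr 1
  refine tsum_congr (fun i => ?_)
  show ‖e i (x i)‖ ^ _ = _
  rw [(e i).norm_map]

theorem iso_lp_congr (𝕜 : Type*) [RCLike 𝕜] {ι : Type*} (V W : ι → Type*)
    [∀ i, NormedAddCommGroup (V i)] [∀ i, NormedSpace 𝕜 (V i)]
    [∀ i, NormedAddCommGroup (W i)] [∀ i, NormedSpace 𝕜 (W i)]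
    (h : ∀ i, Nonempty (V i ≃ₗᵢ[𝕜] W i)) :
    Nonempty (lp V 1 ≃L[𝕜] lp W 1) := by
  have e : ∀ i, V i ≃ₗᵢ[𝕜] W i := fun i => (h i).some
  refine ⟨(LinearIsometryEquiv.mk (LinearEquiv.ofLinearMap (isoMap 𝕜 e)
    (isoMap 𝕜 (fun i => (e i).symm)) ?_ ?_) ?_).toContinuousLinearEquiv⟩
  · ext x i
    show e i ((e i).symm (x i)) = x i
    simp
  · ext x i
    show (e i).symm (e i (x i)) = x i
    simp
  · intro x
    exact isoMap_norm 𝕜 e x

end Pool.Agent.Helper318.L1S
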