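import Pool.Agent.Helper318.L1S.Defs

set_option autoImplicit false

open MeasureTheory Set Filter Topology

namespace Pool.Agent.Helper318.L1S



theorem ilr_mem {ι ι' : Type*} (e : ι ≃ ι') (V : ι' → Type*)
    [∀ i, NormedAddCommGroup (V i)] (f : ∀ i', V i') :
    Memℓp (fun i => f (e i)) 1 ↔ Memℓp f 1 := by
  rw [memℓp_gen_iff (by simp), memℓp_gen_iff (by simp)]
  exact e.summable_iff (f := fun i' => ‖f i'‖ ^ (1 : ENNReal).toReal)

theorem ilr_norm {ι ι' : Type*} (e : ι ≃ ι') (V : ι' → Type*)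
    [∀ i, NormedAddCommGroup (V i)] (f : lp V 1) (g : lp (fun i => V (e i)) 1)
    (h : ∀ i, g i = f (e i)) : ‖g‖ = ‖f‖ := by
  rw [lp.norm_eq_tsum_rpow (by simp), lp.norm_eq_tsum_rpow (by simp)]
  congr 1
  rw [← e.tsum_eq]
  exact tsum_congr fun i => by rw [h i]

theorem iso_lp_reindex (𝕜 : Type*) [RCLike 𝕜] {ι ι' : Type*} (e : ι ≃ ι') (V : ι' → Type*)
    [∀ i, NormedAddCommGroup (V i)] [∀ i, NormedSpace 𝕜 (V i)] :
    Nonempty (lp (fun i : ι => V (e i)) 1 ≃L[𝕜] lp V 1) := by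
  let L : lp V 1 →ₗ[𝕜] lp (fun i : ι => V (e i)) 1 :=
    { toFun := fun f => ⟨fun i => f (e i), (ilr_mem e V f).2 (lp.memℓp f)⟩
      map_add' := fun f g => by
        ext i
        rfl
      map_smul' := fun c f => by
        ext i
        rfl }
  let T : lp V 1 →ₗᵢ[𝕜] lp (fun i : ι => V (e i)) 1 :=
    { toLinearMap := L
      norm_map' := fun f => ilr_norm e V f (L f) (fun i => rfl) }
  have hs : Function.Surjective T := by
    intro g
    have hmem : Memℓp (fun i' => (Equiv.piCongrLeft V e) (fun i => g i) i') 1 := by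
      rw [← ilr_mem e V]
      simp only [Equiv.piCongrLeft_apply_apply]
      exact lp.memℓp g
    refine ⟨⟨_, hmem⟩, ?_⟩
    ext i
    change (Equiv.piCongrLeft V e) (fun i => g i) (e i) = g i
    rw [Equiv.piCongrLeft_apply_apply]
  exact ⟨(LinearIsometryEquiv.ofSurjective T hs).symm.toContinuousLinearEquiv⟩

end Pool.Agent.Helper318.L1S
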