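import Pool.Agent.Helper318.L1S.Defs

set_option autoImplicit false

open MeasureTheory Set Filter Topology

namespace Pool.Agent.Helper318.L1S



theorem ils_mem {ι : Type*} {V : ι → Type*} [∀ i, NormedAddCommGroup (V i)] (f : ∀ i, V i) :
    Memℓp f 1 ↔ Summable fun i => ‖f i‖ := by
  rw [memℓp_gen_iff (by simp)]
  simp

theorem ils_norm {ι : Type*} {V : ι → Type*} [∀ i, NormedAddCommGroup (V i)] (f : lp V 1) :
    ‖f‖ = ∑' i, ‖f i‖ := by
  rw [lp.norm_eq_tsum_rpow (by simp)]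
  simp

theorem ils_sum {ι ι' : Type*} (g : ι ⊕ ι' → ℝ) (h1 : Summable fun i => g (Sum.inl i))
    (h2 : Summable fun j => g (Sum.inr j)) :
    HasSum g ((∑' i, g (Sum.inl i)) + ∑' j, g (Sum.inr j)) :=
  HasSum.sum (f := g) h1.hasSum h2.hasSum

/-- gluing of two families -/
def ilsGlue {ι ι' : Type*} {V : ι ⊕ ι' → Type*} (g : ∀ i, V (Sum.inl i))
    (h : ∀ j, V (Sum.inr j)) : ∀ s, V s
  | Sum.inl i => g i
  | Sum.inr j => h j

theorem iso_lp_sum (𝕜 : Type*) [RCLike 𝕜] {ι ι' : Type*} (V : ι ⊕ ι' → Type*)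
    [∀ i, NormedAddCommGroup (V i)] [∀ i, NormedSpace 𝕜 (V i)] :
    Nonempty (lp V 1 ≃L[𝕜]
      lp (fun i : ι => V (Sum.inl i)) 1 × lp (fun j : ι' => V (Sum.inr j)) 1) := by
  have hm1 : ∀ f : lp V 1, Memℓp (fun i : ι => f (Sum.inl i)) 1 := by
    intro f
    have h := (ils_mem _).mp (lp.memℓp f)
    exact (ils_mem _).mpr (h.comp_injective Sum.inl_injective)
  have hm2 : ∀ f : lp V 1, Memℓp (fun j : ι' => f (Sum.inr j)) 1 := by
    intro f
    have h := (ils_mem _).mp (lp.memℓp f)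
    exact (ils_mem _).mpr (h.comp_injective Sum.inr_injective)
  have hm3 : ∀ (g : lp (fun i : ι => V (Sum.inl i)) 1) (h : lp (fun j : ι' => V (Sum.inr j)) 1),
      Memℓp (ilsGlue (V := V) (fun i => g i) (fun j => h j)) 1 := by
    intro g h
    rw [ils_mem]
    exact (ils_sum _ ((ils_mem _).mp (lp.memℓp g)) ((ils_mem _).mp (lp.memℓp h))).summable
  let e : lp V 1 ≃ₗ[𝕜]
      lp (fun i : ι => V (Sum.inl i)) 1 × lp (fun j : ι' => V (Sum.inr j)) 1 :=
    { toFun := fun f => (⟨fun i => f (Sum.inl i), hm1 f⟩, ⟨fun j => f (Sum.inr j), hm2 f⟩)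
      invFun := fun q => ⟨ilsGlue (V := V) (fun i => q.1 i) (fun j => q.2 j),
        hm3 q.1 q.2⟩
      map_add' := fun f g => rfl
      map_smul' := fun c f => rfl
      left_inv := by
        intro f
        apply lp.ext
        funext s
        cases s <;> rfl
      right_inv := by
        intro q
        apply Prod.ext
        · apply lp.ext; rfl
        · apply lp.ext; rfl }
  have hn : ∀ f : lp V 1, ‖f‖ = ‖(e f).1‖ + ‖(e f).2‖ := by
    intro f
    rw [ils_norm, ils_norm, ils_norm]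
    exact (ils_sum (fun s => ‖f s‖) ((ils_mem _).mp (hm1 f)) ((ils_mem _).mp (hm2 f))).tsum_eq
  refine ⟨e.toContinuousLinearEquivOfBounds 1 2 ?_ ?_⟩
  · intro f
    rw [one_mul, hn f, Prod.norm_def]
    exact max_le (by linarith [norm_nonneg (e f).2]) (by linarith [norm_nonneg (e f).1])
  · intro q
    rw [hn, e.apply_symm_apply, Prod.norm_def]
    linarith [le_max_left ‖q.1‖ ‖q.2‖, le_max_right ‖q.1‖ ‖q.2‖]

end Pool.Agent.Helper318.L1S
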