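import Pool.Agent.Helper318.L1S.Defs

set_option autoImplicit false

open MeasureTheory Set Filter Topology

namespace Pool.Agent.Helper318.L1S



/-- the sets of a countable π-system -/
def cyl168 (s : Finset ℕ) : Set Cant := {x | ∀ i ∈ s, x i = true}

theorem cyl168_pi : IsPiSystem (Set.range cyl168) := by
  rintro _ ⟨s, rfl⟩ _ ⟨t, rfl⟩ _
  refine ⟨s ∪ t, ?_⟩
  ext x
  simp only [cyl168, Set.mem_setOf_eq, Set.mem_inter_iff, Finset.mem_union]
  constructor
  · intro h
    exact ⟨fun i hi => h i (Or.inl hi), fun i hi => h i (Or.inr hi)⟩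
  · rintro ⟨h1, h2⟩ i (hi | hi)
    · exact h1 i hi
    · exact h2 i hi

theorem cyl168_meas (s : Finset ℕ) : MeasurableSet (cyl168 s) := by
  have : cyl168 s = ⋂ i ∈ s, (fun x : Cant => x i) ⁻¹' {true} := by
    ext x
    simp [cyl168]
  rw [this]
  exact Finset.measurableSet_biInter _ fun i _ =>
    (measurable_pi_apply i) (MeasurableSet.singleton true)

theorem cyl168_gen : (inferInstance : MeasurableSpace Cant) =
    MeasurableSpace.generateFrom (Set.range cyl168) := by
  apply le_antisymm
  · have h1 : ∀ i : ℕ, @Measurable Cant Bool (MeasurableSpace.generateFrom (Set.range cyl168)) _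
        (fun x => x i) := by
      intro i
      have h2 : MeasurableSet[MeasurableSpace.generateFrom (Set.range cyl168)] (cyl168 {i}) :=
        MeasurableSpace.measurableSet_generateFrom ⟨{i}, rfl⟩
      have h3 : cyl168 {i} = (fun x : Cant => x i) ⁻¹' {true} := by
        ext x
        simp [cyl168]
      rw [h3] at h2
      refine @measurable_to_bool Cant (MeasurableSpace.generateFrom (Set.range cyl168)) _ ?_
      exact h2
    refine iSup_le fun i => ?_
    exact (h1 i).comap_le
  · refine MeasurableSpace.generateFrom_le ?_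
    rintro _ ⟨s, rfl⟩
    exact cyl168_meas s

theorem card_meas (𝓜 : Set (Measure Cant)) (h : ∀ m ∈ 𝓜, IsProbabilityMeasure m) :
    Cardinal.mk 𝓜 ≤ Cardinal.continuum := by
  let Φ : 𝓜 → (Finset ℕ → ℝ) := fun m s => (m : Measure Cant).real (cyl168 s)
  have hΦ : Function.Injective Φ := by
    rintro ⟨m, hm⟩ ⟨m', hm'⟩ heq
    have i1 := h m hm
    have i2 := h m' hm'
    apply Subtype.ext
    show m = m'
    refine ext_of_generate_finite (Set.range cyl168) cyl168_gen cyl168_pi ?_ ?_
    · rintro _ ⟨s, rfl⟩
      have h1 : m.real (cyl168 s) = m'.real (cyl168 s) := congrFun heq s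
      rw [Measure.real, Measure.real] at h1
      exact (ENNReal.toReal_eq_toReal_iff' (measure_ne_top _ _) (measure_ne_top _ _)).1 h1
    · rw [measure_univ, measure_univ]
  have h1 := Cardinal.mk_le_of_injective hΦ
  refine h1.trans ?_
  rw [← Cardinal.power_def, Cardinal.mk_real, Cardinal.mk_eq_aleph0 (Finset ℕ),
    Cardinal.continuum_power_aleph0]

end Pool.Agent.Helper318.L1S
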