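import Pool.Agent.Helper318.L1S.Defs

set_option autoImplicit false

open MeasureTheory Set Filter Topology

namespace Pool.Agent.Helper318.L1S



theorem comp_op {𝕜 : Type*} [RCLike 𝕜] {Ω : Type*} [MeasurableSpace Ω] (ν : Measure Ω)
    [IsFiniteMeasure ν] (φ : Ω → Cant) (hφ : Measurable φ) :
    ∃ (S : Lp 𝕜 1 (ν.map φ) →L[𝕜] Lp 𝕜 1 ν) (R : Lp 𝕜 1 ν →L[𝕜] Lp 𝕜 1 (ν.map φ)),
      (∀ f, ‖S f‖ = ‖f‖) ∧ (∀ g, ‖R g‖ ≤ ‖g‖) ∧ (∀ f, R (S f) = f) ∧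
      ∀ f, (S f : Ω → 𝕜) =ᵐ[ν] fun ω => f (φ ω) := by
  have hφm : MeasurePreserving φ ν (ν.map φ) := hφ.measurePreserving ν
  have hmφ := comap_measurable (m := (inferInstance : MeasurableSpace Cant)) φ
  set S : Lp 𝕜 1 (ν.map φ) →ₗᵢ[𝕜] Lp 𝕜 1 ν := Lp.compMeasurePreservingₗᵢ 𝕜 φ hφm with hS
  have hSc : ∀ f : Lp 𝕜 1 (ν.map φ), (S f : Ω → 𝕜) =ᵐ[ν] (f : Cant → 𝕜) ∘ φ := fun f =>
    Lp.coeFn_compMeasurePreserving f hφm
  have hex : ∀ g : Lp 𝕜 1 ν, ∃ f : Lp 𝕜 1 (ν.map φ), (S f : Ω → 𝕜) =ᵐ[ν] ν[(g : Ω → 𝕜)|MeasurableSpace.comap φ inferInstance] := by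
    intro g
    obtain ⟨h, hh, he⟩ := (stronglyMeasurable_condExp (m := MeasurableSpace.comap φ inferInstance) (μ := ν)
      (f := (g : Ω → 𝕜))).exists_eq_measurable_comp
    have hi : Integrable h (ν.map φ) := by
      rw [integrable_map_measure hh.aestronglyMeasurable hφ.aemeasurable, ← he]
      exact integrable_condExp
    refine ⟨hi.toL1 h, ?_⟩
    rw [he]
    refine (hSc _).trans ?_
    exact hφm.quasiMeasurePreserving.ae_eq_comp hi.coeFn_toL1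
  choose R0 hR0 using hex
  have hinj : ∀ f f' : Lp 𝕜 1 (ν.map φ), (S f : Ω → 𝕜) =ᵐ[ν] (S f' : Ω → 𝕜) → f = f' :=
    fun f f' h => S.injective (Lp.ext h)
  have hadd : ∀ g g' : Lp 𝕜 1 ν, R0 (g + g') = R0 g + R0 g' := by
    intro g g'
    refine hinj _ _ ?_
    have h1 : ν[((g + g' : Lp 𝕜 1 ν) : Ω → 𝕜)|MeasurableSpace.comap φ inferInstance] =ᵐ[ν] ν[(g : Ω → 𝕜) + (g' : Ω → 𝕜)|MeasurableSpace.comap φ inferInstance] :=
      condExp_congr_ae (Lp.coeFn_add g g')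
    have h2 := condExp_add (L1.integrable_coeFn g) (L1.integrable_coeFn g')
      (MeasurableSpace.comap φ inferInstance)
    rw [map_add]
    exact (hR0 _).trans (h1.trans (h2.trans
      (((hR0 g).add (hR0 g')).symm.trans (Lp.coeFn_add _ _).symm)))
  have hsmul : ∀ (c : 𝕜) (g : Lp 𝕜 1 ν), R0 (c • g) = c • R0 g := by
    intro c g
    refine hinj _ _ ?_
    have h1 : ν[((c • g : Lp 𝕜 1 ν) : Ω → 𝕜)|MeasurableSpace.comap φ inferInstance] =ᵐ[ν] ν[c • (g : Ω → 𝕜)|MeasurableSpace.comap φ inferInstance] :=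
      condExp_congr_ae (Lp.coeFn_smul c g)
    have h2 := condExp_smul (μ := ν) c (g : Ω → 𝕜) (MeasurableSpace.comap φ inferInstance)
    rw [map_smul]
    exact (hR0 _).trans (h1.trans (h2.trans
      (((hR0 g).const_smul c).symm.trans (Lp.coeFn_smul _ _).symm)))
  have hnorm : ∀ g : Lp 𝕜 1 ν, ‖R0 g‖ ≤ ‖g‖ := by
    intro g
    rw [← S.norm_map (R0 g), L1.norm_eq_integral_norm, L1.norm_eq_integral_norm]
    calc ∫ a, ‖(S (R0 g) : Ω → 𝕜) a‖ ∂ν = ∫ a, ‖(ν[(g : Ω → 𝕜)|MeasurableSpace.comap φ inferInstance]) a‖ ∂ν := by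
          refine integral_congr_ae ?_
          filter_upwards [hR0 g] with a ha
          rw [ha]
      _ ≤ ∫ a, ‖(g : Ω → 𝕜) a‖ ∂ν := integral_norm_condExp_le _
  have hRS : ∀ f : Lp 𝕜 1 (ν.map φ), R0 (S f) = f := by
    intro f
    refine hinj _ _ ?_
    have h1 : ν[(S f : Ω → 𝕜)|MeasurableSpace.comap φ inferInstance] =ᵐ[ν] ν[(f : Cant → 𝕜) ∘ φ|MeasurableSpace.comap φ inferInstance] := condExp_congr_ae (hSc f)
    have h2 : ν[(f : Cant → 𝕜) ∘ φ|MeasurableSpace.comap φ inferInstance] = (f : Cant → 𝕜) ∘ φ := by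
      refine condExp_of_stronglyMeasurable hφ.comap_le ?_ ?_
      · exact (Lp.stronglyMeasurable f).comp_measurable hmφ
      · exact (L1.integrable_coeFn (S f)).congr (hSc f)
    rw [h2] at h1
    exact (hR0 _).trans (h1.trans (hSc f).symm)
  let Rl : Lp 𝕜 1 ν →ₗ[𝕜] Lp 𝕜 1 (ν.map φ) :=
    { toFun := R0
      map_add' := hadd
      map_smul' := hsmul }
  refine ⟨S.toContinuousLinearMap, Rl.mkContinuous 1 (fun g => by
    rw [one_mul]
    exact hnorm g), fun f => S.norm_map f, hnorm, hRS, fun f => hSc f⟩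

end Pool.Agent.Helper318.L1S
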