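import Pool.Agent.Helper318.L1S.Defs

set_option autoImplicit false

open MeasureTheory Set Filter Topology

namespace Pool.Agent.Helper318.L1S



theorem sierpinski_small {Ω : Type*} [MeasurableSpace Ω] {μ : Measure Ω} {E : Set Ω}
    (hE : AtomlessPiece μ E) {C : Set Ω} (hCE : C ⊆ E) (hC : MeasurableSet C) (hpos : 0 < μ C)
    {ε : ENNReal} (hε : ε ≠ 0) : ∃ D ⊆ C, MeasurableSet D ∧ 0 < μ D ∧ μ D < ε := by
  have hfin : ∀ {S : Set Ω}, S ⊆ E → μ S ≠ ⊤ := fun hS =>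
    ne_of_lt (lt_of_le_of_lt (measure_mono hS) hE.2.2.1)
  have key : ∀ n : ℕ, ∃ D ⊆ C, MeasurableSet D ∧ 0 < μ D ∧ 2 ^ n * μ D ≤ μ C := by
    intro n
    induction n with
    | zero => exact ⟨C, Subset.rfl, hC, hpos, by simp⟩
    | succ n ih =>
      obtain ⟨D, hD1, hD2, hD3, hD4⟩ := ih
      have hna := hE.2.2.2 D (hD1.trans hCE)
      have : ∃ B ⊆ D, MeasurableSet B ∧ μ B ≠ 0 ∧ μ (D \ B) ≠ 0 := by
        by_contra hcon
        push Not at hcon
        apply hna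
        refine ⟨hD2, hD3, fun B hB hBm => ?_⟩
        by_cases h0 : μ B = 0
        · exact Or.inl h0
        · exact Or.inr (hcon B hB hBm h0)
      obtain ⟨B, hB1, hB2, hB3, hB4⟩ := this
      have hsum : μ B + μ (D \ B) = μ D := by
        have := measure_inter_add_diff (μ := μ) D hB2
        rwa [inter_eq_self_of_subset_right hB1] at this
      rcases le_total (μ B) (μ (D \ B)) with h | h
      · refine ⟨B, hB1.trans hD1, hB2, pos_iff_ne_zero.mpr hB3, ?_⟩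
        calc 2 ^ (n + 1) * μ B = 2 ^ n * (μ B + μ B) := by ring
          _ ≤ 2 ^ n * (μ B + μ (D \ B)) := by gcongr
          _ = 2 ^ n * μ D := by rw [hsum]
          _ ≤ μ C := hD4
      · refine ⟨D \ B, diff_subset.trans hD1, hD2.diff hB2, pos_iff_ne_zero.mpr hB4, ?_⟩
        calc 2 ^ (n + 1) * μ (D \ B) = 2 ^ n * (μ (D \ B) + μ (D \ B)) := by ring
          _ ≤ 2 ^ n * (μ B + μ (D \ B)) := by gcongr
          _ = 2 ^ n * μ D := by rw [hsum]
          _ ≤ μ C := hD4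
  obtain ⟨n, hn⟩ := ENNReal.exists_nat_mul_gt hε (hfin hCE)
  obtain ⟨D, hD1, hD2, hD3, hD4⟩ := key n
  refine ⟨D, hD1, hD2, hD3, ?_⟩
  by_contra hcon
  push Not at hcon
  have h1 : (n : ENNReal) * ε ≤ 2 ^ n * μ D := by
    have : (n : ENNReal) ≤ 2 ^ n := by exact_mod_cast Nat.lt_two_pow_self.le
    gcongr
  exact absurd (lt_of_lt_of_le hn (h1.trans hD4)) (lt_irrefl _)

theorem sierpinski {Ω : Type*} [MeasurableSpace Ω] {μ : Measure Ω} {E : Set Ω}
    (hE : AtomlessPiece μ E) {A : Set Ω} (hAE : A ⊆ E) (hA : MeasurableSet A) {t : ENNReal}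
    (ht : t ≤ μ A) : ∃ B ⊆ A, MeasurableSet B ∧ μ B = t := by
  have hfin : ∀ {S : Set Ω}, S ⊆ E → μ S ≠ ⊤ := fun hS =>
    ne_of_lt (lt_of_le_of_lt (measure_mono hS) hE.2.2.1)
  have htop : t ≠ ⊤ := ne_of_lt (lt_of_le_of_lt ht (lt_top_iff_ne_top.mpr (hfin hAE)))
  let P : Set (Set Ω) := {B | B ⊆ A ∧ MeasurableSet B ∧ μ B ≤ t}
  have step : ∀ (B : P) (n : ℕ), ∃ B' : P, (B : Set Ω) ⊆ B' ∧
      ∀ C ∈ P, (B : Set Ω) ⊆ C → μ C ≤ μ (B' : Set Ω) + (n : ENNReal)⁻¹ := by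
    intro B n
    have hε : (n : ENNReal)⁻¹ ≠ 0 := ENNReal.inv_ne_zero.mpr (ENNReal.natCast_ne_top n)
    by_contra hcon
    push Not at hcon
    have hit : ∀ k : ℕ, ∃ B' : P, (B : Set Ω) ⊆ B' ∧ k * (n : ENNReal)⁻¹ ≤ μ (B' : Set Ω) := by
      intro k
      induction k with
      | zero => exact ⟨B, Subset.rfl, by simp⟩
      | succ k ih =>
        obtain ⟨B', h1, h2⟩ := ih
        obtain ⟨C, c1, c2, c3⟩ := hcon B' h1
        refine ⟨⟨C, c1⟩, c2, ?_⟩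
        push_cast
        calc ((k : ENNReal) + 1) * (n : ENNReal)⁻¹ = k * (n : ENNReal)⁻¹ + (n : ENNReal)⁻¹ := by ring
          _ ≤ μ (B' : Set Ω) + (n : ENNReal)⁻¹ := by gcongr
          _ ≤ μ C := c3.le
    obtain ⟨k, hk⟩ := ENNReal.exists_nat_mul_gt hε htop
    obtain ⟨B', -, h2⟩ := hit k
    exact absurd (lt_of_lt_of_le hk (h2.trans B'.2.2.2)) (lt_irrefl _)
  choose f hf1 hf2 using step
  have h0 : (∅ : Set Ω) ∈ P := ⟨empty_subset _, MeasurableSet.empty, by simp⟩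
  obtain ⟨s, hs⟩ : ∃ s : ℕ → P, ∀ n, s (n + 1) = f (s n) n :=
    ⟨fun n => Nat.rec (motive := fun _ => (P : Type _)) ⟨∅, h0⟩ (fun n B => f B n) n, fun n => rfl⟩
  have hmono : Monotone (fun n => (s n : Set Ω)) := by
    refine monotone_nat_of_le_succ fun n => ?_
    show (s n : Set Ω) ⊆ (s (n + 1) : Set Ω)
    rw [hs]
    exact hf1 (s n) n
  have hBA : (⋃ n, (s n : Set Ω)) ⊆ A := iUnion_subset fun n => (s n).2.1
  have hBm : MeasurableSet (⋃ n, (s n : Set Ω)) := MeasurableSet.iUnion fun n => (s n).2.2.1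
  have hBt : μ (⋃ n, (s n : Set Ω)) ≤ t := by
    rw [hmono.measure_iUnion]
    exact iSup_le fun n => (s n).2.2.2
  have hmax : ∀ C ∈ P, (⋃ n, (s n : Set Ω)) ⊆ C → μ C ≤ μ (⋃ n, (s n : Set Ω)) := by
    intro C hC hBC
    refine ENNReal.le_of_forall_pos_le_add fun ε hε _ => ?_
    obtain ⟨n, hn⟩ := ENNReal.exists_inv_nat_lt (a := (ε : ENNReal)) (by exact_mod_cast hε.ne')
    calc μ C ≤ μ (f (s n) n : Set Ω) + (n : ENNReal)⁻¹ :=
          hf2 (s n) n C hC ((subset_iUnion (fun n => (s n : Set Ω)) n).trans hBC)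
      _ ≤ μ (⋃ n, (s n : Set Ω)) + ε := by
        have : (f (s n) n : Set Ω) ⊆ ⋃ n, (s n : Set Ω) := by
          rw [← hs]
          exact subset_iUnion (fun n => (s n : Set Ω)) (n + 1)
        exact add_le_add (measure_mono this) hn.le
  refine ⟨⋃ n, (s n : Set Ω), hBA, hBm, ?_⟩
  by_contra hne
  have hlt : μ (⋃ n, (s n : Set Ω)) < t := lt_of_le_of_ne hBt hne
  have hsum : μ (⋃ n, (s n : Set Ω)) + μ (A \ ⋃ n, (s n : Set Ω)) = μ A := by
    have := measure_inter_add_diff (μ := μ) A hBm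
    rwa [inter_eq_self_of_subset_right hBA] at this
  have hpos : 0 < μ (A \ ⋃ n, (s n : Set Ω)) := by
    rw [pos_iff_ne_zero]
    intro h
    rw [h, add_zero] at hsum
    exact absurd (hlt.trans_le ht) (by rw [hsum]; exact lt_irrefl _)
  obtain ⟨D, hD1, hD2, hD3, hD4⟩ := sierpinski_small hE (diff_subset.trans hAE) (hA.diff hBm) hpos
    (tsub_pos_of_lt hlt).ne'
  have hdisj : Disjoint (⋃ n, (s n : Set Ω)) D :=
    disjoint_left.mpr fun x hx hxD => (hD1 hxD).2 hx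
  have hU : μ ((⋃ n, (s n : Set Ω)) ∪ D) = μ (⋃ n, (s n : Set Ω)) + μ D := measure_union hdisj hD2
  have hUP : ((⋃ n, (s n : Set Ω)) ∪ D) ∈ P := by
    refine ⟨union_subset hBA (hD1.trans diff_subset), hBm.union hD2, ?_⟩
    rw [hU]
    calc μ (⋃ n, (s n : Set Ω)) + μ D ≤ μ (⋃ n, (s n : Set Ω)) + (t - μ (⋃ n, (s n : Set Ω))) := by
          gcongr
      _ = t := add_tsub_cancel_of_le hBt
  have h1 := hmax _ hUP subset_union_left
  rw [hU] at h1
  have h2 : μ D ≤ 0 := by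
    have h3 : μ (⋃ n, (s n : Set Ω)) + μ D ≤ μ (⋃ n, (s n : Set Ω)) + 0 := by rwa [add_zero]
    exact (ENNReal.add_le_add_iff_left (hfin (hBA.trans hAE))).mp h3
  exact absurd h2 (not_le.mpr hD3)

end Pool.Agent.Helper318.L1S
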