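import Pool.Agent.Helper318.L1S.Defs
import Pool.Agent.Helper318.L1S.P_sierpinski

set_option autoImplicit false

open MeasureTheory Set Filter Topology

namespace Pool.Agent.Helper318.L1S



/-- cells of a sequence of sets -/
def cyl_tree_cell {Ω : Type*} (E : Set Ω) (A : ℕ → Set Ω) (n : ℕ) (s : ℕ → Bool) : Set Ω :=
  E ∩ {ω | ∀ k < n, (ω ∈ A k ↔ s k = true)}

/-- the first `n` sets of the sequence are good -/
def cyl_tree_good {Ω : Type*} [MeasurableSpace Ω] (μ : Measure Ω) (E : Set Ω) (m : Measure Cant)
    (n : ℕ) (A : ℕ → Set Ω) : Prop :=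
  (∀ k < n, MeasurableSet (A k)) ∧
    ∀ s : ℕ → Bool, μ (cyl_tree_cell E A n s) = μ E * m {x | ∀ k < n, x k = s k}

theorem cyl_tree_meas {Ω : Type*} [MeasurableSpace Ω] {E : Set Ω} (hE : MeasurableSet E)
    {A : ℕ → Set Ω} {n : ℕ} (hA : ∀ k < n, MeasurableSet (A k)) (s : ℕ → Bool) :
    MeasurableSet (cyl_tree_cell E A n s) := by
  refine hE.inter ?_
  have h : {ω | ∀ k < n, (ω ∈ A k ↔ s k = true)} = ⋂ k, ⋂ (_ : k < n), {ω | ω ∈ A k ↔ s k = true} := by
    ext ω
    simp
  rw [h]
  refine MeasurableSet.iInter fun k => MeasurableSet.iInter fun hk => ?_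
  cases hs : s k with
  | true =>
    have : {ω | ω ∈ A k ↔ true = true} = A k := by ext ω; simp
    rw [this]
    exact hA k hk
  | false =>
    have : {ω | ω ∈ A k ↔ false = true} = (A k)ᶜ := by ext ω; simp
    rw [this]
    exact (hA k hk).compl

theorem cyl_tree_step {Ω : Type*} [MeasurableSpace Ω] {μ : Measure Ω} {E : Set Ω}
    (hE : AtomlessPiece μ E) (m : Measure Cant) [IsProbabilityMeasure m] (n : ℕ) (A : ℕ → Set Ω)
    (hA : cyl_tree_good μ E m n A) :
    ∃ B : Set Ω, cyl_tree_good μ E m (n + 1) (Function.update A n B) := by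
  classical
  obtain ⟨hAm, hAs⟩ := hA
  let hat : (Fin n → Bool) → ℕ → Bool := fun s k => if h : k < n then s ⟨k, h⟩ else false
  let T : Set Cant := {x | x n = true}
  have hTm : Measurable (fun x : Cant => x n) := measurable_pi_apply n
  have hT : MeasurableSet T := hTm (measurableSet_singleton true)
  have hex : ∀ s : Fin n → Bool, ∃ Q ⊆ cyl_tree_cell E A n (hat s), MeasurableSet Q ∧
      μ Q = μ E * m ({x | ∀ k < n, x k = hat s k} ∩ T) := by
    intro s
    refine sierpinski (A := cyl_tree_cell E A n (hat s)) hE Set.inter_subset_left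
      (cyl_tree_meas hE.1 hAm _) ?_
    rw [hAs]
    gcongr
    exact Set.inter_subset_left
  choose Q hQc hQm hQ using hex
  let B : Set Ω := ⋃ s, Q s
  have hB : MeasurableSet B := MeasurableSet.iUnion fun s => hQm s
  have hcellB : ∀ s : ℕ → Bool, cyl_tree_cell E A n s ∩ B = Q (fun k => s k) := by
    intro s
    ext ω
    constructor
    · rintro ⟨h1, h2⟩
      obtain ⟨s', hs'⟩ := Set.mem_iUnion.1 h2
      have h3 := hQc s' hs'
      have h4 : s' = fun k : Fin n => s k := by
        funext k
        have h5 := h1.2 k k.2
        have h6 := h3.2 k k.2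
        have h7 : hat s' k = s' k := by simp [hat]
        rw [h7] at h6
        have h8 : s k = true ↔ s' k = true := h5.symm.trans h6
        cases h9 : s k <;> cases h10 : s' k <;> simp_all
      rw [← h4]
      exact hs'
    · intro h1
      have h2 := hQc _ h1
      refine ⟨⟨h2.1, fun k hk => ?_⟩, Set.mem_iUnion.2 ⟨_, h1⟩⟩
      have h3 := h2.2 k hk
      simpa [hat, hk] using h3
  have hhat : ∀ s : ℕ → Bool, {x : Cant | ∀ k < n, x k = hat (fun k => s k) k}
      = {x : Cant | ∀ k < n, x k = s k} := by
    intro s
    ext x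
    constructor
    · intro h k hk
      have := h k hk
      simpa [hat, hk] using this
    · intro h k hk
      have := h k hk
      simpa [hat, hk] using this
  have h1 : ∀ s : ℕ → Bool, μ (cyl_tree_cell E A n s ∩ B)
      = μ E * m ({x | ∀ k < n, x k = s k} ∩ T) := by
    intro s
    rw [hcellB, hQ, hhat]
  have h2 : ∀ s : ℕ → Bool, μ (cyl_tree_cell E A n s \ B)
      = μ E * m ({x | ∀ k < n, x k = s k} \ T) := by
    intro s
    have e1 := measure_inter_add_sdiff (μ := μ) (cyl_tree_cell E A n s) hB
    have e2 := measure_inter_add_sdiff (μ := m) {x | ∀ k < n, x k = s k} hT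
    rw [hAs, ← e2, mul_add, h1] at e1
    refine (ENNReal.add_right_inj ?_).1 e1
    exact ENNReal.mul_ne_top hE.2.2.1.ne (measure_ne_top _ _)
  refine ⟨B, ?_, ?_⟩
  · intro k hk
    by_cases hkn : k = n
    · subst hkn
      simpa using hB
    · rw [Function.update_of_ne hkn]
      exact hAm k (by omega)
  · intro s
    have hup : ∀ k < n, Function.update A n B k = A k := fun k hk =>
      Function.update_of_ne (by omega) _ _
    cases hs : s n with
    | true =>
      have e1 : cyl_tree_cell E (Function.update A n B) (n + 1) s = cyl_tree_cell E A n s ∩ B := by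
        ext ω
        constructor
        · rintro ⟨hω, h⟩
          refine ⟨⟨hω, fun k hk => ?_⟩, ?_⟩
          · have := h k (by omega)
            rwa [hup k hk] at this
          · have := h n (by omega)
            rw [Function.update_self, hs] at this
            exact this.2 rfl
        · rintro ⟨⟨hω, h⟩, hωB⟩
          refine ⟨hω, fun k hk => ?_⟩
          by_cases hkn : k = n
          · subst hkn
            rw [Function.update_self, hs]
            simp [hωB]
          · rw [hup k (by omega)]
            exact h k (by omega)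
      have e2 : {x : Cant | ∀ k < n + 1, x k = s k} = {x | ∀ k < n, x k = s k} ∩ T := by
        ext x
        constructor
        · intro h
          exact ⟨fun k hk => h k (by omega), (h n (by omega)).trans hs⟩
        · rintro ⟨h, hx⟩ k hk
          by_cases hkn : k = n
          · subst hkn
            rw [hs]; exact hx
          · exact h k (by omega)
      rw [e1, e2, h1]
    | false =>
      have e1 : cyl_tree_cell E (Function.update A n B) (n + 1) s = cyl_tree_cell E A n s \ B := by
        ext ω
        constructor
        · rintro ⟨hω, h⟩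
          refine ⟨⟨hω, fun k hk => ?_⟩, ?_⟩
          · have := h k (by omega)
            rwa [hup k hk] at this
          · have := h n (by omega)
            rw [Function.update_self, hs] at this
            intro hB'
            exact absurd (this.1 hB') (by simp)
        · rintro ⟨⟨hω, h⟩, hωB⟩
          refine ⟨hω, fun k hk => ?_⟩
          by_cases hkn : k = n
          · subst hkn
            rw [Function.update_self, hs]
            simp [hωB]
          · rw [hup k (by omega)]
            exact h k (by omega)
      have e2 : {x : Cant | ∀ k < n + 1, x k = s k} = {x | ∀ k < n, x k = s k} \ T := by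
        ext x
        constructor
        · intro h
          refine ⟨fun k hk => h k (by omega), fun hx => ?_⟩
          have h3 := (h n (by omega)).trans hs
          have h4 : x n = true := hx
          rw [h3] at h4
          exact absurd h4 (by simp)
        · rintro ⟨h, hx⟩ k hk
          by_cases hkn : k = n
          · subst hkn
            rw [hs]
            have h4 : ¬ x k = true := hx
            simpa using h4
          · exact h k (by omega)
      rw [e1, e2, h2]

theorem cyl_tree {Ω : Type*} [MeasurableSpace Ω] {μ : Measure Ω} {E : Set Ω}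
    (hE : AtomlessPiece μ E) (m : Measure Cant) [IsProbabilityMeasure m] :
    ∃ A : ℕ → Set Ω, (∀ n, MeasurableSet (A n)) ∧
      ∀ (n : ℕ) (s : ℕ → Bool), μ (E ∩ {ω | ∀ k < n, (ω ∈ A k ↔ s k = true)}) =
        μ E * m {x | ∀ k < n, x k = s k} := by
  classical
  have h0 : cyl_tree_good μ E m 0 (fun _ => ∅) := by
    refine ⟨fun k hk => absurd hk (Nat.not_lt_zero k), fun s => ?_⟩
    have e1 : cyl_tree_cell E (fun _ => (∅ : Set Ω)) 0 s = E := by
      ext ω
      simp [cyl_tree_cell]
    have e2 : {x : Cant | ∀ k < 0, x k = s k} = Set.univ := by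
      ext x
      simp
    rw [e1, e2, measure_univ, mul_one]
  let F : (n : ℕ) → {A : ℕ → Set Ω // cyl_tree_good μ E m n A} := fun n =>
    Nat.rec ⟨fun _ => ∅, h0⟩ (fun n A => ⟨Function.update A.1 n
      (Classical.choose (cyl_tree_step hE m n A.1 A.2)),
      Classical.choose_spec (cyl_tree_step hE m n A.1 A.2)⟩) n
  have hF : ∀ n, (F (n + 1)).1 = Function.update (F n).1 n
      (Classical.choose (cyl_tree_step hE m n (F n).1 (F n).2)) := fun n => rfl
  let A : ℕ → Set Ω := fun n => (F (n + 1)).1 n
  have hA : ∀ k n, k < n → (F n).1 k = A k := by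
    intro k n hkn
    induction n, hkn using Nat.le_induction with
    | base => rfl
    | succ n hn ih =>
      rw [hF, Function.update_of_ne (by omega), ih]
  refine ⟨A, fun n => (F (n + 1)).2.1 n (by omega), fun n s => ?_⟩
  have h1 := (F n).2.2 s
  have h2 : cyl_tree_cell E (F n).1 n s = E ∩ {ω | ∀ k < n, (ω ∈ A k ↔ s k = true)} := by
    ext ω
    constructor
    · rintro ⟨hω, h⟩
      refine ⟨hω, fun k hk => ?_⟩
      have := h k hk
      rwa [hA k n hk] at this
    · rintro ⟨hω, h⟩
      refine ⟨hω, fun k hk => ?_⟩
      rw [hA k n hk]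
      exact h k hk
  rw [← h2]
  exact h1
end Pool.Agent.Helper318.L1S
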