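import Pool.Agent.Helper318.L1S.Defs
import Pool.Agent.Helper318.L1S.P_cyl_tree

set_option autoImplicit false

open MeasureTheory Set Filter Topology

namespace Pool.Agent.Helper318.L1S



theorem cyl_measurable_aux (n : ℕ) (s : ℕ → Bool) :
    MeasurableSet {x : Cant | ∀ k < n, x k = s k} := by
  have h1 : {x : Cant | ∀ k < n, x k = s k} = ⋂ k : ℕ, {x : Cant | k < n → x k = s k} := by
    ext x
    simp
  rw [h1]
  refine MeasurableSet.iInter fun k => ?_
  by_cases hk : k < n
  · have h2 : {x : Cant | k < n → x k = s k} = (fun x : Cant => x k) ⁻¹' {s k} := by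
      ext x
      simp [hk]
    rw [h2]
    exact (measurable_pi_apply k) (MeasurableSet.singleton _)
  · have h2 : {x : Cant | k < n → x k = s k} = univ := by
      ext x
      simp [hk]
    rw [h2]
    exact MeasurableSet.univ

theorem cyl_gen_aux : (inferInstance : MeasurableSpace Cant) = MeasurableSpace.generateFrom
    {c : Set Cant | ∃ (n : ℕ) (s : ℕ → Bool), c = {x : Cant | ∀ k < n, x k = s k}} := by
  apply le_antisymm
  · show MeasurableSpace.pi ≤ _
    rw [MeasurableSpace.pi]
    refine iSup_le fun a => ?_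
    rintro u ⟨t, -, rfl⟩
    have h1 : (fun x : Cant => x a) ⁻¹' t = ⋃ S : {S : Finset ℕ // decide (a ∈ S) ∈ t},
        {x : Cant | ∀ k < a + 1, x k = decide (k ∈ S.1)} := by
      ext x
      simp only [mem_preimage, mem_iUnion, mem_setOf_eq, Subtype.exists, exists_prop]
      constructor
      · intro hx
        refine ⟨(Finset.range (a + 1)).filter (fun k => x k = true), ?_, ?_⟩
        · simpa using hx
        · intro k hk
          have : k ≤ a := by omega
          cases h : x k <;> simp [h, this]
      · rintro ⟨S, hS, hx⟩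
        rw [hx a (by omega)]
        exact hS
    rw [show (fun b : Cant => b a) ⁻¹' t = _ from h1]
    refine MeasurableSet.iUnion fun S => ?_
    exact MeasurableSpace.measurableSet_generateFrom ⟨a + 1, fun k => decide (k ∈ S.1), rfl⟩
  · apply MeasurableSpace.generateFrom_le
    rintro c ⟨n, s, rfl⟩
    exact cyl_measurable_aux n s

theorem cyl_pi_aux : IsPiSystem
    {c : Set Cant | ∃ (n : ℕ) (s : ℕ → Bool), c = {x : Cant | ∀ k < n, x k = s k}} := by
  rintro c ⟨n, s, rfl⟩ d ⟨n', s', rfl⟩ ⟨y, hy, hy'⟩
  refine ⟨max n n', y, ?_⟩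
  ext x
  simp only [mem_inter_iff, mem_setOf_eq] at hy hy' ⊢
  constructor
  · rintro ⟨h1, h2⟩ k hk
    rcases lt_max_iff.1 hk with h | h
    · rw [h1 k h, hy k h]
    · rw [h2 k h, hy' k h]
  · intro h
    refine ⟨fun k hk => ?_, fun k hk => ?_⟩
    · rw [h k (lt_max_of_lt_left hk), hy k hk]
    · rw [h k (lt_max_of_lt_right hk), hy' k hk]

theorem exists_phi_meas {Ω : Type*} [MeasurableSpace Ω] {μ : Measure Ω} {E : Set Ω}
    (hE : AtomlessPiece μ E) (m : Measure Cant) [IsProbabilityMeasure m] :
    ∃ φ : Ω → Cant, Measurable φ ∧ (μ.restrict E).map φ = μ E • m := by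
  obtain ⟨A, hA, hcyl⟩ := cyl_tree hE m
  classical
  have hEfin : μ E ≠ ⊤ := hE.2.2.1.ne
  set φ : Ω → Cant := fun ω n => decide (ω ∈ A n) with hφ
  have hφm : Measurable φ := by
    rw [measurable_pi_iff]
    intro n
    apply measurable_to_bool
    have h1 : (fun x => φ x n) ⁻¹' {true} = A n := by
      ext ω
      simp [hφ]
    rw [h1]
    exact hA n
  refine ⟨φ, hφm, ?_⟩
  have hfin : IsFiniteMeasure ((μ.restrict E).map φ) := by
    constructor
    rw [Measure.map_apply hφm MeasurableSet.univ]
    simp only [preimage_univ, Measure.restrict_apply_univ]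
    exact hE.2.2.1
  have key : ∀ (n : ℕ) (s : ℕ → Bool), ((μ.restrict E).map φ) {x | ∀ k < n, x k = s k} =
      (μ E • m) {x | ∀ k < n, x k = s k} := by
    intro n s
    have hms : MeasurableSet {x : Cant | ∀ k < n, x k = s k} := cyl_measurable_aux n s
    rw [Measure.map_apply hφm hms, Measure.restrict_apply (hφm hms), Measure.smul_apply,
      smul_eq_mul, ← hcyl n s, inter_comm]
    congr 1
    ext ω
    simp only [mem_inter_iff, mem_preimage, mem_setOf_eq, and_congr_right_iff]
    intro _
    refine forall_congr' fun k => forall_congr' fun _ => ?_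
    show (decide (ω ∈ A k) = s k) ↔ (ω ∈ A k ↔ s k = true)
    by_cases hk : ω ∈ A k
    · cases h : s k <;> simp [hk]
    · cases h : s k <;> simp [hk]
  refine MeasureTheory.ext_of_generate_finite
    {c : Set Cant | ∃ (n : ℕ) (s : ℕ → Bool), c = {x : Cant | ∀ k < n, x k = s k}}
    cyl_gen_aux cyl_pi_aux ?_ ?_
  · rintro c ⟨n, s, rfl⟩
    exact key n s
  · have h0 := key 0 (fun _ => false)
    have h1 : {x : Cant | ∀ k < 0, x k = (fun _ : ℕ => false) k} = univ := by
      ext x
      simp
    rw [h1] at h0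
    exact h0

end Pool.Agent.Helper318.L1S
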