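import Pool.Agent.Helper318.L1S.Defs

set_option autoImplicit false

open MeasureTheory Set Filter Topology

namespace Pool.Agent.Helper318.L1S



theorem scale_iso {𝕜 : Type*} [RCLike 𝕜] {Ω : Type*} [MeasurableSpace Ω] (μ : Measure Ω)
    {c : ENNReal} (hc : c ≠ 0) (hc' : c ≠ ⊤) :
    Nonempty (Lp 𝕜 1 μ ≃ₗᵢ[𝕜] Lp 𝕜 1 (c • μ)) := by
  have hae : ∀ {p : Ω → Prop}, (∀ᵐ x ∂μ, p x) → ∀ᵐ x ∂(c • μ), p x := fun h =>
    (Measure.ae_ennreal_smul_measure_iff hc).2 h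
  have hae' : ∀ {p : Ω → Prop}, (∀ᵐ x ∂(c • μ), p x) → ∀ᵐ x ∂μ, p x := fun h =>
    (Measure.ae_ennreal_smul_measure_iff hc).1 h
  have hm : ∀ f : Lp 𝕜 1 μ, MemLp (f : Ω → 𝕜) 1 (c • μ) := fun f =>
    (Lp.memLp f).smul_measure hc'
  have hc0 : 0 < c.toReal := ENNReal.toReal_pos hc hc'
  set k : 𝕜 := (((c.toReal)⁻¹ : ℝ) : 𝕜) with hk
  have hk0 : k ≠ 0 := by
    rw [hk]
    exact_mod_cast (inv_ne_zero hc0.ne')
  have hkn : ‖k‖ = (c.toReal)⁻¹ := by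
    rw [hk, RCLike.norm_ofReal, abs_of_pos (inv_pos.2 hc0)]
  let F : Lp 𝕜 1 μ →ₗᵢ[𝕜] Lp 𝕜 1 (c • μ) :=
    { toFun := fun f => k • (hm f).toLp f
      map_add' := by
        intro f g
        rw [← smul_add, ← MemLp.toLp_add]
        congr 1
        exact MemLp.toLp_congr _ _ (hae (Lp.coeFn_add f g))
      map_smul' := by
        intro r f
        have e : (hm (r • f)).toLp (r • f : Lp 𝕜 1 μ) = r • (hm f).toLp f := by
          rw [← MemLp.toLp_const_smul]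
          exact MemLp.toLp_congr _ _ (hae (Lp.coeFn_smul r f))
        rw [RingHom.id_apply, e, smul_comm]
      norm_map' := by
        intro f
        show ‖k • (hm f).toLp f‖ = ‖f‖
        rw [norm_smul, Lp.norm_toLp, eLpNorm_one_smul_measure, ENNReal.toReal_mul, hkn,
          ← mul_assoc, inv_mul_cancel₀ hc0.ne', one_mul]
        rfl }
  refine ⟨LinearIsometryEquiv.ofSurjective F fun g => ?_⟩
  have hg : MemLp (g : Ω → 𝕜) 1 μ := by
    have h1 := (Lp.memLp g).smul_measure (c := c⁻¹) (ENNReal.inv_ne_top.2 hc)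
    rwa [smul_smul, ENNReal.inv_mul_cancel hc hc', one_smul] at h1
  refine ⟨k⁻¹ • hg.toLp g, ?_⟩
  rw [map_smul]
  show k⁻¹ • (k • (hm (hg.toLp g)).toLp (hg.toLp g)) = g
  rw [smul_smul, inv_mul_cancel₀ hk0, one_smul]
  refine Eq.trans (MemLp.toLp_congr _ (Lp.memLp g) (hae hg.coeFn_toLp)) ?_
  exact Lp.toLp_coeFn g _

end Pool.Agent.Helper318.L1S
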