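import Pool.Agent.Helper318.L1S.Defs
import Pool.Agent.Helper318.L1S.P_comp_op
import Pool.Agent.Helper318.L1S.P_exists_phi_meas
import Pool.Agent.Helper318.L1S.P_scale_iso

set_option autoImplicit false

open MeasureTheory Set Filter Topology

namespace Pool.Agent.Helper318.L1S



theorem compl_in_piece {𝕜 : Type*} [RCLike 𝕜] {Ω : Type*} [MeasurableSpace Ω] {μ : Measure Ω}
    {E : Set Ω} (hE : AtomlessPiece μ E) (m : Measure Cant) [IsProbabilityMeasure m] :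
    Compl1 𝕜 (Lp 𝕜 1 m) (Lp 𝕜 1 (μ.restrict E)) := by
  obtain ⟨φ, hφ, hm⟩ := exists_phi_meas hE m
  have hfin : IsFiniteMeasure (μ.restrict E) :=
    ⟨by rw [Measure.restrict_apply_univ]; exact hE.2.2.1⟩
  obtain ⟨S, R, hS, hR, hRS, -⟩ := comp_op (𝕜 := 𝕜) (μ.restrict E) φ hφ
  obtain ⟨e⟩ := scale_iso (𝕜 := 𝕜) m (c := μ E) hE.2.1.ne' hE.2.2.1.ne
  rw [← hm] at e
  refine ⟨S.comp (e.toContinuousLinearEquiv : Lp 𝕜 1 m →L[𝕜] _),
    (e.symm.toContinuousLinearEquiv : _ →L[𝕜] Lp 𝕜 1 m).comp R, ?_, ?_, ?_⟩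
  · intro v
    have : ‖S (e v)‖ = ‖v‖ := by rw [hS, e.norm_map]
    exact this.le
  · intro w
    have : ‖e.symm (R w)‖ = ‖R w‖ := e.symm.norm_map _
    exact this.le.trans (hR w)
  · intro v
    show e.symm (R (S (e v))) = v
    rw [hRS, e.symm_apply_apply]

end Pool.Agent.Helper318.L1S
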