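import Pool.Agent.Helper318.L1S.Defs

set_option autoImplicit false

open MeasureTheory Set Filter Topology

namespace Pool.Agent.Helper318.L1S



theorem lp1_summable {ι : Type*} {V : ι → Type*} [∀ i, NormedAddCommGroup (V i)] (f : lp V 1) :
    Summable (fun i => ‖f i‖) := by
  have h := (memℓp_gen_iff (p := 1) (by norm_num)).mp (lp.memℓp f)
  simpa using h

theorem lp1_norm {ι : Type*} {V : ι → Type*} [∀ i, NormedAddCommGroup (V i)] (f : lp V 1) :
    ‖f‖ = ∑' i, ‖f i‖ := by
  have h := lp.norm_eq_tsum_rpow (p := 1) (by norm_num) f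
  simpa using h

theorem lp1_mem {ι : Type*} {V : ι → Type*} [∀ i, NormedAddCommGroup (V i)] {f : ∀ i, V i}
    (h : Summable (fun i => ‖f i‖)) : Memℓp f 1 := by
  rw [memℓp_gen_iff (by norm_num)]
  simpa using h

open Classical in
/-- extension by zero along an injection -/
noncomputable def dext {ι ι' : Type*} (β : ι → ι') {W : ι' → Type*} [∀ i, NormedAddCommGroup (W i)]
    (x : ∀ i, W (β i)) : ∀ j, W j :=
  fun j => if hj : ∃ i, β i = j then hj.choose_spec ▸ x hj.choose else 0

theorem dext_apply {ι ι' : Type*} {β : ι → ι'} (hβ : Function.Injective β) {W : ι' → Type*}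
    [∀ i, NormedAddCommGroup (W i)] (x : ∀ i, W (β i)) (i : ι) : dext β x (β i) = x i := by
  have key : ∀ (i' : ι) (e : β i' = β i), (e ▸ x i' : W (β i)) = x i := by
    intro i' e
    have h := hβ e
    subst h
    rfl
  have hj : ∃ i', β i' = β i := ⟨i, rfl⟩
  unfold dext
  rw [dif_pos hj]
  exact key _ _

theorem dext_off {ι ι' : Type*} {β : ι → ι'} {W : ι' → Type*}
    [∀ i, NormedAddCommGroup (W i)] (x : ∀ i, W (β i)) {j : ι'} (hj : ¬ ∃ i, β i = j) :
    dext β x j = 0 := by
  unfold dext
  rw [dif_neg hj]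

theorem dext_summable {ι ι' : Type*} {β : ι → ι'} (hβ : Function.Injective β) {W : ι' → Type*}
    [∀ i, NormedAddCommGroup (W i)] {x : ∀ i, W (β i)} (hx : Summable fun i => ‖x i‖) :
    Summable (fun j => ‖dext β x j‖) ∧ ∑' j, ‖dext β x j‖ = ∑' i, ‖x i‖ := by
  have h0 : ∀ j ∉ Set.range β, ‖dext β x j‖ = 0 := by
    intro j hj
    rw [dext_off x (fun ⟨i, hi⟩ => hj ⟨i, hi⟩), norm_zero]
  have h1 : (fun j => ‖dext β x j‖) ∘ β = fun i => ‖x i‖ := by
    funext i
    simp only [Function.comp_apply]
    rw [dext_apply hβ]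
  constructor
  · rw [← hβ.summable_iff h0, h1]
    exact hx
  · have h2 : Function.support (fun j => ‖dext β x j‖) ⊆ Set.range β := by
      intro j hj
      by_contra hc
      exact hj (h0 j hc)
    rw [← hβ.tsum_eq h2]
    exact tsum_congr fun i => congrFun h1 i

theorem compl_lp (𝕜 : Type*) [RCLike 𝕜] {ι ι' : Type*} (β : ι → ι') (hβ : Function.Injective β)
    (V : ι → Type*) (W : ι' → Type*)
    [∀ i, NormedAddCommGroup (V i)] [∀ i, NormedSpace 𝕜 (V i)]
    [∀ i, NormedAddCommGroup (W i)] [∀ i, NormedSpace 𝕜 (W i)]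
    (h : ∀ i, Compl1 𝕜 (V i) (W (β i))) : Compl 𝕜 (lp V 1) (lp W 1) := by
  choose S R hS hR hRS using h
  have hSsum : ∀ f : lp V 1, Summable (fun i => ‖S i (f i)‖) := fun f =>
    Summable.of_nonneg_of_le (fun _ => norm_nonneg _) (fun i => hS i (f i)) (lp1_summable f)
  have hRsum : ∀ g : lp W 1, Summable (fun i => ‖R i (g (β i))‖) := fun g =>
    Summable.of_nonneg_of_le (fun _ => norm_nonneg _) (fun i => hR i (g (β i)))
      ((lp1_summable g).comp_injective hβ)
  let TL : lp V 1 →ₗ[𝕜] lp W 1 :=
    { toFun := fun f => ⟨dext β (fun i => S i (f i)), lp1_mem (dext_summable hβ (hSsum f)).1⟩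
      map_add' := by
        intro f g
        apply lp.ext
        funext j
        show dext β (fun i => S i ((f + g : lp V 1) i)) j =
          dext β (fun i => S i (f i)) j + dext β (fun i => S i (g i)) j
        by_cases hj : ∃ i, β i = j
        · obtain ⟨i, rfl⟩ := hj
          rw [dext_apply hβ, dext_apply hβ, dext_apply hβ]
          show S i (f i + g i) = _
          rw [map_add]
        · rw [dext_off _ hj, dext_off _ hj, dext_off _ hj, add_zero]
      map_smul' := by
        intro c f
        apply lp.ext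
        funext j
        show dext β (fun i => S i ((c • f : lp V 1) i)) j = c • dext β (fun i => S i (f i)) j
        by_cases hj : ∃ i, β i = j
        · obtain ⟨i, rfl⟩ := hj
          rw [dext_apply hβ, dext_apply hβ]
          show S i (c • f i) = _
          rw [map_smul]
        · rw [dext_off _ hj, dext_off _ hj, smul_zero] }
  let RL : lp W 1 →ₗ[𝕜] lp V 1 :=
    { toFun := fun g => ⟨fun i => R i (g (β i)), lp1_mem (hRsum g)⟩
      map_add' := by
        intro f g
        apply lp.ext
        funext i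
        show R i ((f + g : lp W 1) (β i)) = R i (f (β i)) + R i (g (β i))
        show R i (f (β i) + g (β i)) = _
        rw [map_add]
      map_smul' := by
        intro c f
        apply lp.ext
        funext i
        show R i ((c • f : lp W 1) (β i)) = c • R i (f (β i))
        show R i (c • f (β i)) = _
        rw [map_smul] }
  refine ⟨TL.mkContinuous 1 ?_, RL.mkContinuous 1 ?_, ?_⟩
  · intro f
    rw [one_mul, lp1_norm, lp1_norm]
    show ∑' j, ‖dext β (fun i => S i (f i)) j‖ ≤ _
    rw [(dext_summable hβ (hSsum f)).2]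
    exact Summable.tsum_le_tsum (fun i => hS i (f i)) (hSsum f) (lp1_summable f)
  · intro g
    rw [one_mul, lp1_norm, lp1_norm]
    show ∑' i, ‖R i (g (β i))‖ ≤ _
    exact Summable.tsum_le_tsum_of_inj β hβ (fun _ _ => norm_nonneg _)
      (fun i => hR i (g (β i))) (hRsum g) (lp1_summable g)
  · intro f
    apply lp.ext
    funext i
    show R i (dext β (fun i => S i (f i)) (β i)) = f i
    rw [dext_apply hβ, hRS]

end Pool.Agent.Helper318.L1S
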