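import Pool.Agent.Helper318.L1S.Defs

set_option autoImplicit false

open MeasureTheory Set Filter Topology

namespace Pool.Agent.Helper318.L1S



theorem mem1_iff {ι : Type*} {E : ι → Type*} [∀ i, NormedAddCommGroup (E i)] (h : ∀ i, E i) :
    Memℓp h 1 ↔ Summable (fun i => ‖h i‖) := by
  rw [memℓp_gen_iff (by simp)]
  simp

theorem norm1_eq {ι : Type*} {E : ι → Type*} [∀ i, NormedAddCommGroup (E i)] (h : lp E 1) :
    ‖h‖ = ∑' i, ‖h i‖ := by
  rw [lp.norm_eq_tsum_rpow (by simp)]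
  simp

theorem iso_lp_sigma (𝕜 : Type*) [RCLike 𝕜] {ι : Type*} {J : ι → Type*}
    (V : (i : ι) → J i → Type*) [∀ i j, NormedAddCommGroup (V i j)]
    [∀ i j, NormedSpace 𝕜 (V i j)] :
    Nonempty (lp (fun i => lp (V i) 1) 1 ≃L[𝕜] lp (fun p : (i : ι) × J i => V p.1 p.2) 1) := by
  have hA : ∀ f : lp (fun i => lp (V i) 1) 1,
      Summable (fun p : (i : ι) × J i => ‖(f p.1 : ∀ j, V p.1 j) p.2‖) := by
    intro f
    rw [summable_sigma_of_nonneg (fun p => norm_nonneg _)]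
    refine ⟨fun i => (mem1_iff _).1 (f i).2, ?_⟩
    have h := (mem1_iff _).1 f.2
    refine h.congr fun i => ?_
    exact norm1_eq (f i)
  have hB : ∀ g : lp (fun p : (i : ι) × J i => V p.1 p.2) 1,
      (∀ i, Summable (fun j => ‖g ⟨i, j⟩‖)) ∧ Summable (fun i => ∑' j, ‖g ⟨i, j⟩‖) := by
    intro g
    have h := (mem1_iff _).1 g.2
    rw [summable_sigma_of_nonneg (fun p => norm_nonneg _)] at h
    exact h
  let A : lp (fun i => lp (V i) 1) 1 → lp (fun p : (i : ι) × J i => V p.1 p.2) 1 :=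
    fun f => ⟨fun p => (f p.1 : ∀ j, V p.1 j) p.2, (mem1_iff _).2 (hA f)⟩
  let B0 : (g : lp (fun p : (i : ι) × J i => V p.1 p.2) 1) → (i : ι) → lp (V i) 1 :=
    fun g i => ⟨fun j => g ⟨i, j⟩, (mem1_iff _).2 ((hB g).1 i)⟩
  have hB0 : ∀ g, Memℓp (B0 g) 1 := by
    intro g
    rw [mem1_iff]
    refine (hB g).2.congr fun i => ?_
    exact (norm1_eq (B0 g i)).symm
  let B : lp (fun p : (i : ι) × J i => V p.1 p.2) 1 → lp (fun i => lp (V i) 1) 1 :=
    fun g => ⟨B0 g, hB0 g⟩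
  let L : lp (fun i => lp (V i) 1) 1 ≃ₗ[𝕜] lp (fun p : (i : ι) × J i => V p.1 p.2) 1 :=
    { toFun := A
      invFun := B
      map_add' := fun f g => rfl
      map_smul' := fun c f => rfl
      left_inv := fun f => rfl
      right_inv := fun g => rfl }
  have hn : ∀ f, ‖L f‖ = ‖f‖ := by
    intro f
    show ‖A f‖ = ‖f‖
    rw [norm1_eq (A f), norm1_eq f]
    show ∑' p : (i : ι) × J i, ‖(f p.1 : ∀ j, V p.1 j) p.2‖ = _
    rw [(hA f).tsum_sigma]
    refine tsum_congr fun i => ?_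
    exact (norm1_eq (f i)).symm
  let LI : lp (fun i => lp (V i) 1) 1 ≃ₗᵢ[𝕜] lp (fun p : (i : ι) × J i => V p.1 p.2) 1 :=
    { toLinearEquiv := L
      norm_map' := hn }
  exact ⟨LI.toContinuousLinearEquiv⟩

end Pool.Agent.Helper318.L1S
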