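import Pool.Agent.Helper318.L1S.Defs
import Pool.Agent.Helper318.L1S.P_iso_lp_sigma
import Pool.Agent.Helper318.L1S.P_iso_lp_reindex

set_option autoImplicit false

open MeasureTheory Set Filter Topology

namespace Pool.Agent.Helper318.L1S



theorem dual_self_sum {𝕜 : Type*} [RCLike 𝕜] {ι : Type*} (hι : Infinite ι) (V : Type*)
    [NormedAddCommGroup V] [NormedSpace 𝕜 V] :
    Nonempty (lp (fun _ : ι => V) 1 ≃L[𝕜] lp (fun _ : ℕ => lp (fun _ : ι => V) 1) 1) := by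
  have h1 : Cardinal.mk ι = Cardinal.mk (ℕ × ι) := by
    rw [Cardinal.mk_prod]
    simp only [Cardinal.mk_eq_aleph0, Cardinal.lift_aleph0, Cardinal.lift_uzero]
    rw [Cardinal.aleph0_mul_eq (Cardinal.aleph0_le_mk ι)]
  obtain ⟨e0⟩ := Cardinal.eq.1 h1
  let e : ι ≃ (Σ _ : ℕ, ι) := e0.trans (Equiv.sigmaEquivProd ℕ ι).symm
  obtain ⟨f⟩ := iso_lp_reindex 𝕜 e (fun _ => V)
  obtain ⟨g⟩ := iso_lp_sigma 𝕜 (J := fun _ : ℕ => ι) (fun _ _ => V)
  exact ⟨f.trans g.symm⟩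

end Pool.Agent.Helper318.L1S
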