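import Pool.Agent.Helper318.L1S.Defs

set_option autoImplicit false

open MeasureTheory Set Filter Topology

namespace Pool.Agent.Helper318.L1S



theorem exists_maxsing (m : Measure Cant) [IsProbabilityMeasure m] :
    ∃ 𝓜 : Set (Measure Cant), MaxSing 𝓜 ∧ m ∈ 𝓜 := by
  classical
  let S : Set (Set (Measure Cant)) := {𝓜 | (∀ m ∈ 𝓜, IsProbabilityMeasure m) ∧
    (∀ m ∈ 𝓜, ∀ m' ∈ 𝓜, m ≠ m' → m ⟂ₘ m')}
  have hx : ({m} : Set (Measure Cant)) ∈ S := by
    refine ⟨?_, ?_⟩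
    · intro m1 hm1
      rw [mem_singleton_iff] at hm1
      subst hm1
      infer_instance
    · intro m1 hm1 m2 hm2 hne
      rw [mem_singleton_iff] at hm1 hm2
      exact absurd (hm1.trans hm2.symm) hne
  obtain ⟨𝓜, hsub, hmax⟩ := zorn_subset_nonempty S (by
    intro c hcS hc hne
    refine ⟨⋃₀ c, ⟨?_, ?_⟩, fun s hs => subset_sUnion_of_mem hs⟩
    · rintro m1 ⟨s, hs, hm1⟩
      exact (hcS hs).1 m1 hm1
    · rintro m1 ⟨s, hs, hm1⟩ m2 ⟨t, ht, hm2⟩ hne'
      rcases hc.total hs ht with h | h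
      · exact (hcS ht).2 m1 (h hm1) m2 hm2 hne'
      · exact (hcS hs).2 m1 hm1 m2 (h hm2) hne') {m} hx
  refine ⟨𝓜, ⟨hmax.prop.1, hmax.prop.2, ?_⟩, hsub (mem_singleton m)⟩
  intro m0 hfin hne
  by_contra hcon
  push Not at hcon
  haveI : NeZero m0 := ⟨hne⟩
  set m1 : Measure Cant := (m0 univ)⁻¹ • m0 with hm1
  haveI hp : IsProbabilityMeasure m1 := by
    rw [hm1]; infer_instance
  have hs : ∀ m' ∈ 𝓜, m1 ⟂ₘ m' := fun m' hm' => (hcon m' hm').smul _
  have hnot : m1 ∉ 𝓜 := by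
    intro h
    have h1 := hs m1 h
    rw [Measure.MutuallySingular.self_iff] at h1
    exact (IsProbabilityMeasure.ne_zero m1) h1
  have hins : insert m1 𝓜 ∈ S := by
    refine ⟨?_, ?_⟩
    · intro m2 hm2
      rcases mem_insert_iff.1 hm2 with h | h
      · rw [h]; exact hp
      · exact hmax.prop.1 m2 h
    · intro m2 hm2 m3 hm3 hne'
      rcases mem_insert_iff.1 hm2 with h | h <;> rcases mem_insert_iff.1 hm3 with h' | h'
      · exact absurd (h.trans h'.symm) hne'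
      · rw [h]; exact hs m3 h'
      · rw [h']; exact (hs m2 h).symm
      · exact hmax.prop.2 m2 h m3 h' hne'
  exact hnot (hmax.le_of_ge hins (subset_insert _ _) (mem_insert _ _))

end Pool.Agent.Helper318.L1S
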