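import Pool.Agent.Helper318.L1S.Defs

set_option autoImplicit false

open MeasureTheory Set Filter Topology

namespace Pool.Agent.Helper318.L1S



theorem norm_J_retract {𝕜 : Type*} [RCLike 𝕜] (z : 𝕜) :
    ‖((max 1 ‖z‖)⁻¹ : ℝ) • z‖ ≤ 1 ∧ ∀ w : 𝕜, ‖w‖ ≤ 1 →
      ‖w - ((max 1 ‖z‖)⁻¹ : ℝ) • z‖ ≤ 2 * ‖w - z‖ := by
  have h1 : (0 : ℝ) < max 1 ‖z‖ := lt_of_lt_of_le one_pos (le_max_left _ _)
  constructor
  · rw [norm_smul, norm_inv, Real.norm_of_nonneg h1.le, inv_mul_le_iff₀ h1, mul_one]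
    exact le_max_right _ _
  · intro w hw
    by_cases hz : ‖z‖ ≤ 1
    · rw [max_eq_left hz, inv_one, one_smul]
      linarith [norm_nonneg (w - z)]
    · push Not at hz
      rw [max_eq_right hz.le]
      have h0 : 0 < ‖z‖ := by linarith
      have h2 : ‖z - (‖z‖⁻¹ : ℝ) • z‖ = ‖z‖ - 1 := by
        have h3 : z - (‖z‖⁻¹ : ℝ) • z = ((1 : ℝ) - ‖z‖⁻¹) • z := by
          rw [sub_smul, one_smul]
        rw [h3, norm_smul, Real.norm_of_nonneg (by
          rw [sub_nonneg]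
          exact inv_le_one_of_one_le₀ hz.le), sub_mul, one_mul, inv_mul_cancel₀ h0.ne']
      have h4 : ‖w - (‖z‖⁻¹ : ℝ) • z‖ ≤ ‖w - z‖ + ‖z - (‖z‖⁻¹ : ℝ) • z‖ := by
        have := norm_add_le (w - z) (z - (‖z‖⁻¹ : ℝ) • z)
        rwa [sub_add_sub_cancel] at this
      have h5 : ‖z‖ - ‖w‖ ≤ ‖w - z‖ := by
        rw [norm_sub_rev]
        exact norm_sub_norm_le z w
      rw [h2] at h4
      linarith

theorem norm_J {𝕜 : Type*} [RCLike 𝕜] (m : Measure Cant) [IsFiniteMeasure m] (h : Cant → 𝕜)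
    (hh : Integrable h m) (C : ℝ) (hC : ∀ f : C(Cant, 𝕜), ‖∫ x, f x * h x ∂m‖ ≤ C * ‖f‖) :
    ∫ x, ‖h x‖ ∂m ≤ C := by
  -- C ≥ 0
  have hC0 : 0 ≤ C := by
    have h1 := hC 1
    have h2 : ‖(1 : C(Cant, 𝕜))‖ = 1 := norm_one
    rw [h2, mul_one] at h1
    exact (norm_nonneg _).trans h1
  obtain ⟨ν, hν⟩ : ∃ ν : Measure Cant, ν = m.withDensity (fun x => (‖h x‖₊ : ENNReal)) := ⟨_, rfl⟩
  have hνfin : IsFiniteMeasure ν := by
    rw [hν]
    apply isFiniteMeasure_withDensity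
    exact ne_of_lt hh.2
  have hν_int : ∀ F : Cant → ℝ, ∫ x, F x ∂ν = ∫ x, ‖h x‖ * F x ∂m := by
    intro F
    rw [hν, integral_withDensity_eq_integral_smul₀ hh.1.aemeasurable.nnnorm]
    rfl
  obtain ⟨u, hu⟩ : ∃ u : Cant → 𝕜, u = fun x => (‖h x‖⁻¹ : ℝ) • star (h x) := ⟨_, rfl⟩
  have hum : AEStronglyMeasurable u m := by
    rw [hu]
    have h1 : AEStronglyMeasurable (fun x => (‖h x‖⁻¹ : ℝ)) m :=
      (hh.1.norm.aemeasurable.inv).aestronglyMeasurable
    exact h1.smul hh.1.star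
  have hub : ∀ x, ‖u x‖ ≤ 1 := by
    intro x
    rw [hu]
    beta_reduce
    rw [norm_smul, norm_inv, norm_norm, norm_star]
    exact inv_mul_le_one
  have huh : ∀ x, u x * h x = ((‖h x‖ : ℝ) : 𝕜) := by
    intro x
    rw [hu]
    beta_reduce
    rw [smul_mul_assoc, RCLike.star_def, RCLike.conj_mul, RCLike.real_smul_eq_coe_mul]
    by_cases h0 : ‖h x‖ = 0
    · rw [h0]; simp
    · rw [pow_two, ← mul_assoc, ← RCLike.ofReal_mul, inv_mul_cancel₀ h0, RCLike.ofReal_one, one_mul]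
  have huν : Integrable u ν := by
    refine Integrable.of_bound (C := 1) ?_ (Eventually.of_forall hub)
    rw [hν]
    exact hum.mono_ac (withDensity_absolutelyContinuous _ _)
  refine le_of_forall_pos_le_add ?_
  intro ε hε
  obtain ⟨g, hg1, hg2⟩ := huν.exists_boundedContinuous_integral_sub_le (half_pos hε)
  -- truncation
  obtain ⟨f, hf⟩ : ∃ f : C(Cant, 𝕜), ∀ x, f x = ((max 1 ‖g x‖)⁻¹ : ℝ) • g x := by
    refine ⟨⟨fun x => ((max 1 ‖g x‖)⁻¹ : ℝ) • g x, ?_⟩, fun x => rfl⟩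
    refine Continuous.smul (Continuous.inv₀ (continuous_const.max g.continuous.norm) ?_) g.continuous
    intro x
    exact (lt_of_lt_of_le one_pos (le_max_left _ _)).ne'
  have hf1 : ‖f‖ ≤ 1 := by
    rw [ContinuousMap.norm_le f zero_le_one]
    intro x
    rw [hf x]
    exact (norm_J_retract (g x)).1
  have hf2 : ∀ x, ‖u x - f x‖ ≤ 2 * ‖u x - g x‖ := by
    intro x
    rw [hf x]
    exact (norm_J_retract (g x)).2 (u x) (hub x)
  have hfh : Integrable (fun x => f x * h x) m := by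
    refine hh.bdd_mul (c := 1) f.continuous.aestronglyMeasurable (Eventually.of_forall ?_)
    intro x
    exact (ContinuousMap.norm_coe_le_norm f x).trans hf1
  have huhi : Integrable (fun x => u x * h x) m := by
    refine hh.bdd_mul (c := 1) hum (Eventually.of_forall hub)
  have hsub : ∫ x, u x * h x ∂m = ∫ x, f x * h x ∂m + ∫ x, (u x - f x) * h x ∂m := by
    have h1 : (fun x => (u x - f x) * h x) = fun x => u x * h x - f x * h x := by
      funext x; rw [sub_mul]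
    rw [h1, integral_sub huhi hfh]
    ring
  have hmain : ∫ x, u x * h x ∂m = (((∫ x, ‖h x‖ ∂m : ℝ)) : 𝕜) := by
    simp_rw [huh]
    exact integral_ofReal
  have h3 : ‖∫ x, (u x - f x) * h x ∂m‖ ≤ ε := by
    have h4 : ‖∫ x, (u x - f x) * h x ∂m‖ ≤ ∫ x, ‖h x‖ * ‖u x - f x‖ ∂m := by
      refine (norm_integral_le_integral_norm _).trans (le_of_eq ?_)
      refine integral_congr_ae (Eventually.of_forall ?_)
      intro x
      beta_reduce
      rw [norm_mul, mul_comm]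
    have h5 : ∫ x, ‖h x‖ * ‖u x - f x‖ ∂m = ∫ x, ‖u x - f x‖ ∂ν := (hν_int _).symm
    have hfν : Integrable (fun x => f x) ν := by
      refine Integrable.of_bound (C := 1) f.continuous.aestronglyMeasurable (Eventually.of_forall ?_)
      intro x
      exact (ContinuousMap.norm_coe_le_norm f x).trans hf1
    have h6 : ∫ x, ‖u x - f x‖ ∂ν ≤ ∫ x, 2 * ‖u x - g x‖ ∂ν := by
      refine integral_mono (huν.sub hfν).norm ((huν.sub hg2).norm.const_mul 2) ?_
      intro x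
      exact hf2 x
    rw [integral_const_mul] at h6
    linarith
  have h7 : ‖∫ x, f x * h x ∂m‖ ≤ C := by
    refine (hC f).trans ?_
    calc C * ‖f‖ ≤ C * 1 := mul_le_mul_of_nonneg_left hf1 hC0
      _ = C := mul_one C
  have h8 : ‖(((∫ x, ‖h x‖ ∂m : ℝ)) : 𝕜)‖ ≤ C + ε := by
    rw [← hmain, hsub]
    exact (norm_add_le _ _).trans (add_le_add h7 h3)
  rw [RCLike.norm_ofReal] at h8
  exact (le_abs_self _).trans h8

end Pool.Agent.Helper318.L1S
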