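import Pool.Agent.Helper318.L1S.Defs
import Pool.Agent.Helper318.L1S.P_norm_J

set_option autoImplicit false

open MeasureTheory Set Filter Topology

namespace Pool.Agent.Helper318.L1S



theorem carr_18321 {𝕜 : Type*} [RCLike 𝕜] {ι : Type*} (F : Finset ι) (m : ι → Measure Cant)
    (hs : ∀ i ∈ F, ∀ j ∈ F, i ≠ j → (m i) ⟂ₘ (m j)) (h : ι → Cant → 𝕜) :
    ∃ h' : Cant → 𝕜, ∀ i ∈ F, h' =ᵐ[m i] h i := by
  classical
  have hN : ∀ i j : ι, ∃ s : Set Cant, i ∈ F → j ∈ F → i ≠ j → MeasurableSet s ∧ m i s = 0 ∧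
      m j sᶜ = 0 := by
    intro i j
    by_cases hi : i ∈ F
    · by_cases hj : j ∈ F
      · by_cases hij : i = j
        · exact ⟨∅, fun _ _ h => absurd hij h⟩
        · obtain ⟨s, h1, h2, h3⟩ := hs i hi j hj hij
          exact ⟨s, fun _ _ _ => ⟨h1, h2, h3⟩⟩
      · exact ⟨∅, fun _ h => absurd h hj⟩
    · exact ⟨∅, fun h => absurd h hi⟩
  choose N hN using hN
  -- the carrier of `m i`
  set B : ι → Set Cant := fun i => ⋂ j ∈ F.erase i, N j i with hB
  have hBi : ∀ i ∈ F, ∀ᵐ x ∂(m i), x ∈ B i := by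
    intro i hi
    have : ∀ᵐ x ∂(m i), ∀ j ∈ F.erase i, x ∈ N j i := by
      rw [Filter.eventually_all_finset]
      intro j hj
      rw [Finset.mem_erase] at hj
      exact (hN j i hj.2 hi hj.1).2.2
    filter_upwards [this] with x hx
    exact Set.mem_iInter₂.2 hx
  have hBj : ∀ i ∈ F, ∀ᵐ x ∂(m i), ∀ j ∈ F.erase i, x ∉ B j := by
    intro i hi
    rw [Filter.eventually_all_finset]
    intro j hj
    rw [Finset.mem_erase] at hj
    have h1 : m i (N i j) = 0 := (hN i j hi hj.2 hj.1.symm).2.1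
    have h2 : m i (B j) = 0 := measure_mono_null (by
      intro x hx
      exact Set.mem_iInter₂.1 hx i (Finset.mem_erase.2 ⟨hj.1.symm, hi⟩)) h1
    exact measure_eq_zero_iff_ae_notMem.1 h2
  refine ⟨fun x => ∑ i ∈ F, (B i).indicator (h i) x, fun i hi => ?_⟩
  filter_upwards [hBi i hi, hBj i hi] with x h1 h2
  rw [Finset.sum_eq_single i]
  · exact Set.indicator_of_mem h1 _
  · intro j hj hji
    exact Set.indicator_of_notMem (h2 j (Finset.mem_erase.2 ⟨hji, hj⟩)) _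
  · intro hi'
    exact absurd hi hi'

theorem norm_J_sum {𝕜 : Type*} [RCLike 𝕜] {ι : Type*} (F : Finset ι) (m : ι → Measure Cant)
    (hm : ∀ i ∈ F, IsFiniteMeasure (m i))
    (hs : ∀ i ∈ F, ∀ j ∈ F, i ≠ j → (m i) ⟂ₘ (m j)) (h : ι → Cant → 𝕜)
    (hh : ∀ i ∈ F, Integrable (h i) (m i)) (C : ℝ)
    (hC : ∀ f : C(Cant, 𝕜), ‖∑ i ∈ F, ∫ x, f x * h i x ∂(m i)‖ ≤ C * ‖f‖) :
    ∑ i ∈ F, ∫ x, ‖h i x‖ ∂(m i) ≤ C := by
  obtain ⟨h', hh'⟩ := carr_18321 F m hs h
  haveI : IsFiniteMeasure (∑ i ∈ F, m i) := by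
    refine ⟨?_⟩
    rw [Measure.finsetSum_apply]
    exact ENNReal.sum_lt_top.2 fun i hi => by
      haveI := hm i hi
      exact measure_lt_top _ _
  have hint : ∀ i ∈ F, Integrable h' (m i) := fun i hi => (hh i hi).congr (hh' i hi).symm
  have hint2 : Integrable h' (∑ i ∈ F, m i) := integrable_finsetSum_measure.2 hint
  have h1 : ∀ f : C(Cant, 𝕜), ∀ i ∈ F, Integrable (fun x => f x * h' x) (m i) := fun f i hi =>
    (hint i hi).bdd_mul (c := ‖f‖) f.continuous.aestronglyMeasurable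
      (Filter.Eventually.of_forall fun x => f.norm_coe_le_norm x)
  have h2 := norm_J (∑ i ∈ F, m i) h' hint2 C (fun f => by
    rw [integral_finsetSum_measure (h1 f)]
    have e : ∑ i ∈ F, ∫ x, f x * h' x ∂(m i) = ∑ i ∈ F, ∫ x, f x * h i x ∂(m i) := by
      refine Finset.sum_congr rfl fun i hi => integral_congr_ae ?_
      filter_upwards [hh' i hi] with x hx
      rw [hx]
    rw [e]
    exact hC f)
  rw [integral_finsetSum_measure (fun i hi => (hint i hi).norm)] at h2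
  refine le_trans (le_of_eq ?_) h2
  refine Finset.sum_congr rfl fun i hi => integral_congr_ae ?_
  filter_upwards [hh' i hi] with x hx
  rw [hx]

end Pool.Agent.Helper318.L1S
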