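import Pool.Agent.Helper318.L1S.Defs

set_option autoImplicit false

open MeasureTheory Set Filter Topology

namespace Pool.Agent.Helper318.L1S



namespace DiracJ6

variable {X : Type} [TopologicalSpace X] [CompactSpace X]

/-- positive homogeneous majorant -/
noncomputable def pp (M : ℝ) (f : C(X, ℝ)) : ℝ := M * ‖f ⊔ 0‖

theorem norm_mono {f g : C(X, ℝ)} (hf : 0 ≤ f) (hfg : f ≤ g) : ‖f‖ ≤ ‖g‖ := by
  rw [ContinuousMap.norm_le _ (norm_nonneg _)]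
  intro x
  have h1 : 0 ≤ f x := hf x
  have h2 : f x ≤ g x := hfg x
  have h3 := g.norm_coe_le_norm x
  rw [Real.norm_of_nonneg h1]
  rw [Real.norm_of_nonneg (h1.trans h2)] at h3
  linarith

theorem pp_add {M : ℝ} (hM : 0 ≤ M) (f g : C(X, ℝ)) : pp M (f + g) ≤ pp M f + pp M g := by
  unfold pp
  rw [← mul_add]
  apply mul_le_mul_of_nonneg_left _ hM
  refine (norm_mono (g := f ⊔ 0 + g ⊔ 0) ?_ ?_).trans (norm_add_le _ _)
  · exact le_sup_right
  · apply sup_le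
    · exact add_le_add le_sup_left le_sup_left
    · exact add_nonneg le_sup_right le_sup_right

theorem pp_smul {M : ℝ} (c : ℝ) (hc : 0 < c) (f : C(X, ℝ)) : pp M (c • f) = c * pp M f := by
  unfold pp
  have h : (c • f) ⊔ 0 = c • (f ⊔ 0) := by
    ext x
    change max (c * f x) 0 = c * max (f x) 0
    rw [mul_max_of_nonneg _ _ hc.le, mul_zero]
  rw [h, norm_smul, Real.norm_of_nonneg hc.le]
  ring

theorem pp_le {M : ℝ} (hM : 0 ≤ M) (f : C(X, ℝ)) : pp M f ≤ M * ‖f‖ := by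
  unfold pp
  apply mul_le_mul_of_nonneg_left _ hM
  rw [ContinuousMap.norm_le _ (norm_nonneg _)]
  intro x
  change ‖max (f x) 0‖ ≤ _
  have h3 := f.norm_coe_le_norm x
  rw [Real.norm_of_nonneg (le_max_right _ _)]
  apply max_le _ (norm_nonneg _)
  exact (Real.le_norm_self _).trans h3

theorem pp_nonpos {M : ℝ} (f : C(X, ℝ)) (hf : f ≤ 0) : pp M f = 0 := by
  unfold pp
  rw [sup_eq_right.2 hf]
  simp

theorem pp_of_nonneg {M : ℝ} (f : C(X, ℝ)) (hf : 0 ≤ f) : pp M f = M * ‖f‖ := by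
  unfold pp
  rw [sup_eq_left.2 hf]

/-- the inf-convolution -/
noncomputable def rr (φ : C(X, ℝ) →L[ℝ] ℝ) (f : C(X, ℝ)) : ℝ :=
  ⨅ h : {h : C(X, ℝ) // 0 ≤ h}, (pp ‖φ‖ (f + h.1) - φ h.1)

instance : Nonempty {h : C(X, ℝ) // 0 ≤ h} := ⟨⟨0, le_rfl⟩⟩

theorem rr_lower (φ : C(X, ℝ) →L[ℝ] ℝ) (f h : C(X, ℝ)) (hh : 0 ≤ h) :
    - pp ‖φ‖ (-f) ≤ pp ‖φ‖ (f + h) - φ h := by
  have h1 : φ h ≤ ‖φ‖ * ‖h‖ := (Real.le_norm_self _).trans (φ.le_opNorm h)
  have h2 := pp_of_nonneg (M := ‖φ‖) h hh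
  have h3 := pp_add (norm_nonneg φ) (f + h) (-f)
  have h4 : f + h + -f = h := by abel
  rw [h4] at h3
  linarith

theorem rr_bdd (φ : C(X, ℝ) →L[ℝ] ℝ) (f : C(X, ℝ)) : BddBelow (Set.range
    (fun h : {h : C(X, ℝ) // 0 ≤ h} => pp ‖φ‖ (f + h.1) - φ h.1)) := by
  refine ⟨- pp ‖φ‖ (-f), ?_⟩
  rintro _ ⟨h, rfl⟩
  exact rr_lower φ f h.1 h.2

theorem rr_le (φ : C(X, ℝ) →L[ℝ] ℝ) (f h : C(X, ℝ)) (hh : 0 ≤ h) :
    rr φ f ≤ pp ‖φ‖ (f + h) - φ h :=
  ciInf_le (rr_bdd φ f) (⟨h, hh⟩ : {h : C(X, ℝ) // 0 ≤ h})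

theorem le_rr (φ : C(X, ℝ) →L[ℝ] ℝ) (f : C(X, ℝ)) (a : ℝ)
    (h : ∀ h : C(X, ℝ), 0 ≤ h → a ≤ pp ‖φ‖ (f + h) - φ h) : a ≤ rr φ f :=
  le_ciInf (fun k => h k.1 k.2)

theorem rr_smul_le (φ : C(X, ℝ) →L[ℝ] ℝ) (c : ℝ) (hc : 0 < c) (f : C(X, ℝ)) :
    rr φ (c • f) ≤ c * rr φ f := by
  have h1 : c⁻¹ * rr φ (c • f) ≤ rr φ f := by
    apply le_rr
    intro h hh
    have h2 := rr_le φ (c • f) (c • h) (smul_nonneg hc.le hh)
    rw [← smul_add, pp_smul c hc, map_smul, smul_eq_mul, ← mul_sub] at h2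
    rw [inv_mul_le_iff₀ hc]
    exact h2
  rwa [inv_mul_le_iff₀ hc] at h1

theorem rr_smul (φ : C(X, ℝ) →L[ℝ] ℝ) (c : ℝ) (hc : 0 < c) (f : C(X, ℝ)) :
    rr φ (c • f) = c * rr φ f := by
  apply le_antisymm (rr_smul_le φ c hc f)
  have h1 := rr_smul_le φ c⁻¹ (inv_pos.2 hc) (c • f)
  rw [smul_smul, inv_mul_cancel₀ hc.ne', one_smul] at h1
  rwa [le_inv_mul_iff₀ hc] at h1

theorem rr_add (φ : C(X, ℝ) →L[ℝ] ℝ) (f g : C(X, ℝ)) :
    rr φ (f + g) ≤ rr φ f + rr φ g := by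
  have h1 : rr φ (f + g) - rr φ g ≤ rr φ f := by
    apply le_rr
    intro h hh
    have h2 : rr φ (f + g) - (pp ‖φ‖ (f + h) - φ h) ≤ rr φ g := by
      apply le_rr
      intro k hk
      have h3 := rr_le φ (f + g) (h + k) (add_nonneg hh hk)
      have h4 := pp_add (norm_nonneg φ) (f + h) (g + k)
      have h5 : f + h + (g + k) = f + g + (h + k) := by abel
      rw [h5] at h4
      rw [map_add] at h3
      linarith
    linarith
  linarith

end DiracJ6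

open DiracJ6 in
/-- Every continuous linear functional on C(X) is a difference of two positive ones. -/
theorem exists_pos_decomp (X : Type) [TopologicalSpace X] [CompactSpace X]
    (φ : C(X, ℝ) →L[ℝ] ℝ) :
    ∃ P Q : C(X, ℝ) →L[ℝ] ℝ, (∀ f : C(X, ℝ), 0 ≤ f → 0 ≤ P f) ∧ (∀ f : C(X, ℝ), 0 ≤ f → 0 ≤ Q f) ∧
      φ = P - Q := by
  obtain ⟨g, -, hg⟩ := exists_extension_of_le_sublinear (⊥ : C(X, ℝ) →ₗ.[ℝ] ℝ) (rr φ)
    (rr_smul φ) (rr_add φ) (by
      rintro ⟨x, hx⟩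
      have hx0 : x = 0 := hx
      subst hx0
      have h1 : (⊥ : C(X, ℝ) →ₗ.[ℝ] ℝ) ⟨0, hx⟩ = 0 := by
        exact LinearPMap.map_zero _
      rw [h1]
      apply le_rr
      intro h hh
      have := rr_lower φ 0 h hh
      rw [neg_zero, pp_nonpos 0 le_rfl, neg_zero] at this
      exact this)
  have hgp : ∀ f, g f ≤ pp ‖φ‖ f := by
    intro f
    have h1 := rr_le φ f 0 le_rfl
    rw [add_zero, map_zero, sub_zero] at h1
    exact (hg f).trans h1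
  let P : C(X, ℝ) →L[ℝ] ℝ := g.mkContinuous ‖φ‖ (by
    intro f
    rw [Real.norm_eq_abs, abs_le]
    constructor
    · have h1 := (hgp (-f)).trans (pp_le (norm_nonneg φ) (-f))
      rw [map_neg, norm_neg] at h1
      linarith
    · exact (hgp f).trans (pp_le (norm_nonneg φ) f))
  have hP : ∀ f, P f = g f := fun f => rfl
  refine ⟨P, P - φ, ?_, ?_, ?_⟩
  · intro f hf
    have h1 := hgp (-f)
    rw [pp_nonpos (-f) (neg_nonpos.2 hf), map_neg] at h1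
    rw [hP]
    linarith
  · intro f hf
    have h1 := (hg (-f)).trans (rr_le φ (-f) f hf)
    rw [neg_add_cancel, pp_nonpos 0 le_rfl, map_neg] at h1
    rw [ContinuousLinearMap.sub_apply, hP]
    linarith
  · rw [sub_sub_cancel]

theorem riesz_pos_aux (X : Type) [TopologicalSpace X] [CompactSpace X] [T2Space X]
    [MeasurableSpace X] [BorelSpace X] (ψ : C(X, ℝ) →L[ℝ] ℝ)
    (hψ : ∀ f : C(X, ℝ), 0 ≤ f → 0 ≤ ψ f) :
    ∃ ν : Measure X, IsFiniteMeasure ν ∧ ∀ f : C(X, ℝ), ψ f = ∫ z, f z ∂ν := by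
  let Λ : CompactlySupportedContinuousMap X ℝ →ₚ[ℝ] ℝ :=
  { toFun g := ψ g.toContinuousMap
    map_add' g g' := by
      have : (g + g').toContinuousMap = g.toContinuousMap + g'.toContinuousMap := by
        ext x; rfl
      rw [this, map_add]
    map_smul' c g := by
      have : (c • g).toContinuousMap = c • g.toContinuousMap := by
        ext x; rfl
      rw [this, map_smul]; rfl
    monotone' g g' hgg' := by
      have h1 : 0 ≤ ψ (g'.toContinuousMap - g.toContinuousMap) := by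
        apply hψ
        intro x
        have := hgg' x
        simpa using this
      rw [map_sub] at h1
      exact sub_nonneg.mp h1 }
  refine ⟨RealRMK.rieszMeasure Λ, inferInstance, fun g => ?_⟩
  let g' : CompactlySupportedContinuousMap X ℝ :=
  { toFun := g
    hasCompactSupport' := HasCompactSupport.of_compactSpace _ }
  exact (RealRMK.integral_rieszMeasure Λ g').symm

theorem riesz_real (φ : C(Cant, ℝ) →L[ℝ] ℝ) :
    ∃ m₁ m₂ : Measure Cant, IsFiniteMeasure m₁ ∧ IsFiniteMeasure m₂ ∧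
      ∀ f : C(Cant, ℝ), φ f = ∫ x, f x ∂m₁ - ∫ x, f x ∂m₂ := by
  obtain ⟨P, Q, hP, hQ, hφ⟩ := exists_pos_decomp Cant φ
  obtain ⟨m₁, h1, e1⟩ := riesz_pos_aux Cant P hP
  obtain ⟨m₂, h2, e2⟩ := riesz_pos_aux Cant Q hQ
  refine ⟨m₁, m₂, h1, h2, fun f => ?_⟩
  rw [hφ, ContinuousLinearMap.sub_apply, e1 f, e2 f]

end Pool.Agent.Helper318.L1S
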