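import Pool.Agent.Helper318.L1S.Defs
import Pool.Agent.Helper318.L1S.P_riesz_real

set_option autoImplicit false

open MeasureTheory Set Filter Topology

namespace Pool.Agent.Helper318.L1S



/-- a real continuous function as a `𝕜`-valued one -/
noncomputable def riesz_emb (𝕜 : Type*) [RCLike 𝕜] (f : C(Cant, ℝ)) : C(Cant, 𝕜) :=
  ⟨fun x => ((f x : ℝ) : 𝕜), RCLike.continuous_ofReal.comp f.continuous⟩

theorem riesz_emb_apply (𝕜 : Type*) [RCLike 𝕜] (f : C(Cant, ℝ)) (x : Cant) :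
    riesz_emb 𝕜 f x = ((f x : ℝ) : 𝕜) := rfl

theorem riesz_emb_norm (𝕜 : Type*) [RCLike 𝕜] (f : C(Cant, ℝ)) : ‖riesz_emb 𝕜 f‖ ≤ ‖f‖ := by
  refine (ContinuousMap.norm_le _ (norm_nonneg _)).mpr fun x => ?_
  rw [riesz_emb_apply, RCLike.norm_ofReal, ← Real.norm_eq_abs]
  exact f.norm_coe_le_norm x

/-- the real and imaginary parts of `φ` on real functions -/
noncomputable def riesz_part {𝕜 : Type*} [RCLike 𝕜] (φ : StrongDual 𝕜 C(Cant, 𝕜))
    (p : 𝕜 →ₗ[ℝ] ℝ) (hp : ∀ z, |p z| ≤ ‖z‖) : C(Cant, ℝ) →L[ℝ] ℝ :=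
  LinearMap.mkContinuous
    { toFun := fun f => p (φ (riesz_emb 𝕜 f))
      map_add' := by
        intro f g
        have : riesz_emb 𝕜 (f + g) = riesz_emb 𝕜 f + riesz_emb 𝕜 g := by
          ext x
          simp [riesz_emb_apply]
        rw [this, map_add, map_add]
      map_smul' := by
        intro c f
        have : riesz_emb 𝕜 (c • f) = (c : 𝕜) • riesz_emb 𝕜 f := by
          ext x
          simp [riesz_emb_apply]
        rw [this, map_smul, RingHom.id_apply, smul_eq_mul, ← RCLike.real_smul_eq_coe_mul]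
        exact p.map_smul c _ }
    ‖φ‖ (by
      intro f
      show ‖p (φ (riesz_emb 𝕜 f))‖ ≤ ‖φ‖ * ‖f‖
      rw [Real.norm_eq_abs]
      refine (hp _).trans ((φ.le_opNorm _).trans ?_)
      exact mul_le_mul_of_nonneg_left (riesz_emb_norm 𝕜 f) (norm_nonneg φ))

theorem riesz_part_apply {𝕜 : Type*} [RCLike 𝕜] (φ : StrongDual 𝕜 C(Cant, 𝕜))
    (p : 𝕜 →ₗ[ℝ] ℝ) (hp : ∀ z, |p z| ≤ ‖z‖) (f : C(Cant, ℝ)) :
    riesz_part φ p hp f = p (φ (riesz_emb 𝕜 f)) := rfl

theorem riesz_dens (m m' : Measure Cant) [IsFiniteMeasure m] [IsFiniteMeasure m'] (h : m' ≤ m)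
    (f : C(Cant, ℝ)) : ∫ x, f x ∂m' = ∫ x, f x * (m'.rnDeriv m x).toReal ∂m := by
  have hac : m' ≪ m := Measure.absolutelyContinuous_of_le h
  haveI : SigmaFinite m := IsFiniteMeasure.toSigmaFinite m
  haveI : SigmaFinite m' := IsFiniteMeasure.toSigmaFinite m'
  haveI : SFinite m' := instSFiniteOfSigmaFinite
  haveI : m'.HaveLebesgueDecomposition m := Measure.haveLebesgueDecomposition_of_sigmaFinite m' m
  have e : ∫ x, (m'.rnDeriv m x).toReal • f x ∂m = ∫ x, f x ∂m' := integral_rnDeriv_smul hac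
  rw [← e]
  refine integral_congr_ae (Filter.Eventually.of_forall fun x => ?_)
  simp only [smul_eq_mul]
  ring

theorem riesz {𝕜 : Type*} [RCLike 𝕜] (φ : StrongDual 𝕜 C(Cant, 𝕜)) :
    ∃ (m : Measure Cant) (h : Cant → 𝕜), IsFiniteMeasure m ∧ Integrable h m ∧
      ∀ f : C(Cant, 𝕜), φ f = ∫ x, f x * h x ∂m := by
  obtain ⟨m1, m2, hm1, hm2, h12⟩ := riesz_real
    (riesz_part φ (RCLike.reLm : 𝕜 →ₗ[ℝ] ℝ) (fun z => RCLike.abs_re_le_norm z))
  obtain ⟨m3, m4, hm3, hm4, h34⟩ := riesz_real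
    (riesz_part φ (RCLike.imLm : 𝕜 →ₗ[ℝ] ℝ) (fun z => RCLike.abs_im_le_norm z))
  set m : Measure Cant := m1 + m2 + m3 + m4 with hm
  have hmf : IsFiniteMeasure m := by rw [hm]; infer_instance
  have le1 : m1 ≤ m := by
    rw [hm, add_assoc, add_assoc]; exact Measure.le_add_right le_rfl
  have le2 : m2 ≤ m := by
    rw [hm, add_assoc m1, add_assoc m1]
    refine Measure.le_add_left ?_
    rw [add_assoc]; exact Measure.le_add_right le_rfl
  have le3 : m3 ≤ m := by
    rw [hm, add_assoc (m1 + m2)]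
    exact Measure.le_add_left (Measure.le_add_right le_rfl)
  have le4 : m4 ≤ m := by rw [hm]; exact Measure.le_add_left le_rfl
  set d1 : Cant → ℝ := fun x => (m1.rnDeriv m x).toReal with hd1
  set d2 : Cant → ℝ := fun x => (m2.rnDeriv m x).toReal with hd2
  set d3 : Cant → ℝ := fun x => (m3.rnDeriv m x).toReal with hd3
  set d4 : Cant → ℝ := fun x => (m4.rnDeriv m x).toReal with hd4
  have i1 : Integrable d1 m := Measure.integrable_toReal_rnDeriv
  have i2 : Integrable d2 m := Measure.integrable_toReal_rnDeriv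
  have i3 : Integrable d3 m := Measure.integrable_toReal_rnDeriv
  have i4 : Integrable d4 m := Measure.integrable_toReal_rnDeriv
  set h : Cant → 𝕜 := fun x => ((d1 x - d2 x : ℝ) : 𝕜) + ((d3 x - d4 x : ℝ) : 𝕜) * RCLike.I with hh
  have hi : Integrable h m := by
    refine Integrable.add ?_ ?_
    · exact (i1.sub i2).ofReal
    · exact ((i3.sub i4).ofReal (𝕜 := 𝕜)).mul_const _
  have hbd : ∀ (f : C(Cant, ℝ)) (d : Cant → ℝ), Integrable d m → Integrable (fun x => f x * d x) m := by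
    intro f d hd
    exact hd.bdd_mul (c := ‖f‖) f.continuous.aestronglyMeasurable
      (Filter.Eventually.of_forall fun x => f.norm_coe_le_norm x)
  have hbd' : ∀ (f : C(Cant, 𝕜)), Integrable (fun x => f x * h x) m := by
    intro f
    exact hi.bdd_mul (c := ‖f‖) f.continuous.aestronglyMeasurable
      (Filter.Eventually.of_forall fun x => f.norm_coe_le_norm x)
  have hre : ∀ f : C(Cant, ℝ), RCLike.re (φ (riesz_emb 𝕜 f)) = ∫ x, f x * (d1 x - d2 x) ∂m := by
    intro f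
    have h1 : RCLike.re (φ (riesz_emb 𝕜 f)) = ∫ x, f x ∂m1 - ∫ x, f x ∂m2 := h12 f
    have ha : ∫ x, f x ∂m1 = ∫ x, f x * d1 x ∂m := riesz_dens m m1 le1 f
    have hb : ∫ x, f x ∂m2 = ∫ x, f x * d2 x ∂m := riesz_dens m m2 le2 f
    rw [h1, ha, hb, ← integral_sub (hbd f d1 i1) (hbd f d2 i2)]
    refine integral_congr_ae (Filter.Eventually.of_forall fun x => ?_)
    simp only
    ring
  have him : ∀ f : C(Cant, ℝ), RCLike.im (φ (riesz_emb 𝕜 f)) = ∫ x, f x * (d3 x - d4 x) ∂m := by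
    intro f
    have h1 : RCLike.im (φ (riesz_emb 𝕜 f)) = ∫ x, f x ∂m3 - ∫ x, f x ∂m4 := h34 f
    have ha : ∫ x, f x ∂m3 = ∫ x, f x * d3 x ∂m := riesz_dens m m3 le3 f
    have hb : ∫ x, f x ∂m4 = ∫ x, f x * d4 x ∂m := riesz_dens m m4 le4 f
    rw [h1, ha, hb, ← integral_sub (hbd f d3 i3) (hbd f d4 i4)]
    refine integral_congr_ae (Filter.Eventually.of_forall fun x => ?_)
    simp only
    ring
  have hreal : ∀ f : C(Cant, ℝ), φ (riesz_emb 𝕜 f) = ∫ x, riesz_emb 𝕜 f x * h x ∂m := by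
    intro f
    have e1 : ∀ x, riesz_emb 𝕜 f x * h x = ((f x * (d1 x - d2 x) : ℝ) : 𝕜) +
        ((f x * (d3 x - d4 x) : ℝ) : 𝕜) * RCLike.I := by
      intro x
      rw [riesz_emb_apply, hh]
      push_cast
      ring
    rw [integral_congr_ae (Filter.Eventually.of_forall e1), integral_add, integral_mul_const,
      integral_ofReal, integral_ofReal, ← hre, ← him, RCLike.re_add_im]
    · exact (hbd f _ (i1.sub i2)).ofReal
    · exact ((hbd f _ (i3.sub i4)).ofReal (𝕜 := 𝕜)).mul_const _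
  refine ⟨m, h, hmf, hi, fun f => ?_⟩
  set fr : C(Cant, ℝ) := ⟨fun x => RCLike.re (f x), RCLike.continuous_re.comp f.continuous⟩ with hfr
  set fi : C(Cant, ℝ) := ⟨fun x => RCLike.im (f x), RCLike.continuous_im.comp f.continuous⟩ with hfi
  have hf : f = riesz_emb 𝕜 fr + (RCLike.I : 𝕜) • riesz_emb 𝕜 fi := by
    ext x
    show f x = ((RCLike.re (f x) : ℝ) : 𝕜) + RCLike.I * ((RCLike.im (f x) : ℝ) : 𝕜)
    rw [mul_comm]
    exact (RCLike.re_add_im (f x)).symm
  have e2 : ∀ x, f x * h x = riesz_emb 𝕜 fr x * h x + RCLike.I * (riesz_emb 𝕜 fi x * h x) := by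
    intro x
    have h3 : f x = riesz_emb 𝕜 fr x + RCLike.I * riesz_emb 𝕜 fi x := congrArg (fun g => g x) hf
    rw [h3]
    ring
  rw [integral_congr_ae (Filter.Eventually.of_forall e2), integral_add (hbd' _)
    ((hbd' _).const_mul _), integral_const_mul, ← hreal, ← hreal]
  conv_lhs => rw [hf]
  rw [map_add, map_smul, smul_eq_mul]

end Pool.Agent.Helper318.L1S
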