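import Pool.Agent.Helper318.L1S.Defs

set_option autoImplicit false

open MeasureTheory Set Filter Topology

namespace Pool.Agent.Helper318.L1S



theorem ac_part_add_le {X : Type*} [MeasurableSpace X] (m ν₁ ν₂ : Measure X) (h1 : ν₁ ≤ m)
    (h2 : ν₂ ≤ m) (h : ν₁ ⟂ₘ ν₂) : ν₁ + ν₂ ≤ m := by
  obtain ⟨S, hS, hS1, hS2⟩ := h
  rw [Measure.le_iff]
  intro B hB
  rw [Measure.add_apply]
  have e1 : ν₁ B ≤ m (B \ S) := by
    calc ν₁ B ≤ ν₁ (B \ S) + ν₁ S := by
          calc ν₁ B ≤ ν₁ ((B \ S) ∪ S) := measure_mono (by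
                intro x hx
                by_cases hxS : x ∈ S
                · exact Or.inr hxS
                · exact Or.inl ⟨hx, hxS⟩)
            _ ≤ ν₁ (B \ S) + ν₁ S := measure_union_le _ _
      _ = ν₁ (B \ S) := by rw [hS1, add_zero]
      _ ≤ m (B \ S) := h1 _
  have e2 : ν₂ B ≤ m (B ∩ S) := by
    calc ν₂ B ≤ ν₂ (B ∩ S) + ν₂ Sᶜ := by
          calc ν₂ B ≤ ν₂ ((B ∩ S) ∪ Sᶜ) := measure_mono (by
                intro x hx
                by_cases hxS : x ∈ S
                · exact Or.inl ⟨hx, hxS⟩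
                · exact Or.inr hxS)
            _ ≤ ν₂ (B ∩ S) + ν₂ Sᶜ := measure_union_le _ _
      _ = ν₂ (B ∩ S) := by rw [hS2, add_zero]
      _ ≤ m (B ∩ S) := h2 _
  calc ν₁ B + ν₂ B ≤ m (B \ S) + m (B ∩ S) := add_le_add e1 e2
    _ = m B := by
        rw [add_comm]
        exact measure_inter_add_sdiff B hS

theorem ac_part {𝓜 : Set (Measure Cant)} (h𝓜 : MaxSing 𝓜) (m : Measure Cant)
    [IsFiniteMeasure m] : ∃ 𝒞 ⊆ 𝓜, 𝒞.Countable ∧
      ∀ B, MeasurableSet B → (∀ m' ∈ 𝒞, m' B = 0) → m B = 0 := by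
  classical
  obtain ⟨hprob, hsing, hmax⟩ := h𝓜
  refine ⟨{m' | m' ∈ 𝓜 ∧ ¬ m ⟂ₘ m'}, fun x hx => hx.1, ?_, ?_⟩
  · set 𝒞 : Set (Measure Cant) := {m' | m' ∈ 𝓜 ∧ ¬ m ⟂ₘ m'} with h𝒞
    let ν : 𝒞 → Measure Cant := fun m' => m'.1.withDensity (m.rnDeriv m'.1)
    have hle : ∀ m', ν m' ≤ m := fun m' => Measure.withDensity_rnDeriv_le m m'.1
    have hs : ∀ a b : 𝒞, a ≠ b → ν a ⟂ₘ ν b := by
      intro a b hab
      have h1 := hsing a.1 a.2.1 b.1 b.2.1 (fun h => hab (Subtype.ext h))
      exact h1.mono_ac (withDensity_absolutelyContinuous _ _) (withDensity_absolutelyContinuous _ _)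
    have hfin : ∀ T : Finset 𝒞, ∑ m' ∈ T, ν m' ≤ m := by
      intro T
      induction T using Finset.induction_on with
      | empty =>
        rw [Finset.sum_empty]
        exact Measure.zero_le m
      | insert a T ha ih =>
        rw [Finset.sum_insert ha]
        apply ac_part_add_le m _ _ (hle a) ih
        apply Finset.sum_induction ν (fun μ => ν a ⟂ₘ μ)
        · intro x y hx hy
          exact Measure.MutuallySingular.add_right hx hy
        · exact Measure.MutuallySingular.zero_right
        · intro b hb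
          apply hs
          rintro rfl
          exact ha hb
    have htop : ∑' m' : 𝒞, ν m' Set.univ ≠ ⊤ := by
      have h1 : ∑' m' : 𝒞, ν m' Set.univ ≤ m Set.univ := by
        rw [ENNReal.tsum_eq_iSup_sum]
        apply iSup_le
        intro T
        rw [← Measure.finsetSum_apply]
        exact hfin T _
      exact ne_top_of_le_ne_top (measure_ne_top m _) h1
    have hc := Summable.countable_support_ennreal htop
    have hsupp : Function.support (fun m' : 𝒞 => ν m' Set.univ) = Set.univ := by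
      apply Set.eq_univ_of_forall
      intro m'
      rw [Function.mem_support]
      intro h0
      have hp1 : IsProbabilityMeasure (m' : Measure Cant) := hprob m'.1 m'.2.1
      have hsf : SigmaFinite (m' : Measure Cant) := inferInstance
      have hld : m.HaveLebesgueDecomposition (m' : Measure Cant) := inferInstance
      have h1 : ν m' = 0 := Measure.measure_univ_eq_zero.1 h0
      exact m'.2.2 ((Measure.withDensity_rnDeriv_eq_zero m m'.1).1 h1)
    rw [hsupp, Set.countable_univ_iff] at hc
    exact Set.countable_coe_iff.1 hc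
  · intro B hB h0
    by_contra hne
    obtain ⟨m', hm', hns⟩ := hmax (m.restrict B) inferInstance (by
      intro h
      apply hne
      rw [← Measure.restrict_apply_univ, h]
      rfl)
    apply hns
    by_cases h1 : m ⟂ₘ m'
    · exact h1.mono Measure.restrict_le_self le_rfl
    · have h2 := h0 m' ⟨hm', h1⟩
      refine ⟨Bᶜ, hB.compl, ?_, ?_⟩
      · rw [Measure.restrict_apply hB.compl, Set.compl_inter_self, measure_empty]
      · rw [compl_compl]
        exact h2

end Pool.Agent.Helper318.L1S
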