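import Pool.Agent.Helper318.L1S.Defs
import Pool.Agent.Helper318.L1S.P_ac_part

set_option autoImplicit false

open MeasureTheory Set Filter Topology

namespace Pool.Agent.Helper318.L1S



theorem carriers {𝓜 : Set (Measure Cant)} (h𝓜 : MaxSing 𝓜) (m : Measure Cant)
    [IsFiniteMeasure m] : ∃ 𝒞 ⊆ 𝓜, 𝒞.Countable ∧ ∃ A : 𝒞 → Set Cant,
      (∀ c, MeasurableSet (A c)) ∧ (∀ c, m.restrict (A c) ≪ c.1) ∧
      (∀ c c', c ≠ c' → m (A c ∩ A c') = 0) ∧ m (⋃ c, A c)ᶜ = 0 := by
  obtain ⟨𝒞, h𝒞, hcount, hac⟩ := ac_part h𝓜 m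
  have : Countable 𝒞 := hcount.to_subtype
  have hs : ∀ c c' : 𝒞, ∃ s : Set Cant, MeasurableSet s ∧ (c ≠ c' → c.1 s = 0 ∧ c'.1 sᶜ = 0) := by
    intro c c'
    by_cases h : c = c'
    · exact ⟨∅, MeasurableSet.empty, fun h' => absurd h h'⟩
    · obtain ⟨s, h1, h2, h3⟩ := h𝓜.2.1 c.1 (h𝒞 c.2) c'.1 (h𝒞 c'.2) (fun e => h (Subtype.ext e))
      exact ⟨s, h1, fun _ => ⟨h2, h3⟩⟩
  choose s hs1 hs2 using hs
  let A : 𝒞 → Set Cant := fun c => ⋂ c' : 𝒞, ⋂ (_ : c ≠ c'), (s c c')ᶜ
  have hAm : ∀ c, MeasurableSet (A c) := fun c =>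
    MeasurableSet.iInter fun c' => MeasurableSet.iInter fun _ => (hs1 c c').compl
  have hAc : ∀ c : 𝒞, c.1 (A c)ᶜ = 0 := by
    intro c
    have h1 : (A c)ᶜ = ⋃ c' : 𝒞, ⋃ (_ : c ≠ c'), s c c' := by
      simp only [A, compl_iInter, compl_compl]
    rw [h1, measure_iUnion_null_iff]
    intro c'
    rw [measure_iUnion_null_iff]
    intro hne
    exact (hs2 c c' hne).1
  have hAo : ∀ c d : 𝒞, c ≠ d → d.1 (A c) = 0 := by
    intro c d hne
    have h1 : A c ⊆ (s c d)ᶜ := by
      intro x hx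
      simp only [A, mem_iInter] at hx
      exact hx d hne
    exact measure_mono_null h1 (hs2 c d hne).2
  refine ⟨𝒞, h𝒞, hcount, A, hAm, ?_, ?_, ?_⟩
  · intro c
    refine Measure.AbsolutelyContinuous.mk fun N hN hcN => ?_
    rw [Measure.restrict_apply hN]
    apply hac _ (hN.inter (hAm c))
    intro d hd
    by_cases h : c.1 = d
    · rw [← h]
      exact measure_mono_null inter_subset_left hcN
    · exact measure_mono_null inter_subset_right (hAo c ⟨d, hd⟩ (fun e => h (congrArg Subtype.val e)))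
  · intro c c' hne
    apply hac _ ((hAm c).inter (hAm c'))
    intro d hd
    by_cases h : c = ⟨d, hd⟩
    · have h2 : c' ≠ ⟨d, hd⟩ := fun e => hne (h.trans e.symm)
      exact measure_mono_null inter_subset_right (hAo c' ⟨d, hd⟩ h2)
    · exact measure_mono_null inter_subset_left (hAo c ⟨d, hd⟩ h)
  · apply hac _ (MeasurableSet.iUnion hAm).compl
    intro d hd
    have h1 : (⋃ c, A c)ᶜ ⊆ (A ⟨d, hd⟩)ᶜ := compl_subset_compl.mpr (subset_iUnion A ⟨d, hd⟩)
    exact measure_mono_null h1 (hAc ⟨d, hd⟩)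

theorem split_density {𝕜 : Type*} [RCLike 𝕜] {𝓜 : Set (Measure Cant)} (h𝓜 : MaxSing 𝓜)
    (m : Measure Cant) [IsFiniteMeasure m] (h : Cant → 𝕜) (hh : Integrable h m) :
    ∃ k : 𝓜 → Cant → 𝕜, (∀ m' : 𝓜, Integrable (k m') m'.1) ∧
      (Summable fun m' : 𝓜 => ∫ x, ‖k m' x‖ ∂m'.1) ∧
      ∀ f : C(Cant, 𝕜), ∫ x, f x * h x ∂m = ∑' m' : 𝓜, ∫ x, f x * k m' x ∂m'.1 := by
  classical
  obtain ⟨𝒞, h𝒞, hcount, A, hAm, hAac, hAd, hAu⟩ := carriers h𝓜 m
  have hctb : Countable 𝒞 := hcount.to_subtype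
  have hprob : ∀ c : 𝒞, IsProbabilityMeasure c.1 := fun c => h𝓜.1 c.1 (h𝒞 c.2)
  have hsf : ∀ c : 𝒞, SigmaFinite (c.1 : Measure Cant) := fun c => by
    have := hprob c
    infer_instance
  have hsr : ∀ c : 𝒞, SigmaFinite (m.restrict (A c)) := fun c => by
    infer_instance
  have hld : ∀ c : 𝒞, (m.restrict (A c)).HaveLebesgueDecomposition c.1 := fun c => by
    have := hprob c
    exact Measure.haveLebesgueDecomposition_of_sigmaFinite _ _
  let k : 𝓜 → Cant → 𝕜 := fun m' =>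
    if hm : m'.1 ∈ 𝒞 then fun x => ((m.restrict (A ⟨m'.1, hm⟩)).rnDeriv m'.1 x).toReal • h x else 0
  let ι : 𝒞 → 𝓜 := fun c => ⟨c.1, h𝒞 c.2⟩
  have hι : Function.Injective ι := by
    intro c c' e
    apply Subtype.ext
    exact congrArg (fun z : 𝓜 => z.1) e
  have hkι : ∀ c : 𝒞, k (ι c) = fun x => ((m.restrict (A c)).rnDeriv c.1 x).toReal • h x := by
    intro c
    simp only [k, ι]
    rw [dif_pos c.2]
  have hk0 : ∀ m' : 𝓜, m' ∉ range ι → k m' = 0 := by
    intro m' hm
    have : m'.1 ∉ 𝒞 := fun hc => hm ⟨⟨m'.1, hc⟩, rfl⟩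
    simp only [k]
    rw [dif_neg this]
  have hAd' : Pairwise (Function.onFun (AEDisjoint m) A) := fun c c' hne => hAd c c' hne
  have hnm : ∀ c, NullMeasurableSet (A c) m := fun c => (hAm c).nullMeasurableSet
  have hrest : m.restrict (⋃ c, A c) = m := by
    apply Measure.restrict_eq_self_of_ae_mem
    rw [ae_iff]
    exact hAu
  refine ⟨k, ?_, ?_, ?_⟩
  · intro m'
    by_cases hm : m' ∈ range ι
    · obtain ⟨c, rfl⟩ := hm
      rw [hkι]
      have i1 := hsf c
      have i2 := hsr c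
      have i3 := hld c
      exact (integrable_rnDeriv_smul_iff (hAac c)).mpr hh.restrict
    · rw [hk0 m' hm]
      exact integrable_zero _ _ _
  · rw [← hι.summable_iff]
    · have h1 : (fun c : 𝒞 => ∫ x in A c, ‖h x‖ ∂m) =
          (fun m' : 𝓜 => ∫ x, ‖k m' x‖ ∂m'.1) ∘ ι := by
        funext c
        simp only [Function.comp_apply]
        rw [hkι]
        have i1 := hsf c
        have i2 := hsr c
        have i3 := hld c
        rw [← integral_rnDeriv_smul (hAac c)]
        apply integral_congr_ae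
        refine Filter.Eventually.of_forall fun x => ?_
        show ((m.restrict (A c)).rnDeriv c.1 x).toReal • ‖h x‖ =
          ‖((m.restrict (A c)).rnDeriv c.1 x).toReal • h x‖
        rw [norm_smul, Real.norm_of_nonneg ENNReal.toReal_nonneg, smul_eq_mul]
      rw [← h1]
      exact (hasSum_integral_iUnion_ae hnm hAd' (by
        rw [IntegrableOn, hrest]; exact hh.norm)).summable
    · intro m' hm
      rw [hk0 m' hm]
      simp
  · intro f
    have hfh : Integrable (fun x => f x * h x) m :=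
      hh.bdd_mul f.continuous.aestronglyMeasurable
        (Filter.Eventually.of_forall fun x => f.norm_coe_le_norm x)
    have h1 : ∀ c : 𝒞, ∫ x, f x * k (ι c) x ∂c.1 = ∫ x in A c, f x * h x ∂m := by
      intro c
      rw [hkι]
      have i1 := hsf c
      have i2 := hsr c
      have i3 := hld c
      rw [← integral_rnDeriv_smul (hAac c)]
      apply integral_congr_ae
      refine Filter.Eventually.of_forall fun x => ?_
      show f x * (((m.restrict (A c)).rnDeriv c.1 x).toReal • h x) =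
        ((m.restrict (A c)).rnDeriv c.1 x).toReal • (f x * h x)
      rw [mul_smul_comm]
    have h2 := hasSum_integral_iUnion_ae hnm hAd' (f := fun x => f x * h x) (by
        rw [IntegrableOn, hrest]; exact hfh)
    rw [hrest] at h2
    have h3 : Function.support (fun m' : 𝓜 => ∫ x, f x * k m' x ∂m'.1) ⊆ range ι := by
      intro m' hm
      by_contra hc
      apply hm
      show ∫ x, f x * k m' x ∂m'.1 = 0
      rw [hk0 m' hc]
      simp
    rw [← hι.tsum_eq h3, ← h2.tsum_eq]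
    exact tsum_congr fun c => (h1 c).symm

end Pool.Agent.Helper318.L1S
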