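import Pool.Agent.Helper318.L1S.Defs
import Pool.Agent.Helper318.L1S.P_riesz
import Pool.Agent.Helper318.L1S.P_norm_J_sum
import Pool.Agent.Helper318.L1S.P_split_density

set_option autoImplicit false

open MeasureTheory Set Filter Topology

namespace Pool.Agent.Helper318.L1S



theorem integrable_mul_aux {𝕜 : Type*} [RCLike 𝕜] (m : Measure Cant) [IsFiniteMeasure m]
    (f : C(Cant, 𝕜)) {g : Cant → 𝕜} (hg : Integrable g m) :
    Integrable (fun x => f x * g x) m :=
  hg.bdd_mul (f.continuous.aestronglyMeasurable) (c := ‖f‖)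
    (Eventually.of_forall fun x => f.norm_coe_le_norm x)

/-- the pairing -/
noncomputable def pairT {𝕜 : Type*} [RCLike 𝕜] (m : Measure Cant) [IsFiniteMeasure m] :
    Lp 𝕜 1 m →L[𝕜] StrongDual 𝕜 C(Cant, 𝕜) :=
  (LinearMap.mk₂ 𝕜 (fun (g : Lp 𝕜 1 m) (f : C(Cant, 𝕜)) => ∫ x, f x * g x ∂m)
    (by
      intro g g' f
      rw [← integral_add (integrable_mul_aux m f (L1.integrable_coeFn g))
        (integrable_mul_aux m f (L1.integrable_coeFn g'))]
      apply integral_congr_ae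
      filter_upwards [Lp.coeFn_add g g'] with x hx
      rw [hx, Pi.add_apply, mul_add])
    (by
      intro c g f
      rw [smul_eq_mul, ← integral_const_mul]
      apply integral_congr_ae
      filter_upwards [Lp.coeFn_smul c g] with x hx
      rw [hx, Pi.smul_apply, smul_eq_mul]; ring)
    (by
      intro g f f'
      rw [← integral_add (integrable_mul_aux m f (L1.integrable_coeFn g))
        (integrable_mul_aux m f' (L1.integrable_coeFn g))]
      apply integral_congr_ae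
      filter_upwards with x
      rw [ContinuousMap.add_apply, add_mul])
    (by
      intro c g f
      rw [smul_eq_mul, ← integral_const_mul]
      apply integral_congr_ae
      filter_upwards with x
      rw [ContinuousMap.smul_apply, smul_eq_mul]; ring)).mkContinuous₂ 1
    (by
      intro g f
      rw [LinearMap.mk₂_apply, one_mul]
      calc ‖∫ x, f x * g x ∂m‖ ≤ ∫ x, ‖f x * g x‖ ∂m := norm_integral_le_integral_norm _
        _ ≤ ∫ x, ‖f‖ * ‖g x‖ ∂m := by
            apply integral_mono (integrable_mul_aux m f (L1.integrable_coeFn g)).norm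
              ((L1.integrable_coeFn g).norm.const_mul _)
            intro x
            simp only [norm_mul]
            exact mul_le_mul_of_nonneg_right (f.norm_coe_le_norm x) (norm_nonneg _)
        _ = ‖g‖ * ‖f‖ := by
            rw [integral_const_mul, L1.norm_eq_integral_norm, mul_comm])

theorem pairT_apply {𝕜 : Type*} [RCLike 𝕜] (m : Measure Cant) [IsFiniteMeasure m]
    (g : Lp 𝕜 1 m) (f : C(Cant, 𝕜)) : pairT m g f = ∫ x, f x * g x ∂m := rfl

theorem pairT_norm_le {𝕜 : Type*} [RCLike 𝕜] (m : Measure Cant) [IsFiniteMeasure m]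
    (g : Lp 𝕜 1 m) : ‖pairT m g‖ ≤ ‖g‖ := by
  have := (pairT (𝕜 := 𝕜) m).le_opNorm g
  have h1 : ‖pairT (𝕜 := 𝕜) m‖ ≤ 1 := LinearMap.mkContinuous₂_norm_le _ zero_le_one _
  calc _ ≤ _ := this
    _ ≤ 1 * ‖g‖ := mul_le_mul_of_nonneg_right h1 (norm_nonneg _)
    _ = _ := one_mul _

theorem iso_meas {𝕜 : Type*} [RCLike 𝕜] {𝓜 : Set (Measure Cant)} (h𝓜 : MaxSing 𝓜) :
    Nonempty (lp (fun m : 𝓜 => Lp 𝕜 1 m.1) 1 ≃ₗᵢ[𝕜] StrongDual 𝕜 C(Cant, 𝕜)) := by
  classical
  haveI hfin : ∀ m : 𝓜, IsFiniteMeasure m.1 := fun m => by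
    haveI := h𝓜.1 m.1 m.2
    infer_instance
  have hnorm : ∀ h : lp (fun m : 𝓜 => Lp 𝕜 1 m.1) 1, ‖h‖ = ∑' m, ‖h m‖ := by
    intro h
    rw [lp.norm_eq_tsum_rpow (by simp) h]
    simp
  have hsum : ∀ h : lp (fun m : 𝓜 => Lp 𝕜 1 m.1) 1, Summable fun m => ‖h m‖ := by
    intro h
    have := (lp.memℓp h).summable (by simp)
    simpa using this
  have hsumT : ∀ h : lp (fun m : 𝓜 => Lp 𝕜 1 m.1) 1, Summable fun m => pairT m.1 (h m) := by
    intro h
    exact Summable.of_norm_bounded (hsum h) (fun m => pairT_norm_le _ _)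
  let Ψ : lp (fun m : 𝓜 => Lp 𝕜 1 m.1) 1 →ₗ[𝕜] StrongDual 𝕜 C(Cant, 𝕜) :=
    { toFun := fun h => ∑' m : 𝓜, pairT m.1 (h m)
      map_add' := by
        intro h h'
        rw [← (hsumT h).tsum_add (hsumT h')]
        apply tsum_congr
        intro m
        rw [lp.coeFn_add, Pi.add_apply, map_add]
      map_smul' := by
        intro c h
        rw [RingHom.id_apply, ← (hsumT h).tsum_const_smul c]
        apply tsum_congr
        intro m
        rw [lp.coeFn_smul, Pi.smul_apply, map_smul] }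
  have hΨ : ∀ h, Ψ h = ∑' m : 𝓜, pairT m.1 (h m) := fun h => rfl
  have hle : ∀ h, ‖Ψ h‖ ≤ ‖h‖ := by
    intro h
    rw [hΨ, hnorm]
    calc ‖∑' m : 𝓜, pairT m.1 (h m)‖ ≤ ∑' m : 𝓜, ‖pairT m.1 (h m)‖ :=
          norm_tsum_le_tsum_norm (Summable.of_nonneg_of_le (fun _ => norm_nonneg _)
            (fun m => pairT_norm_le _ _) (hsum h))
      _ ≤ _ := Summable.tsum_le_tsum (fun m => pairT_norm_le _ _)
            (Summable.of_nonneg_of_le (fun _ => norm_nonneg _)
            (fun m => pairT_norm_le _ _) (hsum h)) (hsum h)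
  have hge : ∀ h, ‖h‖ ≤ ‖Ψ h‖ := by
    intro h
    have hF : ∀ F : Finset 𝓜, ∑ m ∈ F, ‖h m‖ ≤ ‖∑ m ∈ F, pairT m.1 (h m)‖ := by
      intro F
      have := norm_J_sum (𝕜 := 𝕜) F (fun m : 𝓜 => m.1) (fun i _ => hfin i)
        (fun i _ j _ hij => h𝓜.2.1 i.1 i.2 j.1 j.2 (fun hh => hij (Subtype.ext hh)))
        (fun m => (h m : Cant → 𝕜)) (fun i _ => L1.integrable_coeFn (h i))
        ‖∑ m ∈ F, pairT m.1 (h m)‖ (by
          intro f
          have h1 := (∑ m ∈ F, pairT m.1 (h m)).le_opNorm f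
          simpa [pairT_apply] using h1)
      calc ∑ m ∈ F, ‖h m‖ = ∑ m ∈ F, ∫ x, ‖h m x‖ ∂m.1 := by
            apply Finset.sum_congr rfl
            intro m _
            rw [L1.norm_eq_integral_norm]
        _ ≤ _ := this
    rw [hnorm]
    exact le_of_tendsto_of_tendsto (hsum h).hasSum (hsumT h).hasSum.norm
      (Eventually.of_forall hF)
  have hiso : ∀ h, ‖Ψ h‖ = ‖h‖ := fun h => le_antisymm (hle h) (hge h)
  refine ⟨LinearIsometryEquiv.ofSurjective ⟨Ψ, hiso⟩ ?_⟩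
  intro φ
  obtain ⟨m, h, hm, hh, hφ⟩ := riesz φ
  obtain ⟨k, hk1, hk2, hk3⟩ := split_density h𝓜 m h hh
  have hmem : Memℓp (fun m' : 𝓜 => (hk1 m').toL1 (k m')) 1 := by
    apply memℓp_gen
    have : (fun m' : 𝓜 => ‖(hk1 m').toL1 (k m')‖ ^ (1 : ENNReal).toReal) =
        fun m' : 𝓜 => ∫ x, ‖k m' x‖ ∂m'.1 := by
      funext m'
      rw [ENNReal.toReal_one, Real.rpow_one, L1.norm_eq_integral_norm]
      apply integral_congr_ae
      filter_upwards [(hk1 m').coeFn_toL1] with x hx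
      rw [hx]
    rw [this]
    exact hk2
  refine ⟨⟨fun m' : 𝓜 => (hk1 m').toL1 (k m'), hmem⟩, ?_⟩
  ext f
  change (∑' m' : 𝓜, pairT m'.1 ((hk1 m').toL1 (k m'))) f = φ f
  have hs := hsumT ⟨fun m' : 𝓜 => (hk1 m').toL1 (k m'), hmem⟩
  change Summable (fun m' : 𝓜 => pairT m'.1 ((hk1 m').toL1 (k m'))) at hs
  rw [hφ f, hk3 f]
  have h2 := hs.hasSum.mapL (ContinuousLinearMap.apply 𝕜 𝕜 f)
  have h3 := h2.tsum_eq
  rw [ContinuousLinearMap.apply_apply] at h3
  rw [← h3]
  apply tsum_congr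
  intro m'
  rw [ContinuousLinearMap.apply_apply, pairT_apply]
  apply integral_congr_ae
  filter_upwards [(hk1 m').coeFn_toL1] with x hx
  rw [hx]

end Pool.Agent.Helper318.L1S
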