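import Pool.Agent.Helper318.L1S.Defs

set_option autoImplicit false

open MeasureTheory Set Filter Topology

namespace Pool.Agent.Helper318.L1S



theorem exists_compl (𝕜 : Type*) [RCLike 𝕜] (V : Type*) (W : Type*)
    [NormedAddCommGroup V] [NormedSpace 𝕜 V] [NormedAddCommGroup W] [NormedSpace 𝕜 W]
    (h : Compl 𝕜 V W) : ∃ K : Submodule 𝕜 W, Nonempty (W ≃L[𝕜] V × K) := by
  obtain ⟨S, R, hRS⟩ := h
  have hP : ∀ w : W, (ContinuousLinearMap.id 𝕜 W - S.comp R) w ∈ R.ker := by
    intro w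
    rw [LinearMap.mem_ker]
    show R (w - S (R w)) = 0
    rw [map_sub, hRS, sub_self]
  refine ⟨R.ker, ⟨ContinuousLinearEquiv.equivOfInverse
    (R.prod ((ContinuousLinearMap.id 𝕜 W - S.comp R).codRestrict R.ker hP))
    (S.coprod R.ker.subtypeL) ?_ ?_⟩⟩
  · intro w
    show S (R w) + (w - S (R w)) = w
    abel
  · rintro ⟨v, k⟩
    have hk : R (k : W) = 0 := k.2
    have h1 : R (S v + (k : W)) = v := by rw [map_add, hRS, hk, add_zero]
    apply Prod.ext
    · exact h1
    · apply Subtype.ext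
      show (S v + (k : W)) - S (R (S v + (k : W))) = k
      rw [h1]
      abel

end Pool.Agent.Helper318.L1S
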