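import Pool.Agent.Helper318.L1S.Defs

set_option autoImplicit false

open MeasureTheory Set Filter Topology

namespace Pool.Agent.Helper318.L1S


theorem lp1_summable_n {V : Type*} [NormedAddCommGroup V] (f : lp (fun _ : ℕ => V) 1) :
    Summable fun n => ‖f n‖ := by
  have h := (memℓp_gen_iff (p := 1) (by simp)).1 (lp.memℓp f)
  simpa using h

theorem lp1_mem_n {V : Type*} [NormedAddCommGroup V] (f : ℕ → V) (h : Summable fun n => ‖f n‖) :
    Memℓp (E := fun _ : ℕ => V) f 1 := by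
  rw [memℓp_gen_iff (p := 1) (by simp)]
  simpa using h

theorem lp1_norm_n {V : Type*} [NormedAddCommGroup V] (f : lp (fun _ : ℕ => V) 1) :
    ‖f‖ = ∑' n, ‖f n‖ := by
  have h := lp.norm_eq_tsum_rpow (p := 1) (by simp) f
  simpa using h

/-- splitting off the first coordinate -/
noncomputable def lp1_equiv (𝕜 : Type*) [RCLike 𝕜] (V : Type*) [NormedAddCommGroup V]
    [NormedSpace 𝕜 V] :
    lp (fun _ : ℕ => V) 1 ≃ₗ[𝕜] V × lp (fun _ : ℕ => V) 1 where
  toFun f := (f 0, ⟨fun n => f (n + 1), lp1_mem_n _ ((summable_nat_add_iff 1).2 (lp1_summable_n f))⟩)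
  invFun p := ⟨fun n => Nat.casesOn n p.1 (fun m => p.2 m), lp1_mem_n _ (by
    rw [← summable_nat_add_iff 1]
    exact lp1_summable_n p.2)⟩
  map_add' f g := by
    refine Prod.ext rfl ?_
    ext n
    rfl
  map_smul' c f := by
    refine Prod.ext rfl ?_
    ext n
    rfl
  left_inv f := by
    ext n
    cases n with
    | zero => rfl
    | succ n => rfl
  right_inv p := by
    refine Prod.ext rfl ?_
    ext n
    rfl

theorem iso_lp_nat (𝕜 : Type*) [RCLike 𝕜] (V : Type*) [NormedAddCommGroup V]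
    [NormedSpace 𝕜 V] :
    Nonempty (lp (fun _ : ℕ => V) 1 ≃L[𝕜] V × lp (fun _ : ℕ => V) 1) := by
  refine ⟨LinearEquiv.toContinuousLinearEquivOfBounds (lp1_equiv 𝕜 V) 1 2 ?_ ?_⟩
  · intro f
    have h1 : ‖f‖ = ‖f 0‖ + ∑' n, ‖f (n + 1)‖ := by
      rw [lp1_norm_n, (lp1_summable_n f).tsum_eq_zero_add]
    have h2 : ‖(lp1_equiv 𝕜 V f).2‖ = ∑' n, ‖f (n + 1)‖ := lp1_norm_n _
    have h3 : ‖(lp1_equiv 𝕜 V f).1‖ = ‖f 0‖ := rfl
    have h4 : 0 ≤ ∑' n, ‖f (n + 1)‖ := tsum_nonneg fun n => norm_nonneg _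
    rw [Prod.norm_def, h2, h3, one_mul, h1]
    exact max_le (by linarith) (by linarith [norm_nonneg (f 0)])
  · intro p
    have h0 := lp1_norm_n ((lp1_equiv 𝕜 V).symm p)
    have h1 : ‖(lp1_equiv 𝕜 V).symm p‖ = ‖p.1‖ + ‖p.2‖ := by
      rw [h0, (lp1_summable_n _).tsum_eq_zero_add, lp1_norm_n p.2]
      rfl
    rw [h1]
    have h2 := norm_fst_le p
    have h3 := norm_snd_le p
    linarith

end Pool.Agent.Helper318.L1S
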