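import Pool.Agent.Helper318.L1S.Defs

set_option autoImplicit false

open MeasureTheory Set Filter Topology

namespace Pool.Agent.Helper318.L1S


theorem ilp_mem {𝕜 : Type*} [RCLike 𝕜] {V W : Type*} [NormedAddCommGroup V]
    [NormedSpace 𝕜 V] [NormedAddCommGroup W] [NormedSpace 𝕜 W] (T : V →L[𝕜] W)
    (f : lp (fun _ : ℕ => V) 1) : Memℓp (fun i => T (f i)) 1 := by
  have h1 : (0 : ℝ) < (1 : ENNReal).toReal := by simp
  have h2 := (memℓp_gen_iff h1).1 (lp.memℓp f)
  rw [memℓp_gen_iff h1]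
  simp only [ENNReal.toReal_one, Real.rpow_one] at h2 ⊢
  exact Summable.of_nonneg_of_le (fun i => norm_nonneg _) (fun i => T.le_opNorm (f i))
    (h2.mul_left ‖T‖)

theorem ilp_norm {V : Type*} [NormedAddCommGroup V] (f : lp (fun _ : ℕ => V) 1) :
    ‖f‖ = ∑' i, ‖f i‖ := by
  have h1 : (0 : ℝ) < (1 : ENNReal).toReal := by simp
  rw [lp.norm_eq_tsum_rpow h1]
  simp only [ENNReal.toReal_one, Real.rpow_one, div_one]

theorem ilp_summable {V : Type*} [NormedAddCommGroup V] (f : lp (fun _ : ℕ => V) 1) :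
    Summable fun i => ‖f i‖ := by
  have h1 : (0 : ℝ) < (1 : ENNReal).toReal := by simp
  have h2 := (memℓp_gen_iff h1).1 (lp.memℓp f)
  simpa only [ENNReal.toReal_one, Real.rpow_one] using h2

/-- coordinatewise application of a continuous linear map -/
noncomputable def ilpMap {𝕜 : Type*} [RCLike 𝕜] {V W : Type*} [NormedAddCommGroup V]
    [NormedSpace 𝕜 V] [NormedAddCommGroup W] [NormedSpace 𝕜 W] (T : V →L[𝕜] W) :
    lp (fun _ : ℕ => V) 1 →L[𝕜] lp (fun _ : ℕ => W) 1 :=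
  LinearMap.mkContinuous
    { toFun := fun f => ⟨fun i => T (f i), ilp_mem T f⟩
      map_add' := fun f g => by
        ext i
        exact map_add T (f i) (g i)
      map_smul' := fun c f => by
        ext i
        exact map_smul T c (f i) }
    ‖T‖ (fun f => by
      rw [ilp_norm, ilp_norm, ← tsum_mul_left]
      exact Summable.tsum_le_tsum (fun i => T.le_opNorm (f i))
        (ilp_summable (⟨fun i => T (f i), ilp_mem T f⟩ : lp (fun _ : ℕ => W) 1))
        ((ilp_summable f).mul_left _))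

theorem ilpMap_apply {𝕜 : Type*} [RCLike 𝕜] {V W : Type*} [NormedAddCommGroup V]
    [NormedSpace 𝕜 V] [NormedAddCommGroup W] [NormedSpace 𝕜 W] (T : V →L[𝕜] W)
    (f : lp (fun _ : ℕ => V) 1) (i : ℕ) : (ilpMap T f) i = T (f i) := rfl

theorem iso_lp_of_iso (𝕜 : Type*) [RCLike 𝕜] (V W : Type*) [NormedAddCommGroup V]
    [NormedSpace 𝕜 V] [NormedAddCommGroup W] [NormedSpace 𝕜 W] (h : Nonempty (V ≃L[𝕜] W)) :
    Nonempty (lp (fun _ : ℕ => V) 1 ≃L[𝕜] lp (fun _ : ℕ => W) 1) := by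
  obtain ⟨e⟩ := h
  refine ⟨ContinuousLinearEquiv.equivOfInverse (ilpMap (e : V →L[𝕜] W))
    (ilpMap (e.symm : W →L[𝕜] V)) ?_ ?_⟩
  · intro f
    ext i
    rw [ilpMap_apply, ilpMap_apply]
    exact e.symm_apply_apply (f i)
  · intro f
    ext i
    rw [ilpMap_apply, ilpMap_apply]
    exact e.apply_symm_apply (f i)

end Pool.Agent.Helper318.L1S
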