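import Pool.Agent.Helper318.L1S.Defs

set_option autoImplicit false

open MeasureTheory Set Filter Topology

namespace Pool.Agent.Helper318.L1S



theorem mem1_iff_p {E : Type*} [NormedAddCommGroup E] (f : ℕ → E) :
    Memℓp f 1 ↔ Summable fun i => ‖f i‖ := by
  rw [memℓp_gen_iff (by simp)]
  simp

theorem norm1_eq_p {E : Type*} [NormedAddCommGroup E] (f : lp (fun _ : ℕ => E) 1) :
    ‖f‖ = ∑' i, ‖f i‖ := by
  rw [lp.norm_eq_tsum_rpow (by simp)]
  simp

theorem sum1 {E : Type*} [NormedAddCommGroup E] (f : lp (fun _ : ℕ => E) 1) :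
    Summable fun i => ‖f i‖ := (mem1_iff_p _).1 f.2

theorem iso_lp_prod (𝕜 : Type*) [RCLike 𝕜] (V W : Type*) [NormedAddCommGroup V]
    [NormedSpace 𝕜 V] [NormedAddCommGroup W] [NormedSpace 𝕜 W] :
    Nonempty (lp (fun _ : ℕ => V × W) 1 ≃L[𝕜] lp (fun _ : ℕ => V) 1 × lp (fun _ : ℕ => W) 1) := by
  have m1 : ∀ f : lp (fun _ : ℕ => V × W) 1, Memℓp (fun i => (f i).1) 1 := by
    intro f
    rw [mem1_iff_p]
    exact Summable.of_nonneg_of_le (fun i => norm_nonneg _) (fun i => norm_fst_le (f i)) (sum1 f)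
  have m2 : ∀ f : lp (fun _ : ℕ => V × W) 1, Memℓp (fun i => (f i).2) 1 := by
    intro f
    rw [mem1_iff_p]
    exact Summable.of_nonneg_of_le (fun i => norm_nonneg _) (fun i => norm_snd_le (f i)) (sum1 f)
  have m3 : ∀ g : lp (fun _ : ℕ => V) 1 × lp (fun _ : ℕ => W) 1,
      Memℓp (fun i => ((g.1 i, g.2 i) : V × W)) 1 := by
    intro g
    rw [mem1_iff_p]
    refine Summable.of_nonneg_of_le (fun i => norm_nonneg _) (fun i => ?_)
      ((sum1 g.1).add (sum1 g.2))
    rw [Prod.norm_def]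
    exact max_le (by linarith [norm_nonneg (g.2 i)]) (by linarith [norm_nonneg (g.1 i)])
  let e : lp (fun _ : ℕ => V × W) 1 ≃ₗ[𝕜] lp (fun _ : ℕ => V) 1 × lp (fun _ : ℕ => W) 1 :=
    { toFun := fun f => (⟨fun i => (f i).1, m1 f⟩, ⟨fun i => (f i).2, m2 f⟩)
      invFun := fun g => ⟨fun i => (g.1 i, g.2 i), m3 g⟩
      left_inv := fun f => by
        apply Subtype.ext
        funext i
        rfl
      right_inv := fun g => by
        apply Prod.ext
        · apply Subtype.ext
          funext i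
          rfl
        · apply Subtype.ext
          funext i
          rfl
      map_add' := fun f g => by
        apply Prod.ext
        · apply Subtype.ext
          funext i
          rfl
        · apply Subtype.ext
          funext i
          rfl
      map_smul' := fun c f => by
        apply Prod.ext
        · apply Subtype.ext
          funext i
          rfl
        · apply Subtype.ext
          funext i
          rfl }
  refine ⟨e.toContinuousLinearEquivOfBounds 1 2 (fun f => ?_) (fun g => ?_)⟩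
  · rw [one_mul, Prod.norm_def]
    refine max_le ?_ ?_
    · rw [norm1_eq_p, norm1_eq_p]
      exact (sum1 (e f).1).tsum_le_tsum (fun i => norm_fst_le (f i)) (sum1 f)
    · rw [norm1_eq_p, norm1_eq_p]
      exact (sum1 (e f).2).tsum_le_tsum (fun i => norm_snd_le (f i)) (sum1 f)
  · rw [norm1_eq_p]
    have h1 : ∑' i, ‖(e.symm g) i‖ ≤ ∑' i, (‖g.1 i‖ + ‖g.2 i‖) := by
      refine (sum1 (e.symm g)).tsum_le_tsum (fun i => ?_) ((sum1 g.1).add (sum1 g.2))
      show ‖((g.1 i, g.2 i) : V × W)‖ ≤ _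
      rw [Prod.norm_def]
      exact max_le (by linarith [norm_nonneg (g.2 i)]) (by linarith [norm_nonneg (g.1 i)])
    rw [(sum1 g.1).tsum_add (sum1 g.2), ← norm1_eq_p g.1, ← norm1_eq_p g.2] at h1
    have h2 : ‖g.1‖ ≤ ‖g‖ := norm_fst_le g
    have h3 : ‖g.2‖ ≤ ‖g‖ := norm_snd_le g
    linarith

end Pool.Agent.Helper318.L1S
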