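import Pool.Agent.Helper318.L1S.Defs
import Pool.Agent.Helper318.L1S.P_iso_lp_prod
import Pool.Agent.Helper318.L1S.P_iso_lp_nat
import Pool.Agent.Helper318.L1S.P_iso_lp_of_iso
import Pool.Agent.Helper318.L1S.P_exists_compl

set_option autoImplicit false

open MeasureTheory Set Filter Topology

namespace Pool.Agent.Helper318.L1S



theorem pelczynski (𝕜 : Type*) [RCLike 𝕜] (W D : Type*) [NormedAddCommGroup W]
    [NormedSpace 𝕜 W] [NormedAddCommGroup D] [NormedSpace 𝕜 D] (h1 : Compl 𝕜 W D)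
    (h2 : Compl 𝕜 D W) (h3 : Nonempty (D ≃L[𝕜] lp (fun _ : ℕ => D) 1)) :
    Nonempty (W ≃L[𝕜] D) := by
  obtain ⟨B, ⟨eB⟩⟩ := exists_compl 𝕜 W D h1
  obtain ⟨A, ⟨eA⟩⟩ := exists_compl 𝕜 D W h2
  obtain ⟨e3⟩ := h3
  obtain ⟨eN⟩ := iso_lp_nat 𝕜 D
  obtain ⟨eW⟩ := iso_lp_nat 𝕜 W
  obtain ⟨eP⟩ := iso_lp_prod 𝕜 W B
  obtain ⟨eI⟩ := iso_lp_of_iso 𝕜 D (W × B) ⟨eB⟩
  have eDD : D ≃L[𝕜] D × D :=
    (e3.trans eN).trans ((ContinuousLinearEquiv.refl 𝕜 D).prodCongr e3.symm)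
  have eWD : W ≃L[𝕜] D × W :=
    eA.trans ((eDD.prodCongr (ContinuousLinearEquiv.refl 𝕜 A)).trans
      ((ContinuousLinearEquiv.prodAssoc 𝕜 D D A).trans
        ((ContinuousLinearEquiv.refl 𝕜 D).prodCongr eA.symm)))
  have eDW : D ≃L[𝕜] W × D :=
    e3.trans (eI.trans (eP.trans
      ((eW.prodCongr (ContinuousLinearEquiv.refl 𝕜 (lp (fun _ : ℕ => B) 1))).trans
        ((ContinuousLinearEquiv.prodAssoc 𝕜 W (lp (fun _ : ℕ => W) 1)
          (lp (fun _ : ℕ => B) 1)).trans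
          ((ContinuousLinearEquiv.refl 𝕜 W).prodCongr
            (eP.symm.trans (eI.symm.trans e3.symm)))))))
  exact ⟨eWD.trans ((ContinuousLinearEquiv.prodComm 𝕜 D W).trans eDW.symm)⟩

end Pool.Agent.Helper318.L1S
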