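import Pool.Agent.Helper318.L1S.Defs
import Pool.Agent.Helper318.L1S.P_iso_lp_sigma
import Pool.Agent.Helper318.L1S.P_iso_lp_congr
import Pool.Agent.Helper318.L1S.P_compl_lp
import Pool.Agent.Helper318.L1S.P_pelczynski
import Pool.Agent.Helper318.L1S.P_iso_meas
import Pool.Agent.Helper318.L1S.P_exists_maxsing
import Pool.Agent.Helper318.L1S.P_card_meas
import Pool.Agent.Helper318.L1S.P_compl_in_piece
import Pool.Agent.Helper318.L1S.P_piece_in_dual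
import Pool.Agent.Helper318.L1S.P_dual_self_sum

set_option autoImplicit false

open MeasureTheory Set Filter Topology

namespace Pool.Agent.Helper318.L1S



theorem aux_compl_iso {𝕜 : Type*} [RCLike 𝕜] {D D' W : Type*} [NormedAddCommGroup D]
    [NormedSpace 𝕜 D] [NormedAddCommGroup D'] [NormedSpace 𝕜 D'] [NormedAddCommGroup W]
    [NormedSpace 𝕜 W] (e : D ≃L[𝕜] D') (h : Compl 𝕜 D' W) : Compl 𝕜 D W := by
  obtain ⟨S, R, hRS⟩ := h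
  refine ⟨S.comp (e : D →L[𝕜] D'), (e.symm : D' →L[𝕜] D).comp R, fun v => ?_⟩
  simp [hRS]

theorem aux_inj.{u} {A : Type u} {M : Type} (hA : Cardinal.continuum.{u} ≤ Cardinal.mk A)
    (hM : Cardinal.mk M ≤ Cardinal.continuum.{0}) :
    ∃ β : ((_ : A) × M) → A, Function.Injective β := by
  have hinf : Cardinal.aleph0 ≤ Cardinal.mk A := Cardinal.aleph0_le_continuum.trans hA
  have h1 : Cardinal.mk ((_ : A) × M) ≤ Cardinal.mk A := by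
    rw [Cardinal.mk_congr (Equiv.sigmaEquivProd A M), Cardinal.mk_prod]
    have h2 : Cardinal.lift.{u} (Cardinal.mk M) ≤ Cardinal.mk A := by
      refine le_trans ?_ hA
      rw [← Cardinal.lift_continuum.{u, 0}]
      exact Cardinal.lift_le.2 hM
    rw [Cardinal.lift_uzero]
    calc Cardinal.mk A * Cardinal.lift.{u} (Cardinal.mk M) ≤ Cardinal.mk A * Cardinal.mk A :=
          mul_le_mul_right h2 _
      _ = Cardinal.mk A := Cardinal.mul_eq_self hinf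
  obtain ⟨f⟩ := (Cardinal.le_def _ _).1 h1
  exact ⟨f, f.injective⟩

theorem pieces_iso.{u} {𝕜 : Type*} [RCLike 𝕜] {Ω : Type u} [MeasurableSpace Ω] {μ : Measure Ω}
    (𝓔 : Set (Set Ω)) (h𝓔 : ∀ E ∈ 𝓔, AtomlessPiece μ E)
    (hcard : Cardinal.continuum.{u} ≤ Cardinal.mk 𝓔)
    (hsep : ∀ E ∈ 𝓔, TopologicalSpace.SeparableSpace (Lp 𝕜 1 (μ.restrict E))) :
    Nonempty (lp (fun E : 𝓔 => Lp 𝕜 1 (μ.restrict E.1)) 1 ≃L[𝕜]
      lp (fun _ : 𝓔 => StrongDual 𝕜 C(Cant, 𝕜)) 1) := by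
  have hinf : Infinite 𝓔 := by
    rw [Cardinal.infinite_iff]
    exact Cardinal.aleph0_le_continuum.trans hcard
  have h1 : Compl 𝕜 (lp (fun E : 𝓔 => Lp 𝕜 1 (μ.restrict E.1)) 1)
      (lp (fun _ : 𝓔 => StrongDual 𝕜 C(Cant, 𝕜)) 1) := by
    refine compl_lp 𝕜 (fun E : 𝓔 => E) (fun _ _ h => h) _ _ (fun E => ?_)
    obtain ⟨-, hpos, hfin, -⟩ := h𝓔 E.1 E.2
    have : IsFiniteMeasure (μ.restrict E.1) := ⟨by rw [Measure.restrict_apply_univ]; exact hfin⟩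
    refine piece_in_dual (μ.restrict E.1) ?_ (hsep E.1 E.2)
    intro h0
    rw [Measure.restrict_eq_zero] at h0
    exact hpos.ne' h0
  have h3 := dual_self_sum (𝕜 := 𝕜) hinf (StrongDual 𝕜 C(Cant, 𝕜))
  have h2 : Compl 𝕜 (lp (fun _ : 𝓔 => StrongDual 𝕜 C(Cant, 𝕜)) 1)
      (lp (fun E : 𝓔 => Lp 𝕜 1 (μ.restrict E.1)) 1) := by
    obtain ⟨𝓜, h𝓜, -⟩ := exists_maxsing (Measure.dirac (fun _ => false : Cant))
    obtain ⟨iso⟩ := iso_meas (𝕜 := 𝕜) h𝓜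
    obtain ⟨e1⟩ := iso_lp_congr 𝕜 (fun _ : 𝓔 => StrongDual 𝕜 C(Cant, 𝕜))
      (fun _ : 𝓔 => lp (fun m : 𝓜 => Lp 𝕜 1 m.1) 1) (fun _ => ⟨iso.symm⟩)
    obtain ⟨e2⟩ := iso_lp_sigma 𝕜 (ι := 𝓔) (J := fun _ => 𝓜) (fun _ m => Lp 𝕜 1 m.1)
    obtain ⟨β, hβ⟩ := aux_inj hcard (card_meas 𝓜 h𝓜.1)
    refine aux_compl_iso (e1.trans e2) ?_
    refine compl_lp 𝕜 β hβ _ _ (fun p => ?_)
    have := h𝓜.1 p.2.1 p.2.2
    exact compl_in_piece (h𝓔 _ (β p).2) p.2.1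
  exact pelczynski 𝕜 _ _ h1 h2 h3

end Pool.Agent.Helper318.L1S
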