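import Pool.Agent.Helper318.L1S.Defs
import Pool.Agent.Helper318.L1S.P_iso_lp_sum
import Pool.Agent.Helper318.L1S.P_iso_lp_reindex
import Pool.Agent.Helper318.L1S.P_iso_lp_congr
import Pool.Agent.Helper318.L1S.P_dual_c0
import Pool.Agent.Helper318.L1S.P_exists_families
import Pool.Agent.Helper318.L1S.P_iso_decomp
import Pool.Agent.Helper318.L1S.P_atom_iso
import Pool.Agent.Helper318.L1S.P_pieces_iso

set_option autoImplicit false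

open MeasureTheory Set Filter Topology

namespace Pool.Agent.Helper318.L1S



theorem suff.{u, v} {𝕜 : Type v} [RCLike 𝕜] {Ω : Type u} [MeasurableSpace Ω] (μ : Measure Ω)
    (hsep : ∀ E, AtomlessPiece μ E →
      TopologicalSpace.SeparableSpace (Lp 𝕜 1 (μ.restrict E)))
    (h : (∀ E, ¬ AtomlessPiece μ E) ∨ ∃ A : ℝ → Set Ω, (∀ r, AtomlessPiece μ (A r)) ∧
      Pairwise fun r r' => μ (A r ∩ A r') = 0) :
    ∃ (X : Type (max u v)) (_ : NormedAddCommGroup X) (_ : NormedSpace 𝕜 X),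
      Nonempty (Lp 𝕜 1 μ ≃L[𝕜] StrongDual 𝕜 X) := by
  classical
  obtain ⟨𝓔, 𝓐, h𝓔, h𝓐, hF, hdis, hcard⟩ := exists_families μ h
  obtain ⟨i0⟩ := iso_decomp (𝕜 := 𝕜) hF
  obtain ⟨i1⟩ := iso_lp_reindex 𝕜 (Equiv.Set.union hdis).symm
    (fun E : (𝓔 ∪ 𝓐 : Set (Set Ω)) => Lp 𝕜 1 (μ.restrict E.1))
  obtain ⟨i2⟩ := iso_lp_sum 𝕜 (fun i : 𝓔 ⊕ 𝓐 =>
    Lp 𝕜 1 (μ.restrict ((Equiv.Set.union hdis).symm i).1))
  have hA : Nonempty (lp (fun A : 𝓐 => Lp 𝕜 1 (μ.restrict A.1)) 1 ≃L[𝕜]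
      lp (fun _ : 𝓐 => StrongDual 𝕜 𝕜) 1) :=
    iso_lp_congr 𝕜 (fun A : 𝓐 => Lp 𝕜 1 (μ.restrict A.1)) (fun _ : 𝓐 => StrongDual 𝕜 𝕜)
      fun A => atom_iso (h𝓐 A.1 A.2).1 (h𝓐 A.1 A.2).2
  have hE : Nonempty (lp (fun E : 𝓔 => Lp 𝕜 1 (μ.restrict E.1)) 1 ≃L[𝕜]
      lp (fun _ : 𝓔 => StrongDual 𝕜 C(Cant, 𝕜)) 1) := by
    rcases hcard with h0 | h1
    · refine iso_lp_congr 𝕜 (fun E : 𝓔 => Lp 𝕜 1 (μ.restrict E.1))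
        (fun _ : 𝓔 => StrongDual 𝕜 C(Cant, 𝕜)) fun E => ?_
      have := E.2
      exact (Set.eq_empty_iff_forall_notMem.1 h0 E.1 this).elim
    · exact pieces_iso 𝓔 h𝓔 h1 fun E hE => hsep E (h𝓔 E hE)
  obtain ⟨i3⟩ := hE
  obtain ⟨i4⟩ := hA
  obtain ⟨X1, n1, m1, ⟨j1⟩⟩ := dual_c0.{u, v} 𝕜 (fun _ : 𝓔 => C(Cant, 𝕜))
  obtain ⟨X2, n2, m2, ⟨j2⟩⟩ := dual_c0.{u, v} 𝕜 (fun _ : 𝓐 => 𝕜)
  refine ⟨X1 × X2, inferInstance, inferInstance, ⟨?_⟩⟩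
  refine i0.toContinuousLinearEquiv.trans (i1.symm.trans (i2.trans ?_))
  exact ((i3.trans j1).prodCongr (i4.trans j2)).trans
    (ContinuousLinearMap.coprodEquivL (𝕜 := 𝕜) (E := X1) (F := X2) (G := 𝕜) 𝕜)

end Pool.Agent.Helper318.L1S
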