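import Pool.Agent.Helper318.L1D.P_main
import Pool.Agent.Helper318.L1S.P_suff
import Pool.Agent.Helper318.L1S.P_dual_completion

set_option autoImplicit false

open MeasureTheory Set Filter Topology

namespace Pool.Agent.Helper318.L1D

universe u v

/-- `L¹(μ)` with scalars `𝕜` is isomorphic to the dual of a Banach space. -/
def IsoToDual (𝕜 : Type v) [RCLike 𝕜] {Ω : Type u} [MeasurableSpace Ω] (μ : Measure Ω) : Prop :=
  ∃ (X : Type (max u v)) (_ : NormedAddCommGroup X) (_ : NormedSpace 𝕜 X) (_ : CompleteSpace X),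
    Nonempty (Lp 𝕜 1 μ ≃L[𝕜] StrongDual 𝕜 X)

/-- There is a family, indexed by the real numbers, of atomless sets of finite positive measure with
pairwise null intersections. -/
def ContinuumManyPieces {Ω : Type u} [MeasurableSpace Ω] (μ : Measure Ω) : Prop :=
  ∃ A : ℝ → Set Ω, (∀ r, AtomlessPiece μ (A r)) ∧ Pairwise fun r r' => μ (A r ∩ A r') = 0

/-- For every atomless set `E` of finite positive measure the space `L¹(μ|E)` is separable. -/
def SeparablePieces (𝕜 : Type v) [RCLike 𝕜] {Ω : Type u} [MeasurableSpace Ω] (μ : Measure Ω) :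
    Prop :=
  ∀ E, AtomlessPiece μ E → TopologicalSpace.SeparableSpace (Lp 𝕜 1 (μ.restrict E))

theorem necessity {𝕜 : Type v} [RCLike 𝕜] {Ω : Type u} [MeasurableSpace Ω] {μ : Measure Ω}
    (h : IsoToDual 𝕜 μ) : (∀ E, ¬ AtomlessPiece μ E) ∨ ContinuumManyPieces μ := by
  obtain ⟨X, _, _, _, ⟨T⟩⟩ := h
  by_cases h0 : ∀ E, ¬ AtomlessPiece μ E
  · exact Or.inl h0
  · push Not at h0
    obtain ⟨E, hE⟩ := h0
    exact Or.inr (main T hE)

theorem sufficiency {𝕜 : Type v} [RCLike 𝕜] {Ω : Type u} [MeasurableSpace Ω] {μ : Measure Ω}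
    (hs : SeparablePieces 𝕜 μ) (h : (∀ E, ¬ AtomlessPiece μ E) ∨ ContinuumManyPieces μ) :
    IsoToDual 𝕜 μ := by
  obtain ⟨X, i1, i2, ⟨T⟩⟩ := L1S.suff (𝕜 := 𝕜) μ hs h
  obtain ⟨e⟩ := L1S.dual_completion 𝕜 X
  exact ⟨UniformSpace.Completion X, inferInstance, inferInstance, inferInstance, ⟨T.trans e⟩⟩

end Pool.Agent.Helper318.L1D
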