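import Mathlib

set_option autoImplicit false

open MeasureTheory Set Filter Topology

namespace Pool.Agent.Helper318.L1S

/-- `A` is an atom of the measure `μ`. -/
def IsAtomSet {Ω : Type*} [MeasurableSpace Ω] (μ : Measure Ω) (A : Set Ω) : Prop :=
  MeasurableSet A ∧ 0 < μ A ∧ ∀ B ⊆ A, MeasurableSet B → μ B = 0 ∨ μ (A \ B) = 0

/-- A measurable set of finite positive measure which contains no atom. -/
def AtomlessPiece {Ω : Type*} [MeasurableSpace Ω] (μ : Measure Ω) (E : Set Ω) : Prop :=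
  MeasurableSet E ∧ 0 < μ E ∧ μ E < ⊤ ∧ ∀ A ⊆ E, ¬ IsAtomSet μ A

/-- The Cantor set. -/
abbrev Cant : Type := ℕ → Bool

/-- `V` is complemented in `W` by maps of norm at most one. -/
def Compl1 (𝕜 : Type*) [RCLike 𝕜] (V W : Type*) [NormedAddCommGroup V] [NormedSpace 𝕜 V]
    [NormedAddCommGroup W] [NormedSpace 𝕜 W] : Prop :=
  ∃ (S : V →L[𝕜] W) (R : W →L[𝕜] V), (∀ v, ‖S v‖ ≤ ‖v‖) ∧ (∀ w, ‖R w‖ ≤ ‖w‖) ∧
    ∀ v, R (S v) = v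

/-- `V` is complemented in `W`. -/
def Compl (𝕜 : Type*) [RCLike 𝕜] (V W : Type*) [NormedAddCommGroup V] [NormedSpace 𝕜 V]
    [NormedAddCommGroup W] [NormedSpace 𝕜 W] : Prop :=
  ∃ (S : V →L[𝕜] W) (R : W →L[𝕜] V), ∀ v, R (S v) = v

/-- A maximal family of mutually singular probability measures on the Cantor set. -/
def MaxSing (𝓜 : Set (Measure Cant)) : Prop :=
  (∀ m ∈ 𝓜, IsProbabilityMeasure m) ∧ (∀ m ∈ 𝓜, ∀ m' ∈ 𝓜, m ≠ m' → m ⟂ₘ m') ∧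
    ∀ m : Measure Cant, IsFiniteMeasure m → m ≠ 0 → ∃ m' ∈ 𝓜, ¬ m ⟂ₘ m'

/-- A maximal almost disjoint family of sets of finite positive measure. -/
def FullFamily {Ω : Type*} [MeasurableSpace Ω] (μ : Measure Ω) (𝓕 : Set (Set Ω)) : Prop :=
  (∀ E ∈ 𝓕, MeasurableSet E ∧ 0 < μ E ∧ μ E < ⊤) ∧
    (∀ E ∈ 𝓕, ∀ E' ∈ 𝓕, E ≠ E' → μ (E ∩ E') = 0) ∧
    ∀ D, MeasurableSet D → 0 < μ D → μ D < ⊤ → ∃ E ∈ 𝓕, 0 < μ (D ∩ E)

end Pool.Agent.Helper318.L1S
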