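import Pool.Agent.Helper318.L1S.Defs

set_option autoImplicit false

open MeasureTheory Set Filter Topology

namespace Pool.Agent.Helper318.L1S



theorem comp_iso {𝕜 : Type*} [RCLike 𝕜] {Ω : Type*} [MeasurableSpace Ω] (ν : Measure Ω)
    [IsFiniteMeasure ν] (φ : Ω → Cant) (hφ : Measurable φ)
    (hgen : ∀ A, MeasurableSet A → ∃ B, MeasurableSet B ∧ A =ᵐ[ν] φ ⁻¹' B) :
    Nonempty (Lp 𝕜 1 (ν.map φ) ≃ₗᵢ[𝕜] Lp 𝕜 1 ν) := by
  classical
  have hmp : MeasurePreserving φ ν (ν.map φ) := hφ.measurePreserving ν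
  let S : Lp 𝕜 1 (ν.map φ) →ₗᵢ[𝕜] Lp 𝕜 1 ν := Lp.compMeasurePreservingₗᵢ 𝕜 φ hmp
  have hclosed : IsClosed (Set.range S) := S.isometry.isClosedEmbedding.isClosed_range
  have hsurj : ∀ f : Lp 𝕜 1 ν, f ∈ Set.range S := by
    refine Lp.induction ENNReal.one_ne_top (fun f => f ∈ Set.range S) ?_ ?_ ?_
    · intro c A hA hμA
      obtain ⟨B, hB, hAB⟩ := hgen A hA
      refine ⟨indicatorConstLp 1 hB (measure_ne_top (ν.map φ) B) c, ?_⟩
      have h1 : S (indicatorConstLp 1 hB (measure_ne_top (ν.map φ) B) c) =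
          indicatorConstLp 1 (hB.preimage hφ) (measure_ne_top ν _) c := rfl
      rw [h1, Lp.simpleFunc.coe_indicatorConst]
      apply Lp.ext
      refine indicatorConstLp_coeFn.trans ?_
      refine EventuallyEq.trans ?_ indicatorConstLp_coeFn.symm
      exact indicator_ae_eq_of_ae_eq_set hAB.symm
    · rintro f g hf hg - ⟨u, hu⟩ ⟨v, hv⟩
      exact ⟨u + v, by rw [map_add, hu, hv]⟩
    · exact hclosed
  exact ⟨LinearIsometryEquiv.ofSurjective S hsurj⟩

end Pool.Agent.Helper318.L1S
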