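import Pool.Agent.Helper318.L1S.Defs

set_option autoImplicit false

open MeasureTheory Set Filter Topology

namespace Pool.Agent.Helper318.L1S



theorem compl_coord {𝕜 : Type*} [RCLike 𝕜] {ι : Type*} (V : ι → Type*)
    [∀ i, NormedAddCommGroup (V i)] [∀ i, NormedSpace 𝕜 (V i)] (i : ι) :
    Compl1 𝕜 (V i) (lp V 1) := by
  classical
  refine ⟨lp.singleContinuousLinearMap 𝕜 V 1 i, lp.evalCLM 𝕜 V 1 i, ?_, ?_, ?_⟩
  · intro v
    rw [lp.singleContinuousLinearMap_apply, lp.norm_single (by norm_num)]
  · intro w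
    exact lp.norm_apply_le_norm (by norm_num) w i
  · intro v
    rw [lp.singleContinuousLinearMap_apply]
    exact lp.single_apply_self 1 i v

end Pool.Agent.Helper318.L1S
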