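import Pool.Agent.Helper318.L1S.Defs

set_option autoImplicit false

open MeasureTheory Set Filter Topology

namespace Pool.Agent.Helper318.L1S



theorem exists_phi_sep (𝕜 : Type*) [RCLike 𝕜] {Ω : Type*} [MeasurableSpace Ω] (ν : Measure Ω)
    [IsFiniteMeasure ν] (hsep : TopologicalSpace.SeparableSpace (Lp 𝕜 1 ν)) :
    ∃ φ : Ω → Cant, Measurable φ ∧
      ∀ A, MeasurableSet A → ∃ B, MeasurableSet B ∧ A =ᵐ[ν] φ ⁻¹' B := by
  classical
  have := hsep
  let F : {A : Set Ω // MeasurableSet A} → Lp 𝕜 1 ν := fun A =>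
    indicatorConstLp 1 A.2 (measure_ne_top ν A.1) (1 : 𝕜)
  have hsepR : TopologicalSpace.IsSeparable (range F) :=
    TopologicalSpace.IsSeparable.of_separableSpace (range F)
  obtain ⟨t, htF, htc, htd⟩ := hsepR.exists_countable_dense_subset
  have hne : t.Nonempty := by
    have h1 : F ⟨∅, MeasurableSet.empty⟩ ∈ closure t := htd ⟨_, rfl⟩
    exact closure_nonempty_iff.1 ⟨_, h1⟩
  obtain ⟨g, hg⟩ := htc.exists_eq_range hne
  have hgF : ∀ n, ∃ A : {A : Set Ω // MeasurableSet A}, F A = g n := fun n =>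
    htF (by rw [hg]; exact ⟨n, rfl⟩)
  choose A hA using hgF
  have hmeas : ∀ n, MeasurableSet (A n).1 := fun n => (A n).2
  refine ⟨fun ω n => decide (ω ∈ (A n).1), ?_, ?_⟩
  · refine measurable_pi_lambda _ (fun n => measurable_to_bool ?_)
    have h1 : (fun ω => decide (ω ∈ (A n).1)) ⁻¹' {true} = (A n).1 := by
      ext ω
      simp
    rw [h1]
    exact hmeas n
  intro S hS
  have hdist : ∀ n, dist (F ⟨S, hS⟩) (F (A n)) = ν.real (symmDiff S (A n).1) := by
    intro n
    have h1 : dist (F ⟨S, hS⟩) (F (A n)) =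
        ‖indicatorConstLp 1 (hS.symmDiff (hmeas n)) (measure_ne_top ν _) (1 : 𝕜)‖ :=
      dist_indicatorConstLp_eq_norm
    rw [h1, norm_indicatorConstLp one_ne_zero ENNReal.one_ne_top, norm_one, one_mul,
      ENNReal.toReal_one, div_one, Real.rpow_one]
  have hex : ∀ k : ℕ, ∃ n, ν.real (symmDiff S (A n).1) < (1 / 2 : ℝ) ^ k := by
    intro k
    have h1 : F ⟨S, hS⟩ ∈ closure t := htd ⟨_, rfl⟩
    obtain ⟨b, hb, hdb⟩ := Metric.mem_closure_iff.1 h1 ((1 / 2 : ℝ) ^ k) (by positivity)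
    rw [hg] at hb
    obtain ⟨n, rfl⟩ := hb
    refine ⟨n, ?_⟩
    rw [← hdist, hA]
    exact hdb
  choose m hm using hex
  refine ⟨limsup (fun k => {c : Cant | c (m k) = true}) atTop, ?_, ?_⟩
  · refine MeasurableSet.measurableSet_limsup (fun k => ?_)
    have h2 : Measurable fun c : Cant => c (m k) := measurable_pi_apply (m k)
    exact h2 (measurableSet_singleton true)
  have hsum : ∑' k, ν (symmDiff S (A (m k)).1) ≠ ⊤ := by
    have h1 : ∀ k, ν (symmDiff S (A (m k)).1) ≤ (2⁻¹ : ENNReal) ^ k := by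
      intro k
      have h2 := hm k
      have h3 : ν (symmDiff S (A (m k)).1) = ENNReal.ofReal (ν.real (symmDiff S (A (m k)).1)) := by
        rw [measureReal_def, ENNReal.ofReal_toReal (measure_ne_top ν _)]
      rw [h3]
      refine (ENNReal.ofReal_le_ofReal h2.le).trans ?_
      rw [ENNReal.ofReal_pow (by norm_num)]
      refine le_of_eq ?_
      congr 1
      rw [one_div, ENNReal.ofReal_inv_of_pos (by norm_num)]
      norm_num
    refine ne_of_lt (lt_of_le_of_lt (ENNReal.tsum_le_tsum h1) ?_)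
    rw [ENNReal.tsum_geometric_two]
    exact ENNReal.ofNat_lt_top
  have h0 := measure_limsup_atTop_eq_zero hsum
  rw [Filter.eventuallyEq_set]
  have h1 : ∀ᵐ x ∂ν, x ∉ limsup (fun k => symmDiff S (A (m k)).1) atTop :=
    measure_eq_zero_iff_ae_notMem.1 h0
  filter_upwards [h1] with x hx
  rw [mem_limsup_iff_frequently_mem, Filter.not_frequently] at hx
  rw [mem_preimage, mem_limsup_iff_frequently_mem]
  simp only [mem_ofPred_eq, decide_eq_true_eq]
  constructor
  · intro hxS
    refine (hx.mono (fun k hk => ?_)).frequently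
    by_contra hcon
    exact hk (Or.inl ⟨hxS, hcon⟩)
  · intro hfr
    by_contra hxS
    obtain ⟨k, hk1, hk2⟩ := (hfr.and_eventually hx).exists
    exact hk2 (Or.inr ⟨hk1, hxS⟩)

end Pool.Agent.Helper318.L1S
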