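import Pool.Agent.Helper318.L1S.Defs
import Pool.Agent.Helper318.L1S.P_iso_meas
import Pool.Agent.Helper318.L1S.P_exists_maxsing
import Pool.Agent.Helper318.L1S.P_comp_iso
import Pool.Agent.Helper318.L1S.P_exists_phi_sep
import Pool.Agent.Helper318.L1S.P_scale_iso
import Pool.Agent.Helper318.L1S.P_compl_coord

set_option autoImplicit false

open MeasureTheory Set Filter Topology

namespace Pool.Agent.Helper318.L1S



theorem piece_in_dual {𝕜 : Type*} [RCLike 𝕜] {Ω : Type*} [MeasurableSpace Ω] (ν : Measure Ω)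
    [IsFiniteMeasure ν] (h0 : ν ≠ 0) (hsep : TopologicalSpace.SeparableSpace (Lp 𝕜 1 ν)) :
    Compl1 𝕜 (Lp 𝕜 1 ν) (StrongDual 𝕜 C(Cant, 𝕜)) := by
  obtain ⟨φ, hφ, hgen⟩ := exists_phi_sep 𝕜 ν hsep
  obtain ⟨e1⟩ := comp_iso (𝕜 := 𝕜) ν φ hφ hgen
  have hc : ν univ ≠ 0 := fun h => h0 (Measure.measure_univ_eq_zero.1 h)
  have hc' : ν univ ≠ ⊤ := measure_ne_top ν univ
  set m : Measure Cant := (ν univ)⁻¹ • ν.map φ with hm
  have hmu : (ν.map φ) univ = ν univ := by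
    rw [Measure.map_apply hφ MeasurableSet.univ, preimage_univ]
  have hprob : IsProbabilityMeasure m := ⟨by
    rw [hm, Measure.smul_apply, hmu, smul_eq_mul, ENNReal.inv_mul_cancel hc hc']⟩
  have hm2 : (ν univ) • m = ν.map φ := by
    rw [hm, smul_smul, ENNReal.mul_inv_cancel hc hc', one_smul]
  have h3 := scale_iso (𝕜 := 𝕜) m hc hc'
  rw [hm2] at h3
  obtain ⟨e2⟩ := h3
  obtain ⟨𝓜, h𝓜, hmem⟩ := exists_maxsing m
  obtain ⟨e3⟩ := iso_meas (𝕜 := 𝕜) h𝓜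
  obtain ⟨S0, R0, hS0, hR0, hRS⟩ := compl_coord (𝕜 := 𝕜) (fun m : 𝓜 => Lp 𝕜 1 m.1) ⟨m, hmem⟩
  let e : Lp 𝕜 1 m ≃ₗᵢ[𝕜] Lp 𝕜 1 ν := e2.trans e1
  refine ⟨e3.toContinuousLinearEquiv.toContinuousLinearMap.comp
    (S0.comp e.symm.toContinuousLinearEquiv.toContinuousLinearMap),
    e.toContinuousLinearEquiv.toContinuousLinearMap.comp
    (R0.comp e3.symm.toContinuousLinearEquiv.toContinuousLinearMap), ?_, ?_, ?_⟩
  · intro v
    have h1 : ‖e3 (S0 (e.symm v))‖ ≤ ‖v‖ := by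
      rw [e3.norm_map]
      exact (hS0 _).trans (e.symm.norm_map v).le
    exact h1
  · intro w
    have h1 : ‖e (R0 (e3.symm w))‖ ≤ ‖w‖ := by
      rw [e.norm_map]
      exact (hR0 _).trans (e3.symm.norm_map w).le
    exact h1
  · intro v
    show e (R0 (e3.symm (e3 (S0 (e.symm v))))) = v
    rw [e3.symm_apply_apply, hRS, e.apply_symm_apply]

end Pool.Agent.Helper318.L1S
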